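import Pool.Agent.Lib.MP_d9c039_lc.V2.Spec

set_option autoImplicit false

/-!
# MP_d9c039_lc, second machine: search for the tables
-/

namespace Pool.Agent.D9b

theorem tSearch (h1 : S_PrimChk) : S_Search := by
  intro S M C hS hM hC hex
  obtain ⟨hdec, hprim⟩ := h1
  let F : ℕ → ℕ → Option (List (List ℕ × ℕ)) := fun L n =>
    (Encodable.decode (α := List (List ℕ × ℕ)) n).bind
      (fun T => bif @decide _ (hdec ((S L, M L, C L), T)) then some T else none)
  have hF : Computable₂ F := by
    have e1 : Computable (fun y : ℕ × ℕ => Encodable.decode (α := List (List ℕ × ℕ)) y.2) :=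
      Computable.decode.comp Computable.snd
    refine Computable.option_bind e1 ?_
    have hm : Computable (fun z : (ℕ × ℕ) × List (List ℕ × ℕ) => z.1.1) :=
      Computable.fst.comp Computable.fst
    exact Computable.cond (hprim.to_comp.comp (Computable.pair (Computable.pair (hS.comp hm)
      (Computable.pair (hM.comp hm) (hC.comp hm))) Computable.snd))
      (Computable.option_some.comp Computable.snd) (Computable.const none)
  have hdom : ∀ L, (Nat.rfindOpt (F L)).Dom := by
    intro L
    rw [Nat.rfindOpt_dom]
    obtain ⟨T, hT⟩ := hex L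
    refine ⟨Encodable.encode T, T, ?_⟩
    have h2 : @decide _ (hdec ((S L, M L, C L), T)) = true := @decide_eq_true _ (hdec _) hT
    change (Encodable.decode (α := List (List ℕ × ℕ)) (Encodable.encode T)).bind
      (fun T => bif @decide _ (hdec ((S L, M L, C L), T)) then some T else none) = some T
    rw [Encodable.encodek, Option.bind_some, h2]
    rfl
  refine ⟨fun L => (Nat.rfindOpt (F L)).get (hdom L), ?_, ?_⟩
  · exact (Partrec.rfindOpt hF).of_eq fun m => Part.eq_some_iff.2 (Part.get_mem _)
  · intro L
    obtain ⟨n, hn⟩ := Nat.rfindOpt_spec (Part.get_mem (hdom L))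
    change LChk (S L) (M L) (C L) ((Nat.rfindOpt (F L)).get (hdom L))
    generalize (Nat.rfindOpt (F L)).get (hdom L) = T' at hn
    change (Encodable.decode (α := List (List ℕ × ℕ)) n).bind
      (fun T => bif @decide _ (hdec ((S L, M L, C L), T)) then some T else none) = some T' at hn
    rw [Option.bind_eq_some_iff] at hn
    obtain ⟨T, _, hT⟩ := hn
    cases hc : @decide _ (hdec ((S L, M L, C L), T)) with
    | false =>
      rw [hc] at hT
      exact absurd hT (by simp)
    | true =>
      rw [hc] at hT
      have h3 : T = T' := Option.some.inj hT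
      rw [← h3]
      have h4 := @of_decide_eq_true _ (hdec ((S L, M L, C L), T)) hc
      exact h4

end Pool.Agent.D9b
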