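import Pool.Agent.Lib.MP_d9c039_lc.V2.Spec

set_option autoImplicit false

/-!
# MP_d9c039_lc, second machine: computability of the marks and of the lists `mList`
-/

namespace Pool.Agent.D9b

open Pool.Agent.D9 (LS cnt resp tabS nplays)

private theorem uc_resp :
    Primrec₂ (fun (T : List (List ℕ × ℕ)) (p : List ℕ) => resp (tabS T) p) := by
  have hg : Primrec₂ (fun (q : List (List ℕ × ℕ) × List ℕ) (i : ℕ) =>
      (q.1).lookup (q.2.take (i + 1))) := by
    have h1 : Primrec (fun r : (List (List ℕ × ℕ) × List ℕ) × ℕ => r.1.2.take (r.2 + 1)) :=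
      Primrec.list_take.comp (Primrec.succ.comp Primrec.snd) (Primrec.snd.comp Primrec.fst)
    have h2 : Primrec (fun r : (List (List ℕ × ℕ) × List ℕ) × ℕ =>
        (r.1.1).lookup (r.1.2.take (r.2 + 1))) := by
      refine (Primrec.listLookup.comp h1 (Primrec.fst.comp Primrec.fst)).of_eq fun r => ?_
      congr 1
      exact lawful_beq_subsingleton _ _
    exact h2.to₂
  have hf : Primrec (fun q : List (List ℕ × ℕ) × List ℕ => List.range q.2.length) :=
    Primrec.list_range.comp (Primrec.list_length.comp Primrec.snd)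
  exact ((Primrec.listFilterMap hf hg).of_eq fun q => rfl).to₂

private theorem uc_map {α : Type*} [Primcodable α] {T : ℕ → α} (hT : Computable T) :
    Computable (fun s => (List.range s).map T) := by
  have hh : Computable₂ (fun (_ : ℕ) (x : ℕ × List α) => x.2 ++ [T x.1]) :=
    (Computable.list_concat.comp (Computable.snd.comp Computable.snd)
      (hT.comp (Computable.fst.comp Computable.snd))).to₂
  refine (Computable.nat_rec Computable.id (Computable.const []) hh).of_eq fun s => ?_
  show Nat.rec [] (fun y IH => IH ++ [T y]) s = (List.range s).map T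
  induction s with
  | zero => rfl
  | succ n ih =>
    show Nat.rec [] (fun y IH => IH ++ [T y]) n ++ [T n] = (List.range (n + 1)).map T
    rw [ih, List.range_succ, List.map_append]
    rfl

/-- a filter as a `filterMap` -/
private theorem uc_filter (p : ℕ → Prop) [DecidablePred p] (l : List ℕ) :
    l.filterMap (fun x => if p x then some x else none) = l.filter (fun x => decide (p x)) := by
  induction l with
  | nil => rfl
  | cons x l ih =>
    by_cases h : p x
    · rw [List.filter_cons_of_pos (by simpa using h), List.filterMap_cons_some (by rw [if_pos h]),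
        ih]
    · rw [List.filter_cons_of_neg (by simpa using h), List.filterMap_cons_none (by rw [if_neg h]),
        ih]

/-- the elements `< q.1.2` of `q.2` without the first `q.1.1` elements -/
private def ucF (q : (ℕ × ℕ) × List ℕ) : List ℕ :=
  (q.2.drop q.1.2).filter (fun x => decide (x < q.1.1))

private theorem ucF_prim : Primrec ucF := by
  have hf : Primrec (fun q : (ℕ × ℕ) × List ℕ => q.2.drop q.1.2) :=
    Primrec.list_drop.comp (Primrec.snd.comp Primrec.fst) Primrec.snd
  have hg : Primrec₂ (fun (q : (ℕ × ℕ) × List ℕ) (x : ℕ) => if x < q.1.1 then some x else none) := by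
    have hc : PrimrecPred (fun r : ((ℕ × ℕ) × List ℕ) × ℕ => r.2 < r.1.1.1) :=
      Primrec.nat_lt.comp Primrec.snd (Primrec.fst.comp (Primrec.fst.comp Primrec.fst))
    exact (Primrec.ite hc (Primrec.option_some.comp Primrec.snd) (Primrec.const none)).to₂
  exact (Primrec.listFilterMap hf hg).of_eq fun q => uc_filter (fun x => x < q.1.1) _

/-- The marks as a function of a list of tables with the data of the feed. -/
private def ucT (q : List (List (List ℕ × ℕ) × (ℕ × ℕ)) × List ℕ) : List ℕ :=
  q.1.flatMap (fun e => resp (tabS e.1) (ucF (e.2, q.2)))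

private theorem ucT_prim : Primrec ucT := by
  have h1 : Primrec₂ (fun (q : List (List (List ℕ × ℕ) × (ℕ × ℕ)) × List ℕ)
      (e : List (List ℕ × ℕ) × (ℕ × ℕ)) => ucF (e.2, q.2)) :=
    (ucF_prim.comp ((Primrec.snd.comp Primrec.snd).pair (Primrec.snd.comp Primrec.fst))).to₂
  have h2 : Primrec₂ (fun (q : List (List (List ℕ × ℕ) × (ℕ × ℕ)) × List ℕ)
      (e : List (List ℕ × ℕ) × (ℕ × ℕ)) => e.1) := (Primrec.fst.comp Primrec.snd).to₂
  exact Primrec.list_flatMap Primrec.fst (uc_resp.comp₂ h2 h1)

private theorem uc_mList : Primrec₂ mList := by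
  have hf : Primrec (fun q : ℕ × ℕ => List.range q.2) := Primrec.list_range.comp Primrec.snd
  have hg : Primrec₂ (fun (q : ℕ × ℕ) (y : ℕ) =>
      if (y < q.1 ∧ q.1 ≤ 2 * y ∧ y % 4 = 2) ∨ (q.1 ≤ y ∧ y % 4 = 0) then some y else none) := by
    have hS : Primrec (fun r : (ℕ × ℕ) × ℕ => r.1.1) := Primrec.fst.comp Primrec.fst
    have hy : Primrec (fun r : (ℕ × ℕ) × ℕ => r.2) := Primrec.snd
    have h2y : Primrec (fun r : (ℕ × ℕ) × ℕ => 2 * r.2) :=
      Primrec.nat_mul.comp (Primrec.const 2) hy
    have hm : Primrec (fun r : (ℕ × ℕ) × ℕ => r.2 % 4) :=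
      Primrec.nat_mod.comp hy (Primrec.const 4)
    have c1 : PrimrecPred (fun r : (ℕ × ℕ) × ℕ => r.2 < r.1.1) := Primrec.nat_lt.comp hy hS
    have c2 : PrimrecPred (fun r : (ℕ × ℕ) × ℕ => r.1.1 ≤ 2 * r.2) := Primrec.nat_le.comp hS h2y
    have c3 : PrimrecPred (fun r : (ℕ × ℕ) × ℕ => r.2 % 4 = 2) :=
      Primrec.eq.comp hm (Primrec.const 2)
    have c4 : PrimrecPred (fun r : (ℕ × ℕ) × ℕ => r.1.1 ≤ r.2) := Primrec.nat_le.comp hS hy
    have c5 : PrimrecPred (fun r : (ℕ × ℕ) × ℕ => r.2 % 4 = 0) :=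
      Primrec.eq.comp hm (Primrec.const 0)
    have hc : PrimrecPred (fun r : (ℕ × ℕ) × ℕ =>
        (r.2 < r.1.1 ∧ r.1.1 ≤ 2 * r.2 ∧ r.2 % 4 = 2) ∨ (r.1.1 ≤ r.2 ∧ r.2 % 4 = 0)) :=
      (c1.and (c2.and c3)).or (c4.and c5)
    exact (Primrec.ite hc (Primrec.option_some.comp Primrec.snd) (Primrec.const none)).to₂
  exact ((Primrec.listFilterMap hf hg).of_eq fun q => uc_filter
    (fun y => (y < q.1 ∧ q.1 ≤ 2 * y ∧ y % 4 = 2) ∨ (q.1 ≤ y ∧ y % 4 = 0)) _).to₂

/-- Computability of the marks and of the lists `mList`. -/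
theorem tUC : S_UC := by
  intro Sz hSz
  refine ⟨fun T a hT ha => ?_, ?_⟩
  · have h1 : Computable (fun L => (T L, (Sz (L + 1), (a L).length))) :=
      hT.pair ((hSz.comp Computable.succ).pair (Computable.list_length.comp ha))
    refine (ucT_prim.to_comp.comp ((uc_map h1).pair ha)).of_eq fun t => ?_
    unfold ucT allM
    rw [List.flatMap_map]
    rfl
  · exact uc_mList.to_comp.comp hSz (hSz.comp Computable.succ)

end Pool.Agent.D9b
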