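import Pool.Agent.Lib.MP_d9c039_lc.V2.Spec

set_option autoImplicit false

/-!
# MP_d9c039_lc, second machine, module UM1: the marks of the union of the boards
-/

namespace Pool.Agent.D9b

open Pool.Agent.D9 (LS cnt resp tabS nplays tower)

private theorem um1_resp_append (σ : List ℕ → Option ℕ) (q : List ℕ) (x : ℕ) :
    resp σ (q ++ [x]) = resp σ q ++ (σ (q ++ [x])).toList := by
  unfold resp
  rw [List.length_append, List.length_singleton, List.range_succ, List.filterMap_append]
  congr 1
  · apply List.filterMap_congr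
    intro i hi
    rw [List.mem_range] at hi
    rw [List.take_append_of_le_length (by omega)]
  · have h : (q ++ [x]).take (q.length + 1) = q ++ [x] := by
      apply List.take_of_length_le
      simp
    cases hσ : σ (q ++ [x]) with
    | none => simp [List.filterMap, h, hσ]
    | some y => simp [List.filterMap, h, hσ]

private theorem um1_resp_le (σ : List ℕ → Option ℕ) {p q : List ℕ} (h : p <+: q) :
    resp σ p <+: resp σ q := by
  obtain ⟨r, rfl⟩ := h
  induction r using List.reverseRecOn with
  | nil => rw [List.append_nil]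
  | append_singleton r x ih =>
    rw [← List.append_assoc, um1_resp_append]
    exact ih.trans (List.prefix_append _ _)

private theorem um1_resp_good {S : ℕ} {M : List ℕ} {C : List (ℕ × ℕ)}
    {σ : List ℕ → Option ℕ} (hG : LGood S M C σ) (q : List ℕ)
    (hn : q.Nodup) (hq : ∀ x ∈ q, x < S) :
    (resp σ q).Nodup ∧ ∀ y ∈ resp σ q, y ∈ M := by
  induction q using List.reverseRecOn with
  | nil => simp [resp]
  | append_singleton q x ih =>
    have hn' : q.Nodup := (List.nodup_append.1 hn).1
    have hq' : ∀ z ∈ q, z < S := fun z hz => hq z (List.mem_append_left _ hz)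
    obtain ⟨h1, h2⟩ := ih hn' hq'
    rw [um1_resp_append]
    cases hσ : σ (q ++ [x]) with
    | none => simpa using ⟨h1, h2⟩
    | some y =>
      obtain ⟨h3, h5⟩ := (hG (q ++ [x]) hn hq).1 y hσ (by simp)
      have h6 : (q ++ [x]).take ((q ++ [x]).length - 1) = q := by simp
      rw [h6] at h5
      refine ⟨?_, fun z hz => ?_⟩
      · rw [Option.toList_some, List.nodup_append]
        refine ⟨h1, by simp, ?_⟩
        intro a ha b hb
        rw [List.mem_singleton] at hb
        rw [hb]
        rintro rfl
        exact h5 ha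
      · rw [List.mem_append, Option.toList_some, List.mem_singleton] at hz
        rcases hz with hz | rfl
        · exact h2 z hz
        · exact h3

private theorem um1_mem_mList {S S' y : ℕ} :
    y ∈ mList S S' ↔ y < S' ∧ ((y < S ∧ S ≤ 2 * y ∧ y % 4 = 2) ∨ (S ≤ y ∧ y % 4 = 0)) := by
  unfold mList
  rw [List.mem_filter, List.mem_range, decide_eq_true_eq]

/-- the marks of the union of the boards -/
theorem tUM1 : S_UM1 := by
  intro Sz C σ a hF
  have hmono : Monotone Sz := monotone_nat_of_le_succ fun L => by
    have := hF.sz2 L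
    omega
  have hpre : ∀ s, a s <+: a (s + 1) := by
    intro s
    rcases hF.step s with h | ⟨x, h⟩
    · rw [h]
    · rw [h]
      exact List.prefix_append _ _
  have hfeed : ∀ L s, (feed a (Sz (L + 1)) L s).Nodup ∧
      ∀ x ∈ feed a (Sz (L + 1)) L s, x < Sz (L + 1) := by
    intro L s
    unfold feed
    refine ⟨((hF.nd s).sublist (List.drop_sublist _ _)).filter _, fun x hx => ?_⟩
    rw [List.mem_filter] at hx
    exact of_decide_eq_true hx.2
  have hresp : ∀ L s, (resp (σ L) (feed a (Sz (L + 1)) L s)).Nodup ∧
      ∀ y ∈ resp (σ L) (feed a (Sz (L + 1)) L s), y ∈ mList (Sz L) (Sz (L + 1)) := fun L s =>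
    um1_resp_good (hF.good L) _ (hfeed L s).1 (hfeed L s).2
  refine ⟨fun s => ?_, fun s x hx => ?_, fun s x hx => ?_⟩
  · unfold allM
    rw [List.nodup_flatMap]
    refine ⟨fun L _ => (hresp L s).1, ?_⟩
    have hdis : ∀ L L', L < L' →
        List.Disjoint (resp (σ L) (feed a (Sz (L + 1)) L s))
          (resp (σ L') (feed a (Sz (L' + 1)) L' s)) := by
      intro L L' h y hy hy'
      have h1 := um1_mem_mList.1 ((hresp L s).2 y hy)
      have h2 := um1_mem_mList.1 ((hresp L' s).2 y hy')
      have h3 : Sz (L + 1) ≤ Sz L' := hmono h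
      have h4 := hF.sz2 L
      omega
    exact List.Pairwise.imp (fun h => hdis _ _ h) (List.pairwise_lt_range (n := s))
  · unfold allM at hx ⊢
    rw [List.mem_flatMap] at hx ⊢
    obtain ⟨L, hL, hx⟩ := hx
    rw [List.mem_range] at hL
    refine ⟨L, List.mem_range.2 (by omega), ?_⟩
    have hf : feed a (Sz (L + 1)) L s <+: feed a (Sz (L + 1)) L (s + 1) := by
      unfold feed
      exact (List.IsPrefix.drop (hpre s) _).filter _
    exact (um1_resp_le (σ L) hf).subset hx
  · unfold allM at hx
    rw [List.mem_flatMap] at hx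
    obtain ⟨L, -, hx⟩ := hx
    have h1 := um1_mem_mList.1 ((hresp L s).2 x hx)
    rw [Nat.even_iff]
    omega

end Pool.Agent.D9b
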