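import Pool.Agent.Lib.MP_d9c039_lc.V2.Spec

set_option autoImplicit false

/-!
# MP_d9c039_lc, second machine: union of the boards, the A-run
-/

namespace Pool.Agent.D9b

open Pool.Agent.D9 (LS cnt resp tabS nplays)

private theorem um2_resp_append (σ : List ℕ → Option ℕ) (q : List ℕ) (x : ℕ) :
    resp σ (q ++ [x]) = resp σ q ++ (σ (q ++ [x])).toList := by
  unfold resp
  rw [List.length_append, List.length_singleton, List.range_succ, List.filterMap_append]
  congr 1
  · apply List.filterMap_congr
    intro i hi
    rw [List.mem_range] at hi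
    rw [List.take_append_of_le_length (by omega)]
  · have h : (q ++ [x]).take (q.length + 1) = q ++ [x] := by
      apply List.take_of_length_le
      simp
    cases hσ : σ (q ++ [x]) with
    | none => simp [List.filterMap, h, hσ]
    | some y => simp [List.filterMap, h, hσ]

private theorem um2_resp_le (σ : List ℕ → Option ℕ) {p q : List ℕ} (h : p <+: q) :
    resp σ p <+: resp σ q := by
  obtain ⟨r, rfl⟩ := h
  induction r using List.reverseRecOn with
  | nil => rw [List.append_nil]
  | append_singleton r x ih =>
    rw [← List.append_assoc, um2_resp_append]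
    exact ih.trans (List.prefix_append _ _)

private theorem um2_feed_le (a : ℕ → List ℕ) (S L s s' : ℕ) (h : a s <+: a s') :
    feed a S L s <+: feed a S L s' := by
  unfold feed
  exact (h.drop _).filter _

private theorem um2_feed_nil (a : ℕ → List ℕ) (S L t : ℕ) (h : a t <+: a L) :
    feed a S L t = [] := by
  unfold feed
  rw [List.drop_of_length_le h.length_le, List.filter_nil]

private theorem um2_cnt_allM (Sz : ℕ → ℕ) (σ : ℕ → List ℕ → Option ℕ) (a : ℕ → List ℕ)
    (t n u : ℕ) :
    cnt ((List.range u).flatMap (fun L => resp (σ L) (feed a (Sz (L + 1)) L t))) n =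
      ∑ L ∈ Finset.range u, cnt (resp (σ L) (feed a (Sz (L + 1)) L t)) n := by
  induction u with
  | zero => simp [cnt]
  | succ u ih =>
    rw [Finset.sum_range_succ, ← ih]
    unfold cnt
    rw [List.range_succ, List.flatMap_append, List.countP_append]
    simp

private theorem um2_cnt_filter (S n : ℕ) (h : n ≤ S) (r : List ℕ) :
    cnt (r.filter (fun x => decide (x < S))) n = cnt r n := by
  unfold cnt
  rw [List.countP_filter]
  refine List.countP_congr fun x _ => ?_
  simp only [Bool.and_eq_true, decide_eq_true_eq]
  constructor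
  · exact fun h => h.1
  · exact fun h1 => ⟨h1, by omega⟩

theorem tUM2 : S_UM2 := by
  intro Sz C σ a hF L e he h1 h2 s s' hs hss heq
  have hpre1 : ∀ t, a t <+: a (t + 1) := by
    intro t
    rcases hF.step t with h | ⟨x, h⟩
    · rw [h]
    · rw [h]
      exact List.prefix_append _ _
  have hpre : ∀ t t', t ≤ t' → a t <+: a t' := by
    intro t t' h
    induction t', h using Nat.le_induction with
    | base => exact List.prefix_rfl
    | succ t' _ ih => exact ih.trans (hpre1 t')
  have hLs : L < s := by
    have := hF.sz0 L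
    omega
  -- the sums
  have hsum : ∀ t, t ≤ s' → cnt (allM Sz σ a t) e.1 =
      ∑ m ∈ Finset.range s', cnt (resp (σ m) (feed a (Sz (m + 1)) m t)) e.1 := by
    intro t ht
    unfold allM
    rw [um2_cnt_allM]
    refine Finset.sum_subset (Finset.range_mono ht) fun m _ hm => ?_
    rw [Finset.mem_range, not_lt] at hm
    rw [um2_feed_nil a _ m t (hpre t m hm)]
    simp [resp, cnt]
  rw [hsum s hss, hsum s' le_rfl] at heq
  have hmono : ∀ m ∈ Finset.range s', cnt (resp (σ m) (feed a (Sz (m + 1)) m s)) e.1 ≤
      cnt (resp (σ m) (feed a (Sz (m + 1)) m s')) e.1 := fun m _ =>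
    (um2_resp_le (σ m) (um2_feed_le a _ m s s' (hpre s s' hss))).sublist.countP_le
  have heqL := (Finset.sum_eq_sum_iff_of_le hmono).1 heq L (Finset.mem_range.2 (by omega))
  -- the board `L`
  have hnd : (feed a (Sz (L + 1)) L s').Nodup :=
    ((hF.nd s').sublist (List.drop_sublist _ _)).filter _
  have hlt : ∀ x ∈ feed a (Sz (L + 1)) L s', x < Sz (L + 1) := by
    intro x hx
    unfold feed at hx
    rw [List.mem_filter] at hx
    exact of_decide_eq_true hx.2
  have hpr := um2_feed_le a (Sz (L + 1)) L s s' (hpre s s' hss)
  have hg := ((hF.good L _ hnd hlt).2 _ hpr.length_le).1 e he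
  have htake : (feed a (Sz (L + 1)) L s').take (feed a (Sz (L + 1)) L s).length =
      feed a (Sz (L + 1)) L s := by
    obtain ⟨r, hr⟩ := hpr
    rw [← hr]
    simp
  rw [htake] at hg
  have hg2 := hg heqL
  -- the new events
  obtain ⟨r, hr⟩ := hpre s s' hss
  have hlen : (a L).length ≤ (a s).length := (hpre L s hLs.le).length_le
  have hfeed : feed a (Sz (L + 1)) L s' =
      feed a (Sz (L + 1)) L s ++ r.filter (fun x => decide (x < Sz (L + 1))) := by
    unfold feed
    rw [← hr, List.drop_append_of_le_length hlen, List.filter_append]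
  have hc1 : cnt (feed a (Sz (L + 1)) L s') e.1 = cnt (feed a (Sz (L + 1)) L s) e.1 +
      cnt r e.1 := by
    rw [hfeed, ← um2_cnt_filter (Sz (L + 1)) e.1 h2.le r]
    exact List.countP_append
  have hc2 : cnt (a s') e.1 = cnt (a s) e.1 + cnt r e.1 := by
    rw [← hr]
    exact List.countP_append
  omega

end Pool.Agent.D9b
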