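import Pool.Agent.Lib.MP_d9c039_lc.V2.Spec

set_option autoImplicit false

/-!
# MP_d9c039_lc, second machine, module UM3: union of the boards, D-run
-/

namespace Pool.Agent.D9b

open Pool.Agent.D9 (cnt resp)

private theorem resp_append' (σ : List ℕ → Option ℕ) (q : List ℕ) (x : ℕ) :
    resp σ (q ++ [x]) = resp σ q ++ (σ (q ++ [x])).toList := by
  unfold resp
  rw [List.length_append, List.length_singleton, List.range_succ, List.filterMap_append]
  congr 1
  · apply List.filterMap_congr
    intro i hi
    rw [List.mem_range] at hi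
    rw [List.take_append_of_le_length (by omega)]
  · have h : (q ++ [x]).take (q.length + 1) = q ++ [x] := by
      apply List.take_of_length_le
      simp
    cases hσ : σ (q ++ [x]) with
    | none => simp [List.filterMap, h, hσ]
    | some y => simp [List.filterMap, h, hσ]

private theorem resp_le' (σ : List ℕ → Option ℕ) {p q : List ℕ} (h : p <+: q) :
    resp σ p <+: resp σ q := by
  obtain ⟨r, rfl⟩ := h
  induction r using List.reverseRecOn with
  | nil => rw [List.append_nil]
  | append_singleton r x ih =>
    rw [← List.append_assoc, resp_append']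
    exact ih.trans (List.prefix_append _ _)

private theorem resp_mem' {S : ℕ} {M : List ℕ} {C : List (ℕ × ℕ)} {σ : List ℕ → Option ℕ}
    (hG : LGood S M C σ) (q : List ℕ) (hn : q.Nodup) (hq : ∀ x ∈ q, x < S) :
    ∀ y ∈ resp σ q, y ∈ M := by
  induction q using List.reverseRecOn with
  | nil => simp [resp]
  | append_singleton q x ih =>
    have hn' : q.Nodup := (List.nodup_append.1 hn).1
    have hq' : ∀ z ∈ q, z < S := fun z hz => hq z (List.mem_append_left _ hz)
    have h2 := ih hn' hq'
    rw [resp_append']
    intro z hz
    rw [List.mem_append] at hz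
    rcases hz with hz | hz
    · exact h2 z hz
    · rw [Option.mem_toList] at hz
      exact ((hG (q ++ [x]) hn hq).1 z hz (by simp)).1

private theorem cnt_flat (c : ℕ → List ℕ) (n t : ℕ) :
    cnt ((List.range t).flatMap c) n = ∑ m ∈ Finset.range t, cnt (c m) n := by
  induction t with
  | zero => simp [cnt]
  | succ t ih =>
    rw [Finset.sum_range_succ, ← ih]
    unfold cnt
    rw [List.range_succ, List.flatMap_append, List.countP_append]
    simp

private theorem cnt_zero {p : List ℕ} {n : ℕ} (h : ∀ x ∈ p, n ≤ x) : cnt p n = 0 := by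
  unfold cnt
  rw [List.countP_eq_zero]
  intro x hx
  have := h x hx
  simp only [decide_eq_true_eq]
  omega

private theorem cnt_zero' {p : List ℕ} {n : ℕ} (h : cnt p n = 0) : ∀ x ∈ p, n ≤ x := by
  unfold cnt at h
  rw [List.countP_eq_zero] at h
  intro x hx
  have := h x hx
  simp only [decide_eq_true_eq] at this
  omega

private theorem cnt_app (p q : List ℕ) (n : ℕ) : cnt (p ++ q) n = cnt p n + cnt q n := by
  unfold cnt
  rw [List.countP_append]

private theorem two_levels (Sz : ℕ → ℕ) (h2 : ∀ L, 2 * Sz L ≤ Sz (L + 1)) (n t : ℕ) :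
    ((Finset.range t).filter (fun L => Sz L < 2 * n ∧ n < Sz (L + 1))).card ≤ 2 := by
  have hm : Monotone Sz := monotone_nat_of_le_succ fun L => by have := h2 L; omega
  rcases Finset.eq_empty_or_nonempty
    ((Finset.range t).filter (fun L => Sz L < 2 * n ∧ n < Sz (L + 1))) with h0 | h0
  · rw [h0]; simp
  · obtain ⟨m, hmm, hmin⟩ := Finset.exists_min_image _ (fun L => L) h0
    rw [Finset.mem_filter] at hmm
    have hsub : (Finset.range t).filter (fun L => Sz L < 2 * n ∧ n < Sz (L + 1)) ⊆
        {m, m + 1} := by
      intro L hL
      have h3 : m ≤ L := hmin L hL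
      rw [Finset.mem_filter] at hL
      rw [Finset.mem_insert, Finset.mem_singleton]
      by_contra hc
      push Not at hc
      have h4 : m + 2 ≤ L := by omega
      have h5 := hm h4
      have h6 := h2 (m + 1)
      have h7 := hL.2.1
      have h8 := hmm.2.2
      have h9 : m + 1 + 1 = m + 2 := rfl
      rw [h9] at h6
      omega
    exact (Finset.card_le_card hsub).trans Finset.card_le_two

theorem tUM3 : S_UM3 := by
  intro Sz C σ a F n s s' hss hcnt
  have hpre1 : ∀ s, a s <+: a (s + 1) := by
    intro s
    rcases F.step s with h | ⟨x, h⟩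
    · rw [h]
    · rw [h]
      exact List.prefix_append _ _
  have hpre : ∀ s s', s ≤ s' → a s <+: a s' := by
    intro s s' h
    induction s', h using Nat.le_induction with
    | base => exact List.prefix_rfl
    | succ s' _ ih => exact ih.trans (hpre1 s')
  obtain ⟨r, hr⟩ := hpre s s' hss
  have hr0 : ∀ x ∈ r, n ≤ x := by
    apply cnt_zero'
    rw [← hr, cnt_app] at hcnt
    omega
  -- feeds
  have hnil : ∀ L t, t ≤ L → feed a (Sz (L + 1)) L t = [] := by
    intro L t h
    unfold feed
    rw [List.drop_eq_nil_of_le (hpre t L h).length_le, List.filter_nil]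
  have hfeed : ∀ L, ∃ q, feed a (Sz (L + 1)) L s' = feed a (Sz (L + 1)) L s ++ q ∧
      ∀ x ∈ q, n ≤ x ∧ x < Sz (L + 1) := by
    intro L
    rcases Nat.le_total L s with hL | hL
    · refine ⟨r.filter (fun x => decide (x < Sz (L + 1))), ?_, ?_⟩
      · unfold feed
        rw [← hr, List.drop_append_of_le_length (hpre L s hL).length_le, List.filter_append]
      · intro x hx
        rw [List.mem_filter] at hx
        exact ⟨hr0 x hx.1, of_decide_eq_true hx.2⟩
    · refine ⟨feed a (Sz (L + 1)) L s', ?_, ?_⟩
      · rw [hnil L s hL, List.nil_append]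
      · intro x hx
        unfold feed at hx
        rw [List.mem_filter] at hx
        refine ⟨?_, of_decide_eq_true hx.2⟩
        apply hr0
        have h1 : (a s).length ≤ (a L).length := (hpre s L hL).length_le
        have h2 : (a s').drop (a L).length = ((a s').drop (a s).length).drop
            ((a L).length - (a s).length) := by
          rw [List.drop_drop]
          congr 1
          omega
        rw [h2, ← hr, List.drop_left] at hx
        exact List.mem_of_mem_drop hx.1
  have hfn : ∀ L t, (feed a (Sz (L + 1)) L t).Nodup := by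
    intro L t
    unfold feed
    exact ((F.nd t).sublist (List.drop_sublist _ _)).filter _
  have hfl : ∀ L t, ∀ x ∈ feed a (Sz (L + 1)) L t, x < Sz (L + 1) := by
    intro L t x hx
    unfold feed at hx
    rw [List.mem_filter] at hx
    exact of_decide_eq_true hx.2
  -- one board
  have hone : ∀ L, cnt (resp (σ L) (feed a (Sz (L + 1)) L s')) n ≤
      cnt (resp (σ L) (feed a (Sz (L + 1)) L s)) n +
        (if Sz L < 2 * n ∧ n < Sz (L + 1) then 1 else 0) := by
    intro L
    obtain ⟨q, hq, hq2⟩ := hfeed L
    split_ifs with h
    · have h1 := ((F.good L (feed a (Sz (L + 1)) L s') (hfn L s') (hfl L s')).2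
        (feed a (Sz (L + 1)) L s).length (by rw [hq]; simp)).2 n h.2.le
      have h2 : (feed a (Sz (L + 1)) L s').take (feed a (Sz (L + 1)) L s).length =
          feed a (Sz (L + 1)) L s := by
        rw [hq, List.take_left]
      rw [h2] at h1
      apply h1
      rw [hq, cnt_app, cnt_zero (fun x hx => (hq2 x hx).1)]
      rfl
    · rcases Nat.lt_or_ge n (Sz (L + 1)) with h1 | h1
      · have h2 : 2 * n ≤ Sz L := by
          by_contra hc
          exact h ⟨by omega, h1⟩
        rw [cnt_zero (p := resp (σ L) (feed a (Sz (L + 1)) L s'))]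
        · exact Nat.zero_le _
        · intro y hy
          have h3 := resp_mem' (F.good L) _ (hfn L s') (hfl L s') y hy
          unfold mList at h3
          rw [List.mem_filter] at h3
          have h4 := of_decide_eq_true h3.2
          omega
      · have h2 : q = [] := by
          rw [List.eq_nil_iff_forall_not_mem]
          intro x hx
          have := hq2 x hx
          omega
        rw [hq, h2, List.append_nil]
        exact Nat.le_add_right _ _
  have hsum : ∀ t, t ≤ s' → cnt (allM Sz σ a t) n =
      ∑ L ∈ Finset.range s', cnt (resp (σ L) (feed a (Sz (L + 1)) L t)) n := by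
    intro t ht
    unfold allM
    rw [cnt_flat]
    refine Finset.sum_subset (Finset.range_mono ht) fun L _ hL => ?_
    rw [Finset.mem_range, not_lt] at hL
    rw [hnil L t hL]
    simp [resp, cnt]
  rw [hsum s' le_rfl, hsum s hss]
  calc ∑ L ∈ Finset.range s', cnt (resp (σ L) (feed a (Sz (L + 1)) L s')) n
      ≤ ∑ L ∈ Finset.range s', (cnt (resp (σ L) (feed a (Sz (L + 1)) L s)) n +
        (if Sz L < 2 * n ∧ n < Sz (L + 1) then 1 else 0)) :=
        Finset.sum_le_sum fun L _ => hone L
    _ = ∑ L ∈ Finset.range s', cnt (resp (σ L) (feed a (Sz (L + 1)) L s)) n +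
        ((Finset.range s').filter (fun L => Sz L < 2 * n ∧ n < Sz (L + 1))).card := by
        rw [Finset.sum_add_distrib, Finset.card_filter]
    _ ≤ _ := Nat.add_le_add_left (two_levels Sz F.sz2 n s') _

end Pool.Agent.D9b
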