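import Pool.Agent.Lib.MP_d9c039_lc.V2.Spec

set_option autoImplicit false

/-!
# MP_d9c039_lc, second machine: the module ARun
-/

namespace Pool.Agent.D9b

open Pool.Agent.D9 (LS)

private theorem exists_min (al : List (ℕ × ℕ)) (j : ℕ) (h : ∃ e ∈ al, e.1 < j ∧ j ≤ e.2) :
    ∃ e0 ∈ al, e0.1 < j ∧ j ≤ e0.2 ∧ ∀ e ∈ al, e.1 < j → j ≤ e.2 → e0.1 ≤ e.1 := by
  classical
  obtain ⟨e, he, h1⟩ := h
  have hex : ∃ c, ∃ e ∈ al, e.1 = c ∧ e.1 < j ∧ j ≤ e.2 := ⟨e.1, e, he, rfl, h1.1, h1.2⟩
  obtain ⟨e0, he0, h2, h3, h4⟩ := Nat.find_spec hex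
  refine ⟨e0, he0, h3, h4, fun e' he' h5 h6 => ?_⟩
  rw [h2]
  exact Nat.find_min' hex ⟨e', he', rfl, h5, h6⟩

private theorem count_split (al : List (ℕ × ℕ)) (lo j c : ℕ)
    (hc : ∀ e ∈ al, e.1 < j → j ≤ e.2 → c ≤ e.1) :
    al.countP (fun e => decide (lo ≤ e.1 ∧ e.1 < j ∧ j ≤ e.2)) ≤
      al.countP (fun e => decide (e.1 = c)) +
        al.countP (fun e => decide (c < e.1 ∧ e.1 < j ∧ j ≤ e.2)) := by
  induction al with
  | nil => simp
  | cons e al ih =>
    have ih' := ih (fun e' he' => hc e' (List.mem_cons_of_mem _ he'))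
    have h0 := hc e List.mem_cons_self
    simp only [List.countP_cons, decide_eq_true_eq]
    split_ifs <;> omega

private theorem step (P : Par) (G : GS) (h : GInv P G) (n l : ℕ) (hl : l < P.d)
    (ha : P.act l (n / P.s (l + 1))) :
    (pendL (n / P.s (l + 1) * P.s (l + 1)) (n / P.s l * P.s l) G.hist).length ≤
      P.k l + 8 * P.g l := by
  have hjp : n / P.s l / 2 ^ (P.a l) = n / P.s (l + 1) := (P.div_succ l hl n).symm
  generalize n / P.s (l + 1) = p at ha hjp ⊢
  generalize n / P.s l = j at hjp ⊢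
  have hmem := (P.mem_parent l j p).1 hjp
  have e1 : p * P.s (l + 1) = (p * 2 ^ (P.a l)) * P.s l := by
    rw [P.hs l hl]
    ring
  rw [e1, ← h.link l hl p ha (p * 2 ^ (P.a l)) j le_rfl hmem.1 hmem.2.le]
  by_cases hex : ∃ e ∈ (G.st l p).al, e.1 < j ∧ j ≤ e.2
  · obtain ⟨e0, he0, h1, h2, h3⟩ := exists_min _ _ hex
    have h4 := count_split _ (p * 2 ^ (P.a l)) j e0.1 h3
    have hcln := h.cln l hl
    have h5 : (G.st l p).pend' e0.1 j < 8 * P.g l := by
      by_contra hcon
      exact hcln.2 p j ⟨ha, e0, he0, h1, h2, not_lt.1 hcon⟩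
    have hinv := (h.pot l hl p ha).1
    obtain ⟨h6, h6', h6''⟩ := hinv e0 he0
    have h7 : e0.1 / 2 ^ (P.a l) = p := (P.mem_parent l e0.1 p).2 ⟨h6, by omega⟩
    have h8 := h.link l hl p ha e0.1 (e0.1 + 1) h6 (Nat.le_succ _) (by omega)
    have h10 : (pendL (e0.1 * P.s l) ((e0.1 + 1) * P.s l) G.hist).length < P.k l := by
      by_contra hcon
      exact hcln.1 e0.1 ⟨by rw [h7]; exact ha, not_lt.1 hcon⟩
    have h11 : (G.st l p).al.countP (fun e => decide (e.1 = e0.1)) =
        (G.st l p).al.countP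
          (fun e => decide (e0.1 ≤ e.1 ∧ e.1 < e0.1 + 1 ∧ e0.1 + 1 ≤ e.2)) := by
      refine List.countP_congr fun e he => ?_
      have h12 := (hinv e he).2.1
      simp only [decide_eq_true_eq]
      omega
    unfold LS.pend' at h5
    omega
  · have h4 : (G.st l p).al.countP
        (fun e => decide (p * 2 ^ (P.a l) ≤ e.1 ∧ e.1 < j ∧ j ≤ e.2)) = 0 := by
      rw [List.countP_eq_zero]
      intro e he h5
      rw [decide_eq_true_eq] at h5
      exact hex ⟨e, he, h5.2⟩
    omega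

theorem tARun : S_ARun := by
  intro P G h n hn m hm hact
  have key : ∀ t, m ≤ t → t ≤ P.d →
      (pendL (n / P.s t * P.s t) n G.hist).length ≤
        n % P.s m + ∑ l ∈ Finset.Ico m t, (P.k l + 8 * P.g l) := by
    intro t ht
    induction t, ht using Nat.le_induction with
    | base =>
      intro _
      have h1 := pendL_length_le (n / P.s m * P.s m) n G.hist h.nodup
      have h2 := Nat.div_add_mod n (P.s m)
      rw [mul_comm] at h2
      rw [Finset.Ico_self, Finset.sum_empty]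
      omega
    | succ t ht ih =>
      intro ht'
      have h1 := ih (by omega)
      have h2 := step P G h n t (by omega) (hact t ht (by omega))
      have h3 : n / P.s (t + 1) * P.s (t + 1) ≤ n / P.s t * P.s t := by
        rw [P.div_succ t (by omega), P.hs t (by omega)]
        have h4 := Nat.div_mul_le_self (n / P.s t) (2 ^ (P.a t))
        calc _ = (n / P.s t / 2 ^ (P.a t) * 2 ^ (P.a t)) * P.s t := by ring
          _ ≤ _ := Nat.mul_le_mul_right _ h4
      have h5 := pendL_split_length _ _ _ G.hist h3 (Nat.div_mul_le_self n (P.s t))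
      rw [Finset.sum_Ico_succ_top ht]
      omega
  have h1 := key P.d hm le_rfl
  rwa [Nat.div_eq_of_lt hn, zero_mul] at h1

end Pool.Agent.D9b
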