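import Pool.Agent.Lib.MP_d9c039_lc.V2.Spec

set_option autoImplicit false

/-!
# MP_d9c039_lc, second machine: the link after an A-event
-/

namespace Pool.Agent.D9b

open Pool.Agent.D9 (LS cnt resp tabS nplays tower)

/-- `x` lies in the interval of the children `i, ..., j - 1` iff its child does. -/
private theorem mem_iff (P : Par) (l x i j : ℕ) :
    (i * P.s l ≤ x ∧ x < j * P.s l) ↔ (i ≤ x / P.s l ∧ x / P.s l < j) := by
  have h0 := P.hs0 l
  rw [Nat.le_div_iff_mul_le h0, Nat.div_lt_iff_lt_mul h0]

theorem tAddLink : S_AddLink := by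
  intro P G x hG _ _ l hl p hp i j hi hij hj
  have h1 := hG.link l hl p hp i j hi hij hj
  have hm := mem_iff P l x i j
  rw [addA_hist, pendL_A, addA_st]
  by_cases hx : x / P.s (l + 1) = p
  · rw [if_pos hx]
    change ((x / P.s l, (p + 1) * 2 ^ (P.a l)) :: (G.st l p).al).countP _ = _
    rw [List.countP_cons, h1]
    by_cases h2 : i * P.s l ≤ x ∧ x < j * P.s l
    · have h3 := hm.1 h2
      rw [if_pos h2, List.length_cons, if_pos (by
        simp only [decide_eq_true_eq]
        exact ⟨h3.1, h3.2, hj⟩)]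
    · rw [if_neg h2, if_neg (by
        simp only [decide_eq_true_eq]
        intro h3
        exact h2 (hm.2 ⟨h3.1, h3.2.1⟩)), add_zero]
  · rw [if_neg hx, h1, if_neg]
    intro h2
    have h3 := hm.1 h2
    refine hx ?_
    rw [P.div_succ l hl, P.mem_parent]
    exact ⟨hi.trans h3.1, h3.2.trans_le hj⟩

end Pool.Agent.D9b
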