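import Pool.Agent.Lib.MP_d9c039_lc.V2.Spec

set_option autoImplicit false

/-!
# MP_d9c039_lc, second machine: the invariant after an A-event
-/

namespace Pool.Agent.D9b

open Pool.Agent.D9 (LS)

private theorem ar_inChild (S : LS) (hi i c : ℕ) :
    (S.add hi i).inChild c = S.inChild c + if i = c then 1 else 0 := by
  unfold LS.inChild LS.add
  rw [List.countP_cons]
  simp

private theorem ar_pend' (S : LS) (hi i i1 j : ℕ) :
    (S.add hi i).pend' i1 j = S.pend' i1 j + if i1 < i ∧ i < j ∧ j ≤ hi then 1 else 0 := by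
  unfold LS.pend' LS.add
  rw [List.countP_cons]
  simp

/-- a violation after `add` which was not there before is at a boundary `> i` -/
private theorem ar_viol {K : ℕ} {S : LS} {hi i j : ℕ} (hv : (S.add hi i).Viol K j) :
    i < j ∨ S.Viol K j := by
  by_cases hij : i < j
  · exact Or.inl hij
  · right
    obtain ⟨e, he, h1, h2, h3⟩ := hv
    simp only [LS.add, List.mem_cons] at he
    rcases he with rfl | he
    · exact absurd h1 hij
    · refine ⟨e, he, h1, h2, ?_⟩
      rw [ar_pend', if_neg (by omega)] at h3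
      exact h3

private theorem ar_k (S : LS) (hi i c : ℕ) : (S.add hi i).k c = S.k c := rfl

private theorem ar_f (S : LS) (hi i c : ℕ) : (S.add hi i).f c = S.f c := rfl

theorem tAddRest (h1 : Pool.Agent.D9.PotAdd) (h2 : S_AddLink) : S_AddRest := by
  intro P G x hG hx hn
  have hlohi : ∀ l < P.d, ∀ p, x / P.s (l + 1) = p →
      p * 2 ^ (P.a l) ≤ x / P.s l ∧ x / P.s l < (p + 1) * 2 ^ (P.a l) := by
    intro l hl p hp
    exact (P.mem_parent l (x / P.s l) p).1 (by rw [← P.div_succ l hl]; exact hp)
  refine ⟨?_, ?_, ?_, ?_, ?_, ?_, ?_, ?_, ?_, ?_, ?_, ?_, ?_, hx⟩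
  · rw [addA_pl]
    exact List.nodup_cons.2 ⟨hn, hG.nodup⟩
  · rw [addA_pl]
    intro z hz
    rcases List.mem_cons.1 hz with rfl | hz
    · exact hx
    · exact hG.lt z hz
  · intro l hl p hact
    rw [addA_st]
    split_ifs with h
    · exact h1 _ _ _ _ _ _ (hlohi l hl p h).1 (hlohi l hl p h).2 (hG.pot l hl p hact)
    · exact hG.pot l hl p hact
  · intro l hl p hact i j hi hij hj
    exact h2 P G x hG hx hn l hl p hact i j hi hij hj
  · intro l hl c hact
    have h0 := hG.kle l hl c hact
    rw [addA_nA, addA_st]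
    have hb := P.mem_block l x c
    by_cases hc : x / P.s l = c
    · have hp : x / P.s (l + 1) = c / 2 ^ (P.a l) := by rw [P.div_succ l hl, hc]
      rw [if_pos hp, ar_k, ar_inChild, if_pos hc, if_pos (hb.1 hc)]
      omega
    · split_ifs
      · rw [ar_k, ar_inChild, if_neg hc]
        omega
      · rw [ar_k, ar_inChild, if_neg hc]
        omega
      · omega
      · omega
  · intro l hl c hact
    have h0 := hG.fcount l hl c hact
    rw [addA_nD, addA_st]
    split_ifs
    · rw [ar_f]
      exact h0
    · exact h0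
  · intro l hl c hact t ht1 ht2 ht3
    have h0 := hG.pack l hl c hact t ht1 ht2 ht3
    rw [addA_nD, addA_nA, addA_hist, pendL_A]
    split_ifs
    · rw [List.length_cons]
      omega
    · omega
  · intro e he
    exact hG.mkp e he
  · exact hG.mk_nodup
  · rw [addA_ms, addA_hist, List.filter_cons_of_neg (by simp)]
    exact hG.mk_hist
  · intro l hl c hact
    have h0 : (pendL (c * P.s l) ((c + 1) * P.s l) G.hist).length < P.k l := by
      by_contra hcon
      exact (hG.cln l hl).1 c ⟨hact, not_lt.1 hcon⟩
    rw [addA_hist, pendL_A]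
    split_ifs
    · rw [List.length_cons]
      omega
    · omega
  · intro l hl c hsv
    by_contra hc
    refine (hG.cln l hl).1 c ⟨hsv.1, ?_⟩
    have h3 := hsv.2
    rw [addA_hist, pendL_A, if_neg] at h3
    · exact h3
    · intro h4
      exact hc ((P.mem_block l x c).2 h4).symm
  · intro l hl p j huv
    obtain ⟨hact, hv⟩ := huv
    rw [addA_st] at hv
    by_cases hp : x / P.s (l + 1) = p
    · rw [if_pos hp] at hv
      refine ⟨hp.symm, ?_, ?_⟩
      · rcases ar_viol hv with h | h
        · exact h
        · exact absurd ⟨hact, h⟩ ((hG.cln l hl).2 p j)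
      · obtain ⟨e, he, -, h4, -⟩ := hv
        simp only [LS.add, List.mem_cons] at he
        rcases he with rfl | he
        · exact h4
        · exact h4.trans ((hG.pot l hl p hact).1 e he).2.2
    · rw [if_neg hp] at hv
      exact absurd ⟨hact, hv⟩ ((hG.cln l hl).2 p j)

end Pool.Agent.D9b
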