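import Pool.Agent.Lib.MP_d9c039_lc.V2.Spec

set_option autoImplicit false

/-!
# MP_d9c039_lc, second machine: assembly
-/

namespace Pool.Agent.D9b

open Pool.Agent.D9 (LS cnt resp tabS nplays tower)

private lemma wt_empty (g h c : ℕ) : LS.empty.wt g h c = 1 := by
  simp [LS.wt, LS.u, LS.empty]

private lemma inv_empty (g h lo hi : ℕ) (hl : lo ≤ hi) : LS.empty.Inv g h lo hi := by
  refine ⟨by simp [LS.empty], [], by simp [LS.empty], by simp, ?_⟩
  simp only [wt_empty, List.map_nil, List.sum_nil, zero_div, sub_zero, Finset.sum_const,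
    Nat.card_Ico, nsmul_eq_mul, mul_one]
  rw [Nat.cast_sub hl]

private lemma ginv_init (P : Par) : GInv P GS.init where
  nodup := by simp [GS.init, GS.pl]
  lt := by simp [GS.init, GS.pl]
  pot := by
    intro l _ p _
    exact inv_empty _ _ _ _ (Nat.mul_le_mul_right _ (Nat.le_succ p))
  link := by
    intro l _ p _ i j _ _ _
    simp [GS.init, LS.empty]
  cln := by
    intro l _
    refine ⟨?_, ?_⟩
    · rintro c ⟨_, h⟩
      have := (P.hk l).1
      simp [GS.init] at h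
      omega
    · rintro p j ⟨_, e, he, _⟩
      simp [GS.init, LS.empty] at he
  kle := by
    intro l _ c _
    simp [GS.init, LS.inChild, LS.empty]
  fcount := by
    intro l _ c _
    simp [GS.init, LS.empty, GS.nD]
  pack := by
    intro l _ c _ t _ _ _
    simp [GS.init, GS.nD]
  mkp := by simp [GS.init]
  mk_nodup := by simp [GS.init, GS.ms]
  mk_hist := by simp [GS.init, GS.ms]

theorem tRI (h1 : S_AddRest) (h2 : S_MkPot) (h3 : S_MkLink) (h4 : S_MkKle) (h5 : S_MkCln)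
    (h6 : S_MkPack) (h7 : S_MkMk) : S_RI := by
  intro P G hG
  induction hG with
  | init => exact ginv_init P
  | step G x r _ hx hn hv ih =>
    have hH := h1 P G x ih hx hn
    cases r with
    | none =>
      exact
        { nodup := hH.nodup
          lt := hH.lt
          pot := hH.pot
          link := hH.link
          cln := hv
          kle := hH.kle
          fcount := hH.fcount
          pack := hH.pack
          mkp := hH.mkp
          mk_nodup := hH.mk_nodup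
          mk_hist := hH.mk_hist }
    | some r =>
      obtain ⟨y, lam, u⟩ := r
      obtain ⟨a1, a2, a3⟩ := h7 P _ x y lam u hH hv
      exact
        { nodup := hH.nodup
          lt := hH.lt
          pot := h2 P _ x y lam u hH hv
          link := h3 P _ x y lam u hH
          cln := h5 P _ x y lam u hH hv
          kle := fun l hl c hc => (h4 P _ x y lam u hH l hl c hc).1
          fcount := fun l hl c hc => (h4 P _ x y lam u hH l hl c hc).2
          pack := h6 P _ x y lam u hH hv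
          mkp := a1
          mk_nodup := a2
          mk_hist := a3 }

theorem tCh (h1 : S_AddRest) (h2 : S_Choose) : S_Ch := fun P G x hG hx hn =>
  h2 P (G.addA P x) x (h1 P G x hG hx hn)

private lemma re_of_stages (d : ℕ → List ℕ) (hd : Computable d) :
    REPred (fun n : ℕ => ∃ s, n ∈ d s) := by
  have h1 : Computable₂ (fun (n : ℕ) (s : ℕ) => decide (n ∈ d s)) := by
    have hp : PrimrecRel (fun (L : List ℕ) (n : ℕ) => ∃ a ∈ L, a = n) :=
      PrimrecRel.exists_mem_list (R := fun a b : ℕ => a = b) Primrec.eq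
    have h2 : Computable (fun t : List ℕ × ℕ => decide (∃ a ∈ t.1, a = t.2)) :=
      (hp.decide).to_comp
    have h3 : Computable (fun t : ℕ × ℕ => decide (∃ a ∈ d t.2, a = t.1)) :=
      h2.comp (Computable.pair (hd.comp Computable.snd) Computable.fst)
    exact h3.of_eq (fun t => by simp)
  have h2 : Partrec (fun n : ℕ => Nat.rfind (fun s => Part.some (decide (n ∈ d s)))) :=
    Partrec.rfind h1.partrec₂
  refine (Partrec.dom_re h2).of_eq ?_
  intro n
  refine Iff.trans (Nat.rfind_dom (p := fun s => Part.some (decide (n ∈ d s)))) ?_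
  constructor
  · rintro ⟨s, hs, _⟩
    exact ⟨s, by simpa using hs⟩
  · rintro ⟨s, hs⟩
    exact ⟨s, by simpa using hs, fun _ => trivial⟩

private lemma cnt_le (L : List ℕ) (h : L.Nodup) (n : ℕ) : cnt L n ≤ n := by
  have h1 := countP_range_le L h 0 n
  have h2 : L.countP (fun x => decide (0 ≤ x ∧ x < n)) = cnt L n := by
    unfold cnt
    congr 1
    funext x
    simp
  omega

theorem tFam (h1 : S_Plays) (h2 : S_Search) (h3 : S_Guess) (h4 : Pool.Agent.D9.EnumB)
    (h5 : S_UM1) (h6 : S_UM2) (h7 : S_UM3) (h8 : S_UC) : S_Fam := by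
  classical
  intro Sz C hSz hC hz0 hz2 hgood A hA
  have hSz' : Computable (fun L => Sz (L + 1)) := hSz.comp (Primrec.succ.to_comp)
  obtain ⟨T, hT, hTc⟩ := h2 (fun L => Sz (L + 1)) (fun L => mList (Sz L) (Sz (L + 1))) C hSz'
    (h8 Sz hSz).2 hC (fun L => by
      obtain ⟨σ, hσ⟩ := hgood L
      exact (h1 _ _ _).1 σ hσ)
  obtain ⟨a, ha, hnd, hstep, ha0, halt, hmem⟩ := h4 A hA
  have hF : Fam Sz C (fun L => tabS (T L)) a :=
    { sz0 := hz0
      sz2 := hz2
      good := fun L => (h1 _ _ _).2 _ (hTc L)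
      nd := hnd
      step := hstep
      a0 := ha0
      alt := halt }
  obtain ⟨u1, u2, u3⟩ := h5 _ _ _ _ hF
  have u4 := h6 _ _ _ _ hF
  have u5 := h7 _ _ _ _ hF
  have hdc := (h8 Sz hSz).1 T a hT ha
  set d : ℕ → List ℕ := fun t => allM Sz (fun L => tabS (T L)) a t with hd
  have hmono : ∀ s x, x ∈ a s → x ∈ a (s + 1) := by
    intro s x hx
    rcases hstep s with h | ⟨y, h⟩
    · rw [h]; exact hx
    · rw [h]; exact List.mem_append_left _ hx
  have hex : ∀ n, ∃ B, ∀ s s', n ≤ s → s ≤ s' → cnt (d s) n = cnt (d s') n →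
      cnt (a s') n ≤ cnt (a s) n + B := by
    intro n
    refine ⟨n, fun s s' _ _ _ => ?_⟩
    have := cnt_le (a s') (hnd s') n
    omega
  refine ⟨{x | ∃ s, x ∈ d s}, re_of_stages d hdc, ?_, ⟨fun n => Nat.find (hex n), ?_, ?_, ?_⟩, ?_⟩
  · rintro n ⟨s, hs⟩
    exact u3 s n hs
  · intro n
    apply Nat.find_min'
    intro s s' _ _ _
    have := cnt_le (a s') (hnd s') n
    omega
  · intro L e he h9 h10
    apply Nat.find_min'
    exact u4 L e he h9 h10
  · obtain ⟨φ, hφ, hφ'⟩ := h3 a d A {x | ∃ s, x ∈ d s} (fun n => Nat.find (hex n)) ha hdc hnd u1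
      hmono u2 hmem (fun x => Iff.rfl)
      (fun n s s' hs hs' h => Nat.find_spec (hex n) s s' hs hs' h)
    exact ⟨φ, hφ, hφ'⟩
  · obtain ⟨φ, hφ, hφ'⟩ := h3 d a {x | ∃ s, x ∈ d s} A (fun _ => 2) hdc ha u1 hnd u2
      hmono (fun x => Iff.rfl) hmem
      (fun n s s' _ hs' h => u5 n s s' hs' h)
    exact ⟨φ, hφ, hφ'⟩

private lemma lev (h : StrictMono ss) (n L0 : ℕ) (hn : ss L0 ≤ n) :
    ∃ L, L0 ≤ L ∧ ss L ≤ n ∧ n < ss (L + 1) := by
  classical
  have hex : ∃ L, n < ss (L + 1) := by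
    refine ⟨n, ?_⟩
    exact (Nat.lt_succ_self n).trans_le (h.id_le (n + 1))
  refine ⟨Nat.find hex, ?_, ?_, Nat.find_spec hex⟩
  · by_contra hlt
    push Not at hlt
    have h1 : n < ss (Nat.find hex + 1) := Nat.find_spec hex
    have h2 : ss (Nat.find hex + 1) ≤ ss L0 := h.monotone hlt
    omega
  · rcases Nat.eq_zero_or_pos (Nat.find hex) with h0 | h0
    · rw [h0]
      exact (h.monotone (Nat.zero_le L0)).trans hn
    · have h1 := Nat.find_min hex (Nat.sub_lt h0 one_pos)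
      have h2 : Nat.find hex - 1 + 1 = Nat.find hex := by omega
      rw [h2] at h1
      omega

private lemma ss_mono (h : S_TT) : StrictMono ss := by
  intro a b hab
  exact Nat.pow_lt_pow_right (by norm_num) (h.1 hab)

theorem tFin2 (h1 : S_Board) (h2 : S_Fam) (h3 : S_TT) (h4 : S_P2) (h5 : S_CompT) (h6 : S_S2C)
    (h7 : S_Gap) : S_Fin2 := by
  have hm := ss_mono h3
  refine ⟨fun k => 2 ^ (2 * (k + 1) + 10) + ss (5 * k + 17), S2, h6, h7, ?_⟩
  intro A hA
  obtain ⟨D, hD, hDe, ⟨b, hb1, hb2, φ, hφ, hφ'⟩, ψ, hψ, hψ'⟩ := h2 ss C2 h5.1 h5.2.1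
    h3.2.2.2.2.2.1 h3.2.2.2.2.1 (fun L => by
      obtain ⟨P, hP1, hP2, hP3⟩ := h4 L
      obtain ⟨σ, hσ⟩ := h1 P (mList (ss L) (ss (L + 1))) (C2 L) hP2 hP3
      exact ⟨σ, hP1 ▸ hσ⟩) A hA
  refine ⟨D, hD, hDe, ⟨φ, hφ, ?_⟩, ψ, hψ, hψ'⟩
  rintro k n ⟨L, hkL, hn1, hn2, hn3⟩ τ hτ hτ'
  obtain ⟨j, hj, h8⟩ := hφ' n τ hτ hτ'
  refine ⟨j, hj.trans ?_, h8⟩
  show b n ≤ 2 ^ (2 * (k + 1) + 10) + ss (5 * k + 17)
  rcases Nat.lt_or_ge L (5 * k + 17) with hL | hL
  · have h9 : ss (L + 1) ≤ ss (5 * k + 17) := hm.monotone hL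
    have h10 : b n ≤ ss (5 * k + 17) := (hb1 n).trans (by omega)
    exact h10.trans (Nat.le_add_left _ _)
  · have h9 : (n, 2 ^ (2 * (k + 1) + 10)) ∈ C2 L := by
      unfold C2
      rw [List.mem_flatMap]
      refine ⟨k + 1, List.mem_range.mpr (by omega), ?_⟩
      have h10 := h3.2.1 (L - (k + 1))
      rw [if_pos (by omega), List.mem_map]
      exact ⟨n, by simpa using ⟨hn2, hn1, hn3⟩, rfl⟩
    exact (hb2 L _ h9 hn1 hn2).trans (Nat.le_add_right _ _)

theorem tFin1 (h1 : S_Board) (h2 : S_Fam) (h3 : S_TT) (h4 : S_P1) (h5 : S_CompT) (h6 : S_Rk1) :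
    S_Fin1 := by
  have hm := ss_mono h3
  refine ⟨304704 + ss 5, ?_⟩
  intro A hA
  obtain ⟨D, hD, hDe, ⟨b, hb1, hb2, φ, hφ, hφ'⟩, ψ, hψ, hψ'⟩ := h2 ss C1 h5.1 h5.2.2
    h3.2.2.2.2.2.1 h3.2.2.2.2.1 (fun L => by
      obtain ⟨P, hP1, hP2, hP3⟩ := h4 L
      obtain ⟨σ, hσ⟩ := h1 P (mList (ss L) (ss (L + 1))) (C1 L) hP2 hP3
      exact ⟨σ, hP1 ▸ hσ⟩) A hA
  refine ⟨D, hD, hDe, ⟨φ, hφ, ?_⟩, ψ, hψ, hψ'⟩
  intro k n hn τ hτ hτ'
  obtain ⟨j, hj, h8⟩ := hφ' n τ hτ hτ'
  refine ⟨j, hj.trans ?_, h8⟩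
  have hk : 1 ≤ (k + 1) ^ 2 := Nat.one_le_pow _ _ (by omega)
  rcases Nat.lt_or_ge n (ss 5) with hlt | hge
  · have h9 := hb1 n
    nlinarith
  · obtain ⟨L, hL5, hL1, hL2⟩ := lev hm n 5 hge
    have h9 : (n, rr L) ∈ C1 L := by
      unfold C1
      rw [if_pos (h6.1 L hL5), List.mem_map]
      exact ⟨n, by simpa using ⟨hL2, hL1⟩, rfl⟩
    have h10 := hb2 L _ h9 hL1 hL2
    have h11 := h6.2 L k n hL1 hn
    simp only at h10
    nlinarith

end Pool.Agent.D9b
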