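import Pool.Agent.Lib.MP_d9c039_lc.V2.Spec

set_option autoImplicit false

/-!
# MP_d9c039_lc, second machine: module Board
-/

namespace Pool.Agent.D9b

open Pool.Agent.D9 (LS cnt resp tabS nplays)

open Classical in
/-- the chosen response -/
private noncomputable def nx (P : Par) (G : GS) (x : ℕ) : Option (ℕ × ℕ × Bool) :=
  if h : ∃ r, Valid P (G.addA P x) x r then h.choose else none

/-- the run along a play given newest first -/
private noncomputable def runR (P : Par) : List ℕ → GS
  | [] => GS.init
  | x :: t => ((runR P t).addA P x).app P (nx P (runR P t) x)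

/-- the strategy -/
private noncomputable def strat (P : Par) (p : List ℕ) : Option ℕ :=
  match p.reverse with
  | [] => none
  | x :: t => (nx P (runR P t) x).map Prod.fst

private lemma nx_valid (hC : S_Ch) (P : Par) (G : GS) (x : ℕ) (hG : GInv P G) (hx : x < P.s P.d)
    (hn : x ∉ G.pl) : Valid P (G.addA P x) x (nx P G x) := by
  have h := hC P G x hG hx hn
  unfold nx
  rw [dif_pos h]
  exact h.choose_spec

private lemma pl_app (P : Par) (G : GS) (r : Option (ℕ × ℕ × Bool)) : (G.app P r).pl = G.pl := by
  cases r with
  | none => rfl
  | some r => rfl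

private lemma pl_run (P : Par) (q : List ℕ) : (runR P q).pl = q := by
  induction q with
  | nil => simp [runR, GS.pl, GS.init]
  | cons x t ih => rw [runR, pl_app, addA_pl, ih]

private lemma reach_run (hR : S_RI) (hC : S_Ch) (P : Par)
    (q : List ℕ) (hq : q.Nodup) (hlt : ∀ x ∈ q, x < P.s P.d) : Reach P (runR P q) := by
  induction q with
  | nil => exact Reach.init
  | cons x t ih =>
    have ht := ih (List.nodup_cons.1 hq).2 (fun y hy => hlt y (List.mem_cons_of_mem _ hy))
    have hx : x ∉ (runR P t).pl := by rw [pl_run]; exact (List.nodup_cons.1 hq).1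
    have hx' := hlt x List.mem_cons_self
    exact Reach.step _ x _ ht hx' hx (nx_valid hC P _ x (hR P _ ht) hx' hx)

private lemma ms_app (P : Par) (G : GS) (r : Option (ℕ × ℕ × Bool)) :
    (G.app P r).ms = (r.map Prod.fst).toList ++ G.ms := by
  cases r with
  | none => simp [GS.app]
  | some r => simp [GS.app]

private lemma hist_app (P : Par) (G : GS) (r : Option (ℕ × ℕ × Bool)) :
    (G.app P r).hist = ((r.map Prod.fst).toList).map (fun y => (true, y)) ++ G.hist := by
  cases r with
  | none => simp [GS.app]
  | some r => simp [GS.app]

private lemma resp_append (σ : List ℕ → Option ℕ) (p : List ℕ) (x : ℕ) :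
    resp σ (p ++ [x]) = resp σ p ++ (σ (p ++ [x])).toList := by
  unfold resp
  rw [List.length_append, List.length_singleton, List.range_succ, List.filterMap_append]
  congr 1
  · apply List.filterMap_congr
    intro i hi
    rw [List.mem_range] at hi
    rw [List.take_append_of_le_length (by omega)]
  · have : (p ++ [x]).take (p.length + 1) = p ++ [x] := by
      apply List.take_of_length_le; simp
    simp only [List.filterMap_cons, List.filterMap_nil, this]
    cases σ (p ++ [x]) <;> simp

private lemma strat_append (P : Par) (p : List ℕ) (x : ℕ) :
    strat P (p ++ [x]) = (nx P (runR P p.reverse) x).map Prod.fst := by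
  unfold strat
  simp [List.reverse_append]

private lemma resp_run (P : Par) (p : List ℕ) :
    resp (strat P) p = ((runR P p.reverse).ms).reverse := by
  induction p using List.reverseRecOn with
  | nil => simp [resp, runR, GS.init, GS.ms]
  | append_singleton p x ih =>
    rw [resp_append, ih, strat_append, List.reverse_append]
    simp only [List.reverse_singleton, List.singleton_append, runR]
    rw [ms_app, addA_ms, List.reverse_append]
    congr 1
    cases nx P (runR P p.reverse) x <;> simp

/-- number of A-events `< n` -/
private def aN (h : List (Bool × ℕ)) (n : ℕ) : ℕ := h.countP (fun e => !e.1 && decide (e.2 < n))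
/-- number of marks `< n` -/
private def dN (h : List (Bool × ℕ)) (n : ℕ) : ℕ := h.countP (fun e => e.1 && decide (e.2 < n))

private lemma cnt_pl (P : Par) (p : List ℕ) (n : ℕ) :
    cnt p n = aN (runR P p.reverse).hist n := by
  have h1 : cnt p n = cnt p.reverse n := by
    unfold cnt; rw [List.countP_reverse]
  have h2 : cnt p.reverse n = cnt (runR P p.reverse).pl n := by rw [pl_run]
  rw [h1, h2]
  unfold cnt aN GS.pl
  rw [List.countP_map, List.countP_filter]
  apply List.countP_congr
  intro e _
  simp only [Function.comp, Bool.and_eq_true, decide_eq_true_eq, Bool.not_eq_true']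
  exact and_comm

private lemma cnt_resp (hR : S_RI) (hC : S_Ch) (P : Par)
    (p : List ℕ) (hp : p.Nodup) (hlt : ∀ x ∈ p, x < P.s P.d) (n : ℕ) :
    cnt (resp (strat P) p) n = dN (runR P p.reverse).hist n := by
  have hI := hR P _ (reach_run hR hC P p.reverse (List.nodup_reverse.2 hp)
    (fun x hx => hlt x (List.mem_reverse.1 hx)))
  rw [resp_run]
  unfold cnt
  rw [List.countP_reverse, hI.mk_hist]
  unfold dN
  rw [List.countP_map, List.countP_filter]
  apply List.countP_congr
  intro e _
  simp only [Function.comp, Bool.and_eq_true, decide_eq_true_eq]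
  exact and_comm

private lemma hist_suffix (P : Par) (b a : List ℕ) :
    ∃ B, (runR P (b ++ a)).hist = B ++ (runR P a).hist := by
  induction b with
  | nil => exact ⟨[], by simp⟩
  | cons x t ih =>
    obtain ⟨B, hB⟩ := ih
    rw [List.cons_append, runR, hist_app]
    refine ⟨(((nx P (runR P (t ++ a)) x).map Prod.fst).toList).map (fun y => (true, y)) ++
      ((false, x) :: B), ?_⟩
    simp [hB]

private lemma pend_append (n : ℕ) (B h : List (Bool × ℕ)) (hB : dN B n = 0) :
    aN B n ≤ (pendL 0 n (B ++ h)).length := by
  induction B with
  | nil => simp [aN]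
  | cons e t ih =>
    obtain ⟨b, z⟩ := e
    unfold dN at hB
    rw [List.countP_cons] at hB
    have ht : dN t n = 0 := by unfold dN; omega
    have ih' := ih ht
    unfold aN at ih' ⊢
    rw [List.countP_cons, List.cons_append]
    cases b
    · rw [pendL_A]
      by_cases hz : z < n
      · simp only [Bool.not_false, hz, decide_true, Bool.and_self, if_true, zero_le, and_self,
          List.length_cons]
        omega
      · simp only [Bool.not_false, hz, decide_false, Bool.and_false, Bool.false_eq_true, if_false,
          and_false, add_zero]
        exact ih'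
    · rw [pendL_D]
      by_cases hz : z < n
      · simp [hz] at hB
      · simp only [Bool.not_true, Bool.false_and, Bool.false_eq_true, if_false, add_zero, hz]
        exact ih'

private lemma drn_append (n : ℕ) (B h : List (Bool × ℕ)) (hB : aN B n = 0) :
    dN B n ≤ drn n (B ++ h) := by
  induction B with
  | nil => simp [dN]
  | cons e t ih =>
    obtain ⟨b, z⟩ := e
    unfold aN at hB
    rw [List.countP_cons] at hB
    have ht : aN t n = 0 := by unfold aN; omega
    have ih' := ih ht
    unfold dN at ih' ⊢
    rw [List.countP_cons, List.cons_append]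
    cases b
    · rw [drn_A]
      by_cases hz : z < n
      · simp [hz] at hB
      · simp only [Bool.false_and, Bool.false_eq_true, if_false, add_zero, hz]
        exact ih'
    · rw [drn_D]
      by_cases hz : z < n
      · simp only [hz, decide_true, Bool.and_self, if_true]
        omega
      · simp only [hz, decide_false, Bool.and_false, Bool.false_eq_true, if_false, add_zero]
        exact ih'

theorem tBoard (h1 : S_RI) (h2 : S_Ch) (h3 : S_ARun) (h4 : S_DRun) : S_Board := by
  intro P M C hM hC
  refine ⟨strat P, ?_⟩
  intro p hp hlt
  constructor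
  · intro y hy hne
    -- split off the last element
    obtain ⟨p', x, rfl⟩ : ∃ p' x, p = p' ++ [x] := by
      rcases List.eq_nil_or_concat p with h | ⟨p', x, h⟩
      · exact absurd h hne
      · exact ⟨p', x, by simpa using h⟩
    have hp' : p'.Nodup := (List.nodup_append.1 hp).1
    have hlt' : ∀ z ∈ p', z < P.s P.d := fun z hz => hlt z (List.mem_append_left _ hz)
    have hre := reach_run h1 h2 P p'.reverse (List.nodup_reverse.2 hp')
      (fun x hx => hlt' x (List.mem_reverse.1 hx))
    have hxm : x ∉ (runR P p'.reverse).pl := by
      rw [pl_run, List.mem_reverse]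
      intro hx
      exact (List.nodup_append.1 hp).2.2 x hx x (by simp) rfl
    have hxl : x < P.s P.d := hlt x (by simp)
    have hval := nx_valid h2 P _ x (h1 P _ hre) hxl hxm
    have hre2 := Reach.step _ x _ hre hxl hxm hval
    have hI2 := h1 P _ hre2
    rw [strat_append] at hy
    rcases hr : nx P (runR P p'.reverse) x with _ | r
    · rw [hr] at hy; simp at hy
    · rw [hr] at hy hI2
      simp at hy
      have hmem : r ∈ ((runR P p'.reverse).addA P x |>.app P (some r)).mks := by
        simp [GS.app]
      have h5 := hI2.mkp r hmem
      rw [hy] at h5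
      refine ⟨?_, ?_⟩
      · apply hM r.2.1 h5.2.1 y h5.1
        cases hb : r.2.2
        · exact Or.inl (h5.2.2.2.2 hb)
        · exact Or.inr (h5.2.2.2.1 hb)
      · have htake : (p' ++ [x]).take ((p' ++ [x]).length - 1) = p' := by
          simp
        rw [htake, resp_run, List.mem_reverse]
        have h6 := hI2.mk_nodup
        rw [ms_app, addA_ms] at h6
        simp only [Option.map_some, Option.toList_some, List.singleton_append,
          List.nodup_cons] at h6
        rw [← hy]
        exact h6.1
  · intro i hi
    have hp1 : (p.take i).Nodup := hp.sublist (List.take_sublist _ _)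
    have hlt1 : ∀ x ∈ p.take i, x < P.s P.d := fun x hx => hlt x (List.mem_of_mem_take hx)
    have hrev : p.reverse = (p.drop i).reverse ++ (p.take i).reverse := by
      rw [← List.reverse_append, List.take_append_drop]
    obtain ⟨B, hB⟩ := hist_suffix P (p.drop i).reverse (p.take i).reverse
    rw [← hrev] at hB
    have hre := reach_run h1 h2 P p.reverse (List.nodup_reverse.2 hp)
      (fun x hx => hlt x (List.mem_reverse.1 hx))
    have hI := h1 P _ hre
    have ha : ∀ n, aN (runR P p.reverse).hist n =
        aN B n + aN (runR P (p.take i).reverse).hist n := by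
      intro n
      rw [hB]; unfold aN; rw [List.countP_append]
    have hd : ∀ n, dN (runR P p.reverse).hist n =
        dN B n + dN (runR P (p.take i).reverse).hist n := by
      intro n
      rw [hB]; unfold dN; rw [List.countP_append]
    constructor
    · intro e he h
      obtain ⟨he1, m, hm, hact, hsum⟩ := hC e he
      have e1 := cnt_pl P p e.1
      have e2 := cnt_pl P (p.take i) e.1
      have e3 := cnt_resp h1 h2 P p hp hlt e.1
      have e4 := cnt_resp h1 h2 P (p.take i) hp1 hlt1 e.1
      have ha1 := ha e.1
      have hd1 := hd e.1
      have hB0 : dN B e.1 = 0 := by omega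
      have h5 := pend_append e.1 B (runR P (p.take i).reverse).hist hB0
      rw [← hB] at h5
      have h6 := h3 P _ hI e.1 he1 m hm hact
      omega
    · intro n hn h
      have e1 := cnt_pl P p n
      have e2 := cnt_pl P (p.take i) n
      have e3 := cnt_resp h1 h2 P p hp hlt n
      have e4 := cnt_resp h1 h2 P (p.take i) hp1 hlt1 n
      have ha1 := ha n
      have hd1 := hd n
      have hB0 : aN B n = 0 := by omega
      have h5 := drn_append n B (runR P (p.take i).reverse).hist hB0
      rw [← hB] at h5
      have h6 := h4 P _ hre n
      omega

end Pool.Agent.D9b
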