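import Pool.Agent.Lib.MP_d9c039_lc.V2.Spec

set_option autoImplicit false

/-!
# MP_d9c039_lc, second machine: there is a legal answer
-/

namespace Pool.Agent.D9b

open Pool.Agent.D9 (LS cnt resp tabS nplays tower)

theorem tChoose (h1 : S_Free1) (h2 : S_Free2) : S_Choose := by
  classical
  intro P H x hH
  by_cases h0 : ∀ l < P.d, H.Cln P l
  · exact ⟨none, h0⟩
  push Not at h0
  have hex : ∃ l, l < P.d ∧ ¬ H.Cln P l := h0
  obtain ⟨hlam, hncl⟩ := Nat.find_spec hex
  have hmin := fun l (hl : l < Nat.find hex) => Nat.find_min hex hl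
  set lam := Nat.find hex with hlamdef
  have hcl : ∀ l < lam, H.Cln P l := by
    intro l hl
    by_contra hn
    exact hmin l hl ⟨by omega, hn⟩
  by_cases hSV : ∃ c, H.SV P lam c
  · obtain ⟨c, hc⟩ := hSV
    have hcx := hH.newS lam hlam c hc
    subst hcx
    obtain ⟨y, hy⟩ := h1 P H x hH lam hlam _ hc
    exact ⟨some (y, lam, false), hlam, hcl, hc, hy⟩
  push Not at hSV
  have hUV : ∃ p j, H.UV P lam p j := by
    by_contra hn
    push Not at hn
    exact hncl ⟨hSV, hn⟩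
  obtain ⟨p, j0, hj0⟩ := hUV
  have hpx := (hH.newU lam hlam p j0 hj0).1
  subst hpx
  set p := x / P.s (lam + 1) with hpdef
  have hex2 : ∃ j, H.UV P lam p j := ⟨j0, hj0⟩
  have hvj := Nat.find_spec hex2
  have hminj := fun j (hj : j < Nat.find hex2) => Nat.find_min hex2 hj
  set j := Nat.find hex2 with hjdef
  obtain ⟨-, hxj, hjhi⟩ := hH.newU lam hlam p j hvj
  obtain ⟨hact, e0, he0, he0j, he0j2, hpend⟩ := hvj
  have hk := P.hk lam
  have hinv := (hH.pot lam hlam p hact).1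
  obtain ⟨hlo, -, hhi⟩ := hinv e0 he0
  -- the interval is not empty
  have hne : (Finset.Ioo e0.1 j).Nonempty := by
    have h3 : 0 < (H.st lam p).pend' e0.1 j := lt_of_lt_of_le (by omega) hpend
    unfold LS.pend' at h3
    rw [List.countP_pos_iff] at h3
    obtain ⟨e, -, he⟩ := h3
    rw [decide_eq_true_eq] at he
    exact ⟨e.1, Finset.mem_Ioo.mpr ⟨he.1, he.2.1⟩⟩
  set S := H.st lam p with hS
  obtain ⟨m, hm, hmmin⟩ := Finset.exists_min_image _ (fun c => S.u (P.g lam) c) hne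
  rw [Finset.mem_Ioo] at hm
  have h3 : ∃ i, e0.1 < i ∧ i < j ∧
      S.u (P.g lam) i ≤ S.u (P.g lam) m + (P.g lam : ℤ) * ((1 : ℕ) : ℤ) :=
    ⟨m, hm.1, hm.2, by
      have : (0 : ℤ) ≤ (P.g lam : ℤ) * ((1 : ℕ) : ℤ) := by positivity
      omega⟩
  obtain ⟨hi1, hi2, hi3⟩ := Nat.find_spec h3
  have himin := fun i (hi : i < Nat.find h3) => Nat.find_min h3 hi
  set i := Nat.find h3 with hidef
  have hreq : S.Req (P.g lam) 1 (8 * P.g lam) e0.1 j i := by
    refine ⟨hi1, hi2, hpend, m, hm.1, hm.2, ?_, hi3, ?_⟩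
    · intro c hc1 hc2
      exact hmmin c (Finset.mem_Ioo.mpr ⟨hc1, hc2⟩)
    · intro c hc1 hc2
      have h4 := himin c hc2
      push Not at h4
      exact h4 hc1 (by omega)
  obtain ⟨y, hyMU, hyfree, hyi⟩ := h2 P H x hH lam hlam p hact i (by omega) (by omega)
  refine ⟨some (y, lam, true), hlam, hcl, hSV, hact, j, hxj, hjhi, ?_, hyMU, hyfree, ?_, e0, he0,
    he0j, he0j2, ?_⟩
  · intro j' hj'
    exact hminj j' hj'
  · rw [P.div_succ lam hlam, hyi, ← hpdef]
    exact (P.mem_parent lam i p).mpr ⟨by omega, by omega⟩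
  · rw [hyi]
    exact hreq

end Pool.Agent.D9b
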