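import Pool.Agent.Lib.MP_d9c039_lc.V2.Spec

set_option autoImplicit false

/-!
# MP_d9c039_lc, second machine: computability of the sizes and of the lists of cuts
-/

namespace Pool.Agent.D9b

open Primrec

private theorem ct_pow : Primrec (fun n : ℕ => 2 ^ n) :=
  (Primrec.nat_rec₁ (f := fun _ y => 2 * y) 1
    (Primrec.nat_mul.comp (Primrec.const 2) Primrec.snd).to₂).of_eq fun n => by
      induction n with
      | zero => rfl
      | succ n ih =>
        change 2 * (Nat.rec 1 (fun _ y => 2 * y) n : ℕ) = 2 ^ (n + 1)
        rw [ih, pow_succ']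

private theorem ct_tt : Primrec tt :=
  (Primrec.nat_rec₁ (f := fun _ y => y + (2 ^ (y / 2) - 1)) 2
    (Primrec.nat_add.comp Primrec.snd (Primrec.nat_sub.comp
      (ct_pow.comp (Primrec.nat_div.comp Primrec.snd (Primrec.const 2)))
      (Primrec.const 1))).to₂).of_eq fun n => by
      induction n with
      | zero => rfl
      | succ n ih =>
        change (Nat.rec 2 (fun _ y => y + (2 ^ (y / 2) - 1)) n : ℕ) +
          (2 ^ ((Nat.rec 2 (fun _ y => y + (2 ^ (y / 2) - 1)) n : ℕ) / 2) - 1) = tt (n + 1)
        rw [ih]
        rfl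

private theorem ct_ss : Primrec ss := ct_pow.comp ct_tt

private theorem ct_log : Primrec (Nat.log 2) := by
  have h : PrimrecRel (fun m i : ℕ => 2 ^ i ≤ m) :=
    Primrec.nat_le.comp (ct_pow.comp Primrec.snd) Primrec.fst
  refine (Primrec.nat_findGreatest Primrec.id h).of_eq fun m => ?_
  rw [id]
  rcases Nat.eq_zero_or_pos m with h0 | h0
  · rw [h0, Nat.log_zero_right, Nat.findGreatest_zero]
  · apply le_antisymm
    · have h1 : 2 ^ (Nat.findGreatest (fun i => 2 ^ i ≤ m) m) ≤ m :=
        Nat.findGreatest_spec (P := fun i => 2 ^ i ≤ m) (Nat.zero_le m) (by rw [pow_zero]; exact h0)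
      exact Nat.le_log_of_pow_le (by norm_num) h1
    · exact Nat.le_findGreatest (Nat.log_le_self 2 m) (Nat.pow_log_le_self 2 h0.ne')

private theorem ct_fm {α β : Type} (p : α → Bool) (f : α → β) (l : List α) :
    l.filterMap (fun x => if p x = true then some (f x) else none) = (l.filter p).map f := by
  induction l with
  | nil => rfl
  | cons a l ih =>
    by_cases h : p a = true
    · rw [List.filterMap_cons_some (b := f a) (by rw [if_pos h]), ih, List.filter_cons_of_pos h,
        List.map_cons]
    · rw [List.filterMap_cons_none (by rw [if_neg h]), ih, List.filter_cons_of_neg h]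

private theorem ct_C2 : Primrec C2 := by
  unfold C2
  refine Primrec.list_flatMap (Primrec.list_range.comp Primrec.succ) ?_
  refine Primrec.ite ?_ ?_ (Primrec.const [])
  · exact Primrec.nat_le.comp
      (Primrec.nat_add.comp (Primrec.nat_mul.comp (Primrec.const 4) Primrec.snd)
        (Primrec.const 12))
      (ct_tt.comp (Primrec.nat_sub.comp Primrec.fst Primrec.snd))
  · have h : Primrec (fun q : ℕ × ℕ => (List.range (ss (q.1 + 1))).filterMap (fun n =>
        if (decide (ss q.1 ≤ n ∧ n % ss (q.1 - q.2) = 0)) = true then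
          some (n, 2 ^ (2 * q.2 + 10)) else none)) := by
      refine Primrec.listFilterMap
        (Primrec.list_range.comp (ct_ss.comp (Primrec.succ.comp Primrec.fst))) ?_
      refine Primrec.ite ?_ ?_ (Primrec.const none)
      · have h1 : PrimrecPred (fun w : (ℕ × ℕ) × ℕ => ss w.1.1 ≤ w.2 ∧
            w.2 % ss (w.1.1 - w.1.2) = 0) :=
          (Primrec.nat_le.comp (ct_ss.comp (Primrec.fst.comp Primrec.fst)) Primrec.snd).and
            (Primrec.eq.comp (Primrec.nat_mod.comp Primrec.snd (ct_ss.comp
              (Primrec.nat_sub.comp (Primrec.fst.comp Primrec.fst)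
                (Primrec.snd.comp Primrec.fst)))) (Primrec.const 0))
        exact h1.of_eq fun w => by simp
      · exact Primrec.option_some.comp (Primrec.snd.pair (ct_pow.comp (Primrec.nat_add.comp
          (Primrec.nat_mul.comp (Primrec.const 2) (Primrec.snd.comp Primrec.fst))
          (Primrec.const 10))))
    exact h.of_eq fun q => ct_fm _ _ _

private theorem ct_ee : Primrec ee :=
  Primrec.succ.comp (ct_log.comp (Primrec.nat_mul.comp (Primrec.const 2)
    (Primrec.nat_add.comp Primrec.id (Primrec.const 2))))

private theorem ct_rr : Primrec rr :=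
  Primrec.nat_add.comp
    (ct_pow.comp (Primrec.nat_add.comp (Primrec.nat_mul.comp (Primrec.const 2) ct_ee)
      (Primrec.const 9)))
    (Primrec.nat_mul.comp (Primrec.nat_add.comp Primrec.id (Primrec.const 2))
      (Primrec.nat_add.comp (ct_pow.comp (Primrec.nat_add.comp ct_ee (Primrec.const 2)))
        (Primrec.nat_mul.comp (Primrec.const 8)
          (ct_pow.comp (Primrec.nat_add.comp ct_ee (Primrec.const 3))))))

private theorem ct_C1 : Primrec C1 := by
  unfold C1
  refine Primrec.ite ?_ ?_ (Primrec.const [])
  · exact Primrec.nat_le.comp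
      (Primrec.nat_add.comp (Primrec.nat_mul.comp (Primrec.const 2) ct_ee) (Primrec.const 8)) ct_tt
  · have h : Primrec (fun q : ℕ => (List.range (ss (q + 1))).filterMap (fun n =>
        if (decide (ss q ≤ n)) = true then some (n, rr q) else none)) := by
      refine Primrec.listFilterMap
        (Primrec.list_range.comp (ct_ss.comp Primrec.succ)) ?_
      refine Primrec.ite ?_ ?_ (Primrec.const none)
      · have h1 : PrimrecPred (fun w : ℕ × ℕ => ss w.1 ≤ w.2) :=
          Primrec.nat_le.comp (ct_ss.comp Primrec.fst) Primrec.snd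
        exact h1.of_eq fun w => by simp
      · exact Primrec.option_some.comp (Primrec.snd.pair (ct_rr.comp Primrec.fst))
    exact h.of_eq fun q => ct_fm _ _ _

/-- **CompT**. -/
theorem tCompT : S_CompT := ⟨ct_ss.to_comp, ct_C2.to_comp, ct_C1.to_comp⟩

end Pool.Agent.D9b
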