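import Pool.Agent.Lib.MP_d9c039_lc.V2.Spec

set_option autoImplicit false

/-!
# MP_d9c039_lc, second machine: the D-run
-/

namespace Pool.Agent.D9b

open Pool.Agent.D9 (LS cnt resp tabS nplays tower)

theorem tDRun (hRI : S_RI) (hAR : S_AddRest) : S_DRun := by
  intro P G hG n
  induction hG with
  | init => exact Nat.zero_le 1
  | step G x r hG hx hxn hV ih =>
    have hA : drn n ((false, x) :: G.hist) ≤ 1 := by
      rw [drn_A]
      split_ifs
      · exact Nat.zero_le 1
      · exact ih
    cases r with
    | none => exact hA
    | some r =>
      obtain ⟨y, lam, u⟩ := r
      show drn n ((true, y) :: (false, x) :: G.hist) ≤ 1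
      rw [drn_D]
      split_ifs with hy
      · suffices h : drn n ((false, x) :: G.hist) = 0 by omega
        by_cases hxn' : x < n
        · rw [drn_A, if_pos hxn']
        · have hH := hAR P G x (hRI P G hG) hx hxn
          cases u with
          | false =>
            obtain ⟨-, -, -, -, -, -, x1, hx1, -, hx1y, -⟩ := hV
            refine drn_of_pend _ _ n x1 _ hx1 (by omega) ?_
            have := ((P.mem_block lam x (x / P.s lam)).1 rfl).2
            omega
          | true =>
            obtain ⟨hlam, -, -, hact, j, hj1, hj2, -, -, -, -, e0, he0, he1, he2, hreq⟩ := hV
            obtain ⟨hr1, hr2, -⟩ := hreq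
            have hpot := (hH.pot lam hlam _ hact).1 e0 he0
            have hl1 := hH.link lam hlam _ hact e0.1 j hpot.1 he1.le hj2
            have hl2 := hH.link lam hlam _ hact (e0.1 + 1) j (by omega) he1 hj2
            have hlt : ((G.addA P x).st lam (x / P.s (lam + 1))).al.countP
                (fun e => decide (e0.1 + 1 ≤ e.1 ∧ e.1 < j ∧ j ≤ e.2)) <
                ((G.addA P x).st lam (x / P.s (lam + 1))).al.countP
                (fun e => decide (e0.1 ≤ e.1 ∧ e.1 < j ∧ j ≤ e.2)) := by
              have key : ∀ L : List (ℕ × ℕ), e0 ∈ L →
                  L.countP (fun e => decide (e0.1 + 1 ≤ e.1 ∧ e.1 < j ∧ j ≤ e.2)) <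
                    L.countP (fun e => decide (e0.1 ≤ e.1 ∧ e.1 < j ∧ j ≤ e.2)) := by
                intro L
                induction L with
                | nil => intro h; simp at h
                | cons a L ihL =>
                  intro h
                  have hmono : L.countP (fun e => decide (e0.1 + 1 ≤ e.1 ∧ e.1 < j ∧ j ≤ e.2)) ≤
                      L.countP (fun e => decide (e0.1 ≤ e.1 ∧ e.1 < j ∧ j ≤ e.2)) := by
                    apply List.countP_mono_left
                    intro e _ h3
                    simp only [decide_eq_true_eq] at h3 ⊢
                    omega
                  rw [List.countP_cons, List.countP_cons]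
                  rcases List.mem_cons.1 h with h2 | h2
                  · subst h2
                    rw [if_neg (by simp), if_pos (by
                      simp only [decide_eq_true_eq]
                      omega)]
                    omega
                  · have h3 := ihL h2
                    by_cases h4 : e0.1 + 1 ≤ a.1 ∧ a.1 < j ∧ j ≤ a.2
                    · rw [if_pos (by simpa using h4), if_pos (by
                        simp only [decide_eq_true_eq]
                        omega)]
                      omega
                    · rw [if_neg (by simpa using h4)]
                      omega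
              exact key _ he0
            rw [hl1, hl2] at hlt
            have hs0 := P.hs0 lam
            have hle : e0.1 * P.s lam ≤ (e0.1 + 1) * P.s lam :=
              Nat.mul_le_mul_right _ (Nat.le_succ _)
            rw [pendL_filter (e0.1 * P.s lam) ((e0.1 + 1) * P.s lam) (j * P.s lam) _ hle] at hlt
            have hex : ∃ x1 ∈ pendL (e0.1 * P.s lam) (j * P.s lam) (G.addA P x).hist,
                x1 < (e0.1 + 1) * P.s lam := by
              by_contra hcon
              push Not at hcon
              rw [List.filter_eq_self.2 (by
                intro z hz
                simpa using hcon z hz)] at hlt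
              exact lt_irrefl _ hlt
            obtain ⟨x1, hx1, hx1s⟩ := hex
            refine drn_of_pend _ _ n x1 _ hx1 ?_ ?_
            · have h6 : (e0.1 + 1) * P.s lam ≤ (y / P.s lam) * P.s lam :=
                Nat.mul_le_mul_right _ hr1
              have h7 := Nat.div_mul_le_self y (P.s lam)
              omega
            · have h6 : (x / P.s lam + 1) * P.s lam ≤ j * P.s lam :=
                Nat.mul_le_mul_right _ hj1
              have h7 := ((P.mem_block lam x (x / P.s lam)).1 rfl).2
              omega
      · exact hA

end Pool.Agent.D9b
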