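import Pool.Agent.Lib.MP_d9c039_lc.V2.Spec

set_option autoImplicit false

/-!
# MP_d9c039_lc, second machine: a self violation can be answered
-/

namespace Pool.Agent.D9b

/-- the places of `MS l` in `[a, b)`, if all of them are marks -/
private theorem nM_le {P : Par} {H : GS} {x : ℕ} (hI : HInv P H x) {l : ℕ} (hl : l < P.d)
    {a b : ℕ} (h : ∀ y, a ≤ y → y < b → P.MS l y → y ∈ H.ms) :
    nM (P.MS l) a b ≤ H.nD l false a b := by
  classical
  unfold nM GS.nD
  rw [List.countP_eq_length_filter]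
  refine le_trans (Finset.card_le_card (t := ((H.mks.filter (fun e =>
    decide (a ≤ e.1 ∧ e.1 < b ∧ e.2.1 = l ∧ e.2.2 = false))).map Prod.fst).toFinset) ?_) ?_
  · intro y hy
    rw [Finset.mem_filter, Finset.mem_Ico] at hy
    obtain ⟨⟨h1, h2⟩, h3⟩ := hy
    have h4 := h y h1 h2 h3
    unfold GS.ms at h4
    rw [List.mem_map] at h4
    obtain ⟨e, he, rfl⟩ := h4
    obtain ⟨_, h5, _, h6, h7⟩ := hI.mkp e he
    have h8 : e.2.2 = false := by
      by_contra hc
      exact P.hSU l hl e.2.1 h5 e.1 h3 (h6 (by simpa using hc))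
    have h9 := P.hSS l hl e.2.1 h5 e.1 h3 (h7 h8)
    rw [List.mem_toFinset, List.mem_map]
    refine ⟨e, List.mem_filter.2 ⟨he, ?_⟩, rfl⟩
    rw [decide_eq_true_eq]
    exact ⟨h1, h2, h9.symm, h8⟩
  · refine le_trans (List.toFinset_card_le _) ?_
    rw [List.length_map]

/-- A self violation can be answered. -/
theorem tFree1 : S_Free1 := by
  classical
  intro P H x hI l hl c hSV
  obtain ⟨hact, hlen⟩ := hSV
  obtain ⟨hk1, _⟩ := P.hk l
  -- the least pending event
  have hne : (pendL (c * P.s l) ((c + 1) * P.s l) H.hist).toFinset.Nonempty := by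
    rw [List.toFinset_nonempty_iff]
    intro h0
    rw [h0, List.length_nil] at hlen
    omega
  obtain ⟨x1, hx1, hmin⟩ := Finset.exists_min_image _ (fun z : ℕ => z) hne
  rw [List.mem_toFinset] at hx1
  have hmin' : ∀ z ∈ pendL (c * P.s l) ((c + 1) * P.s l) H.hist, x1 ≤ z := fun z hz =>
    hmin z (List.mem_toFinset.2 hz)
  obtain ⟨hx2, hx3⟩ := pendL_range _ _ _ _ hx1
  by_contra hcon
  have hA : ∀ y, x1 ≤ y → y < (c + 1) * P.s l → P.MS l y → y ∈ H.ms := by
    intro y
    induction y using Nat.strong_induction_on with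
    | _ y ih =>
      intro h1 h2 h3
      by_contra h4
      refine hcon ⟨y, h3, h4, (P.mem_block l y c).2 ⟨hx2.trans h1, h2⟩, x1, hx1, hmin', h1,
        fun z h5 h6 h7 => ih z h6 h5 (h6.trans h2) h7⟩
  -- the greatest cut
  let Q : ℕ → Prop := fun t => c * P.s l ≤ t ∧
    (t = c * P.s l ∨ (P.MS l (t - 1) ∧ t - 1 ∉ H.ms))
  have hQ0 : Q (c * P.s l) := ⟨le_rfl, Or.inl rfl⟩
  obtain ⟨t, ht⟩ : ∃ t, t = Nat.findGreatest Q x1 := ⟨_, rfl⟩
  have ht1 : Q t := ht ▸ Nat.findGreatest_spec hx2 hQ0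
  have ht2 : t ≤ x1 := ht ▸ Nat.findGreatest_le x1
  have hB : ∀ y, t ≤ y → y < x1 → P.MS l y → y ∈ H.ms := by
    intro y h1 h2 h3
    by_contra h4
    have h5 : ¬ Q (y + 1) := Nat.findGreatest_is_greatest (P := Q) (n := x1)
      (by rw [← ht]; omega) (by omega)
    exact h5 ⟨ht1.1.trans (by omega), Or.inr ⟨h3, h4⟩⟩
  have hC : nM (P.MS l) t ((c + 1) * P.s l) ≤ H.nD l false t ((c + 1) * P.s l) :=
    nM_le hI hl fun y h1 h2 h3 => by
      rcases Nat.lt_or_ge y x1 with h4 | h4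
      · exact hB y h1 h4 h3
      · exact hA y h4 h2 h3
  have hD : pendL t ((c + 1) * P.s l) H.hist = pendL (c * P.s l) ((c + 1) * P.s l) H.hist := by
    rw [pendL_filter (c * P.s l) t _ _ ht1.1, List.filter_eq_self]
    intro z hz
    rw [decide_eq_true_eq]
    exact ht2.trans (hmin' z hz)
  have hE := hI.pack l hl c hact t ht1.1 (by omega) ht1.2
  have hF := nA_le H hI.nodup t ((c + 1) * P.s l)
  have hG := P.H1 l hl c hact t ht1.1 (by omega)
  rw [hD] at hE
  have hH : P.k l * nM (P.MS l) t ((c + 1) * P.s l) ≤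
      P.k l * H.nD l false t ((c + 1) * P.s l) := Nat.mul_le_mul_left _ hC
  rw [Nat.mul_add, Nat.mul_one] at hG
  omega

end Pool.Agent.D9b
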