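import Pool.Agent.Lib.MP_d9c039_lc.V2.Spec

set_option autoImplicit false

/-!
# MP_d9c039_lc, second machine: a violation of type U can be answered
-/

namespace Pool.Agent.D9b

open Pool.Agent.D9 (LS cnt resp tabS nplays tower)

/-- the alive events of a child are bounded -/
private theorem inChild_le (P : Par) (H : GS) (x : ℕ) (hH : HInv P H x) (l : ℕ) (hl : l < P.d)
    (p : ℕ) (hp : P.act l p) (c : ℕ) : (H.st l p).inChild c ≤ P.g l := by
  have hinv := (hH.pot l hl p hp).1
  by_cases hc : p * 2 ^ (P.a l) ≤ c ∧ c < (p + 1) * 2 ^ (P.a l)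
  · have hcp : c / 2 ^ (P.a l) = p := (P.mem_parent l c p).mpr hc
    have h1 := hH.link l hl p hp c (c + 1) hc.1 (Nat.le_succ c) hc.2
    have h2 := hH.cntc l hl c (by rw [hcp]; exact hp)
    have h3 : (H.st l p).inChild c =
        (H.st l p).al.countP (fun e => decide (c ≤ e.1 ∧ e.1 < c + 1 ∧ c + 1 ≤ e.2)) := by
      unfold LS.inChild
      apply List.countP_congr
      intro e he
      have := hinv e he
      simp only [decide_eq_true_eq]
      constructor <;> intro h <;> omega
    rw [h3, h1]
    exact h2.trans (P.hk l).2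
  · have h4 : (H.st l p).inChild c = 0 := by
      unfold LS.inChild
      rw [List.countP_eq_zero]
      intro e he h5
      simp only [decide_eq_true_eq] at h5
      have := hinv e he
      omega
    rw [h4]
    exact Nat.zero_le _

theorem tFree2 (h1 : Pool.Agent.D9.PotBound) : S_Free2 := by
  classical
  intro P H x hH l hl p hp i hi1 hi2
  have hpi : i / 2 ^ (P.a l) = p := (P.mem_parent l i p).mpr ⟨hi1.le, hi2⟩
  have hk := P.hk l
  have hact : P.act l (i / 2 ^ (P.a l)) := by rw [hpi]; exact hp
  have hmod : i % 2 ^ (P.a l) ≠ 0 := by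
    intro h0
    have := Nat.div_add_mod i (2 ^ (P.a l))
    rw [hpi, h0, Nat.mul_comm] at this
    omega
  have hpot := h1 (P.g l) 1 (p * 2 ^ (P.a l)) ((p + 1) * 2 ^ (P.a l)) (P.a l) (H.st l p)
    (by omega) one_pos (by ring)
    (fun c => by rw [Nat.mul_one]; exact inChild_le P H x hH l hl p hp c)
    (hH.pot l hl p hp) i hi1.le hi2
  rw [Nat.mul_one] at hpot
  have hkle := hH.kle l hl i hact
  have hna := nA_le H hH.nodup (i * P.s l) ((i + 1) * P.s l)
  have hsub : (i + 1) * P.s l - i * P.s l = P.s l := by
    rw [Nat.succ_mul, Nat.add_sub_cancel_left]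
  have hH2 := P.H2 l hl i hact hmod
  rw [hpi] at hkle
  have hf : P.g l * (H.st l p).f i < P.g l * nM (P.MU l) (i * P.s l) ((i + 1) * P.s l) := by
    omega
  have hf2 := lt_of_mul_lt_mul_left hf (Nat.zero_le _)
  have hfc := hH.fcount l hl i hact
  rw [hpi] at hfc
  by_contra hcon
  push Not at hcon
  apply absurd hf2
  rw [hfc, not_lt]
  unfold nM GS.nD
  rw [List.countP_eq_length_filter]
  set F := H.mks.filter (fun e => decide (i * P.s l ≤ e.1 ∧ e.1 < (i + 1) * P.s l ∧
    e.2.1 = l ∧ e.2.2 = true)) with hF
  calc ((Finset.Ico (i * P.s l) ((i + 1) * P.s l)).filter (P.MU l)).card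
      ≤ ((F.map Prod.fst).toFinset).card := by
        apply Finset.card_le_card
        intro y hy
        rw [Finset.mem_filter, Finset.mem_Ico] at hy
        obtain ⟨hy1, hy2⟩ := hy
        have hyi : y / P.s l = i := (P.mem_block l y i).mpr hy1
        have hyms : y ∈ H.ms := by
          by_contra hn
          exact hcon y hy2 hn hyi
        unfold GS.ms at hyms
        rw [List.mem_map] at hyms
        obtain ⟨e, he, hey⟩ := hyms
        obtain ⟨-, he2, -, he4, he5⟩ := hH.mkp e he
        have hu : e.2.2 = true := by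
          by_contra hne
          have hne' : e.2.2 = false := by
            simpa using hne
          have h7 := he5 hne'
          rw [hey] at h7
          exact P.hSU e.2.1 he2 l hl y h7 hy2
        have hlv : e.2.1 = l := by
          have h7 := he4 hu
          rw [hey] at h7
          exact P.hUU e.2.1 he2 l hl y h7 hy2
        rw [List.mem_toFinset, List.mem_map]
        refine ⟨e, ?_, hey⟩
        rw [hF, List.mem_filter]
        refine ⟨he, ?_⟩
        rw [decide_eq_true_eq, hey]
        exact ⟨hy1.1, hy1.2, hlv, hu⟩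
    _ ≤ (F.map Prod.fst).length := List.toFinset_card_le _
    _ = F.length := List.length_map _

end Pool.Agent.D9b
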