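import Pool.Agent.Lib.MP_d9c039_lc.V2.Spec

set_option autoImplicit false

/-!
# MP_d9c039_lc, second machine: module MkKle
-/

namespace Pool.Agent.D9b

open Pool.Agent.D9 (LS)

private theorem MkKle_fire (S : LS) (i c : ℕ) :
    (S.fire i).k c + (S.fire i).inChild c = S.k c + S.inChild c := by
  unfold LS.fire LS.inChild
  simp only [List.countP_map, List.countP_filter]
  by_cases h : i ≤ c
  · rw [if_pos h]
    have h1 : S.al.countP (fun e => ((fun e : ℕ × ℕ => decide (e.1 = c)) ∘
        fun e : ℕ × ℕ => (e.1, min e.2 i)) e && decide (e.1 < i)) = 0 := by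
      rw [List.countP_eq_zero]
      intro e _
      simp only [Function.comp, Bool.and_eq_true, decide_eq_true_eq, not_and]
      intro h2
      omega
    rw [h1]
    rfl
  · rw [if_neg h]
    congr 1
    apply List.countP_congr
    intro e _
    simp only [Function.comp, Bool.and_eq_true, decide_eq_true_eq]
    constructor
    · exact fun h2 => h2.1
    · exact fun h2 => ⟨h2, by omega⟩

private theorem MkKle_resp (S : LS) (i c : ℕ) :
    (S.resp i).k c + (S.resp i).inChild c = S.k c + S.inChild c := MkKle_fire S i c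

/-- kle and fcount after a mark -/
theorem tMkKle : S_MkKle := by
  intro P H x y lam u hH l hl c hc
  have hk := hH.kle l hl c hc
  have hf := hH.fcount l hl c hc
  constructor
  · rw [addD_nA, addD_st]
    split_ifs
    · exact hk
    · rw [MkKle_resp]
      exact hk
    · rw [MkKle_fire]
      exact hk
  · rw [addD_nD, addD_st]
    have hblk : c * P.s l ≤ y ∧ y < (c + 1) * P.s l → c / 2 ^ (P.a l) = y / P.s (l + 1) := by
      intro h
      rw [P.div_succ l hl, (P.mem_block l y c).mpr h]
    by_cases h1 : c / 2 ^ (P.a l) < y / P.s (l + 1)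
    · have h3 : ¬ (c * P.s l ≤ y ∧ y < (c + 1) * P.s l ∧ lam = l ∧ u = true) := by
        intro h3
        have := hblk ⟨h3.1, h3.2.1⟩
        omega
      rw [if_pos h1, if_neg h3, hf]
      rfl
    · rw [if_neg h1]
      by_cases h2 : c / 2 ^ (P.a l) = y / P.s (l + 1) ∧ l = lam ∧ u = true
      · rw [if_pos h2]
        change Function.update (H.st l (c / 2 ^ (P.a l))).f (y / P.s l) _ c = _
        by_cases h3 : y / P.s l = c
        · have h6 := (P.mem_block l y c).mp h3
          rw [if_pos ⟨h6.1, h6.2, h2.2.1.symm, h2.2.2⟩, h3, Function.update_self, hf]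
        · rw [if_neg (fun h4 => h3 ((P.mem_block l y c).mpr ⟨h4.1, h4.2.1⟩)),
            Function.update_of_ne (fun h5 => h3 h5.symm), hf]
          rfl
      · rw [if_neg h2]
        have h3 : ¬ (c * P.s l ≤ y ∧ y < (c + 1) * P.s l ∧ lam = l ∧ u = true) := fun h3 =>
          h2 ⟨hblk ⟨h3.1, h3.2.1⟩, h3.2.2.1.symm, h3.2.2.2⟩
        rw [if_neg h3]
        change (H.st l (c / 2 ^ (P.a l))).f c = _
        rw [hf]
        rfl

end Pool.Agent.D9b
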