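import Pool.Agent.Lib.MP_d9c039_lc.V2.Spec

set_option autoImplicit false

/-!
# MP_d9c039_lc, second machine: module MkLink
-/

namespace Pool.Agent.D9b

open Pool.Agent.D9 (LS)

private theorem MkLink_fire_le (S : LS) (i' i j : ℕ) (h : j ≤ i') :
    (S.fire i').al.countP (fun e => decide (i ≤ e.1 ∧ e.1 < j ∧ j ≤ e.2)) =
      S.al.countP (fun e => decide (i ≤ e.1 ∧ e.1 < j ∧ j ≤ e.2)) := by
  unfold LS.fire
  simp only [List.countP_map, List.countP_filter]
  apply List.countP_congr
  intro e _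
  simp only [Function.comp, Bool.and_eq_true, decide_eq_true_eq]
  constructor
  · rintro ⟨⟨h1, h2, h3⟩, _⟩
    exact ⟨h1, h2, h3.trans (min_le_left _ _)⟩
  · rintro ⟨h1, h2, h3⟩
    exact ⟨⟨h1, h2, le_min h3 h⟩, by omega⟩

private theorem MkLink_fire_gt (S : LS) (i' i j : ℕ) (h : i' < j) :
    (S.fire i').al.countP (fun e => decide (i ≤ e.1 ∧ e.1 < j ∧ j ≤ e.2)) = 0 := by
  unfold LS.fire
  simp only [List.countP_map, List.countP_filter]
  rw [List.countP_eq_zero]
  intro e _
  simp only [Function.comp, Bool.and_eq_true, decide_eq_true_eq, not_and]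
  rintro ⟨_, _, h3⟩
  exact absurd (h3.trans (min_le_right _ _)) (by omega)

/-- the link after a mark -/
theorem tMkLink : S_MkLink := by
  intro P H x y lam u hH l hl p hp i j hi hij hj
  have hlink := hH.link l hl p hp i j hi hij hj
  have hs0 := P.hs0 l
  rw [addD_hist, pendL_D]
  by_cases h1 : p < y / P.s (l + 1)
  · rw [addD_st, if_pos h1, hlink, if_neg]
    have h2 := (P.mem_block (l + 1) y (y / P.s (l + 1))).mp rfl
    have h3 : (p + 1) * P.s (l + 1) ≤ y := (Nat.mul_le_mul_right _ h1).trans h2.1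
    rw [P.hs l hl] at h3
    have h4 : j * P.s l ≤ (p + 1) * 2 ^ (P.a l) * P.s l := Nat.mul_le_mul_right _ hj
    have h5 : (p + 1) * (P.s l * 2 ^ (P.a l)) = (p + 1) * 2 ^ (P.a l) * P.s l := by ring
    omega
  · have hal : ((H.addD P y lam u).st l p).al =
        ((H.st l p).fire (max (y / P.s l) (p * 2 ^ (P.a l)))).al := by
      rw [addD_st, if_neg h1]
      split_ifs with h2
      · have h3 : p * 2 ^ (P.a l) ≤ y / P.s l :=
          ((P.mem_parent l (y / P.s l) p).mp (by rw [← P.div_succ l hl]; exact h2.1.symm)).1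
        rw [max_eq_left h3]
        rfl
      · rfl
    rw [hal]
    by_cases h2 : max (y / P.s l) (p * 2 ^ (P.a l)) < j
    · rw [MkLink_fire_gt _ _ _ _ h2, if_pos]
      · rfl
      · exact (Nat.div_lt_iff_lt_mul hs0).mp ((le_max_left _ _).trans_lt h2)
    · rw [MkLink_fire_le _ _ _ _ (not_lt.mp h2), hlink]
      by_cases h3 : y / P.s l < j
      · have h4 : i = j := by
          have := le_max_iff.mp (not_lt.mp h2)
          omega
        rw [h4, pendL_self]
        split_ifs <;> rfl
      · rw [if_neg]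
        intro h4
        exact h3 ((Nat.div_lt_iff_lt_mul hs0).mpr h4)

end Pool.Agent.D9b
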