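import Pool.Agent.Lib.MP_d9c039_lc.V2.Spec

set_option autoImplicit false

/-!
# MP_d9c039_lc, second machine: the list of marks
-/

namespace Pool.Agent.D9b

open Pool.Agent.D9 (LS cnt resp tabS nplays tower)

/-- the facts on the mark `y` -/
private theorem mkFacts (P : Par) (H : GS) (x y lam : ℕ) (u : Bool) (hH : HInv P H x)
    (hV : Valid P H x (some (y, lam, u))) :
    y ∉ H.ms ∧ y < P.s P.d ∧ lam < P.d ∧ P.act lam (y / P.s (lam + 1)) ∧
      (u = true → P.MU lam y) ∧ (u = false → P.MS lam y) := by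
  have key : ∀ l ≤ P.d, y / P.s l = x / P.s l → y < P.s P.d := by
    intro l hl h
    have h1 := P.div_up y x l P.d hl le_rfl h
    rw [Nat.div_eq_of_lt hH.xlt] at h1
    exact (Nat.div_eq_zero_iff_lt (P.hs0 _)).1 h1
  cases u with
  | false =>
    obtain ⟨h1, _, h2, h3⟩ := hV
    obtain ⟨h4, h5, h6, _⟩ := h3
    refine ⟨h5, key lam h1.le h6, h1, ?_, ?_, ?_⟩
    · rw [P.div_succ lam h1, h6]
      exact h2.1
    · intro h; cases h
    · intro _; exact h4
  | true =>
    obtain ⟨h1, _, _, h2, j, _, _, _, h3⟩ := hV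
    obtain ⟨h4, h5, h6, _⟩ := h3
    refine ⟨h5, key (lam + 1) h1 h6, h1, ?_, ?_, ?_⟩
    · rw [h6]
      exact h2
    · intro _; exact h4
    · intro h; cases h

theorem tMkMk : S_MkMk := by
  intro P H x y lam u hH hV
  obtain ⟨h1, h2, h3, h4, h5, h6⟩ := mkFacts P H x y lam u hH hV
  refine ⟨?_, ?_, ?_⟩
  · intro e he
    rw [addD_mks, List.mem_cons] at he
    rcases he with rfl | he
    · exact ⟨h2, h3, h4, h5, h6⟩
    · exact hH.mkp e he
  · rw [addD_ms, List.nodup_cons]
    exact ⟨h1, hH.mk_nodup⟩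
  · rw [addD_ms, addD_hist, List.filter_cons_of_pos (by rfl), List.map_cons, ← hH.mk_hist]

end Pool.Agent.D9b
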