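import Pool.Agent.Lib.MP_d9c039_lc.V2.Spec

set_option autoImplicit false

/-!
# MP_d9c039_lc, second machine: the packing invariant after a mark
-/

namespace Pool.Agent.D9b

theorem tMkPack : S_MkPack := by
  intro P H x y lam u hH hV l hl c hact t ht1 ht2 ht3
  have hold : t = c * P.s l ∨ (P.MS l (t - 1) ∧ t - 1 ∉ H.ms) := by
    rcases ht3 with h | ⟨h1, h2⟩
    · exact Or.inl h
    · refine Or.inr ⟨h1, fun h3 => h2 ?_⟩
      rw [addD_ms]
      exact List.mem_cons_of_mem _ h3
  have hpack := hH.pack l hl c hact t ht1 ht2 hold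
  rw [addD_nD, addD_nA, addD_hist, pendL_D]
  by_cases hm : t ≤ y ∧ y < (c + 1) * P.s l ∧ lam = l ∧ u = false
  · rw [if_pos hm, if_pos hm.2.1]
    obtain ⟨hty, hyb, rfl, rfl⟩ := hm
    obtain ⟨_, _, hSV, _, _, hyc, x1, hx1, hmin, _, hbetw⟩ := hV
    have hyc' : y / P.s lam = c := (P.mem_block lam y c).2 ⟨ht1.trans hty, hyb⟩
    have hcx : x / P.s lam = c := by rw [← hyc, hyc']
    rw [hcx] at hSV hmin hx1
    have hk := hSV.2
    have htx : t ≤ x1 := by
      by_contra hlt
      push Not at hlt
      rcases ht3 with h | ⟨h1, h2⟩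
      · have h4 : x1 < c * P.s lam := by rw [← h]; exact hlt
        have := pendL_range _ _ _ _ hx1
        omega
      · have h3 : t - 1 ∈ H.ms := hbetw (t - 1) (by omega) (by omega) h1
        exact h2 (by rw [addD_ms]; exact List.mem_cons_of_mem _ h3)
    have hpend : pendL t ((c + 1) * P.s lam) H.hist =
        pendL (c * P.s lam) ((c + 1) * P.s lam) H.hist := by
      rw [pendL_filter (c * P.s lam) t _ _ ht1]
      apply List.filter_eq_self.2
      intro z hz
      exact decide_eq_true (htx.trans (hmin z hz))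
    rw [hpend] at hpack
    rw [Nat.mul_add, mul_one, List.length_nil]
    omega
  · rw [if_neg hm, add_zero]
    split_ifs with h
    · rw [List.length_nil]
      omega
    · exact hpack

end Pool.Agent.D9b
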