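import Pool.Agent.Lib.MP_d9c039_lc.V2.Spec

set_option autoImplicit false

/-!
# MP_d9c039_lc, second machine: module MkPot (helper60)
-/

namespace Pool.Agent.D9b

open Pool.Agent.D9 (LS)

/-- the number of the entries of a child -/
private theorem inChild_le (P : Par) (H : GS) (x : ℕ) (hH : HInv P H x) (l : ℕ) (hl : l < P.d) (p : ℕ)
    (hp : P.act l p) (c : ℕ) : (H.st l p).inChild c ≤ P.g l * 1 := by
  have hI := (hH.pot l hl p hp).1
  rw [mul_one]
  unfold LS.inChild
  by_cases hc : c / 2 ^ (P.a l) = p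
  · have hc' := (P.mem_parent l c p).1 hc
    have h1 : (H.st l p).al.countP (fun e => decide (e.1 = c)) =
        (H.st l p).al.countP (fun e => decide (c ≤ e.1 ∧ e.1 < c + 1 ∧ c + 1 ≤ e.2)) := by
      apply List.countP_congr
      intro e he
      have h2 := hI e he
      simp only [decide_eq_true_eq]
      omega
    rw [h1, hH.link l hl p hp c (c + 1) hc'.1 (Nat.le_succ c) hc'.2]
    have h3 := hH.cntc l hl c (by rw [hc]; exact hp)
    exact h3.trans (P.hk l).2
  · have h1 : (H.st l p).al.countP (fun e => decide (e.1 = c)) = 0 := by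
      rw [List.countP_eq_zero]
      intro e he
      have h2 := hI e he
      simp only [decide_eq_true_eq]
      intro h3
      apply hc
      rw [P.mem_parent]
      omega
    rw [h1]
    exact Nat.zero_le _

theorem tMkPot (h1 : Pool.Agent.D9.PotFire) (h2 : Pool.Agent.D9.PotResp) : S_MkPot := by
  intro P H x y lam u hH hv l hl p hp
  have hI := hH.pot l hl p hp
  have hcnt := inChild_le P H x hH l hl p hp
  have hg : 0 < P.g l := (P.hk l).1.trans_le (P.hk l).2
  rw [addD_st]
  split_ifs with ha hb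
  · exact hI
  · obtain ⟨hb1, hb2, hb3⟩ := hb
    subst hb2
    subst hb3
    obtain ⟨v1, v2, v3, v4, j, v5, v6, v7, v8, v9, v10, e0, v11, v12, v13, v14⟩ := hv
    rw [v10] at hb1
    subst hb1
    exact h2 _ _ _ _ _ _ _ _ _ hg Nat.one_pos rfl (hI.1 e0 v11).1 v6 hcnt hI v14
  · have h3 : y / P.s (l + 1) ≤ p := Nat.not_lt.1 ha
    rw [P.div_succ l hl] at h3
    have h4 : y / P.s l < (p + 1) * 2 ^ (P.a l) := by
      rw [← Nat.div_lt_iff_lt_mul (pow_pos (by norm_num) _)]
      exact Nat.lt_succ_of_le h3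
    have h5 : p * 2 ^ (P.a l) < (p + 1) * 2 ^ (P.a l) :=
      Nat.mul_lt_mul_of_pos_right (Nat.lt_succ_self p) (pow_pos (by norm_num) _)
    exact h1 _ _ _ _ _ _ hg Nat.one_pos (le_max_right _ _) (max_lt h4 h5) hcnt hI

end Pool.Agent.D9b
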