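import Pool.Agent.Lib.MP_d9c039_lc.V2.Spec

set_option autoImplicit false

/-!
# MP_d9c039_lc, second machine: residue classes in intervals
-/

namespace Pool.Agent.D9b

private theorem period (m r a : ℕ) (hr : r < m) : nM (fun y => y % m = r) a (a + m) = 1 := by
  classical
  unfold nM
  rw [Finset.card_eq_one]
  -- the unique element
  have hm : 0 < m := by omega
  refine ⟨a + (r + (m - a % m)) % m, ?_⟩
  ext y
  simp only [Finset.mem_filter, Finset.mem_Ico, Finset.mem_singleton]
  have h1 := Nat.mod_lt a hm
  have h2 := Nat.mod_lt (r + (m - a % m)) hm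
  have h3 : (a + (r + (m - a % m)) % m) % m = r := by
    have e1 : a + (r + (m - a % m)) = r + m * (a / m + 1) := by
      have := Nat.div_add_mod a m
      have e2 : m * (a / m + 1) = m * (a / m) + m := by ring
      omega
    rw [Nat.add_mod, Nat.mod_mod, ← Nat.add_mod, e1, Nat.add_mul_mod_self_left, Nat.mod_eq_of_lt hr]
  constructor
  · rintro ⟨⟨h4, h5⟩, h6⟩
    have h7 : y ≡ a + (r + (m - a % m)) % m [MOD m] := by
      unfold Nat.ModEq
      rw [h6, h3]
    have h8 : y - a ≡ (r + (m - a % m)) % m [MOD m] := by
      apply Nat.ModEq.add_left_cancel' a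
      rwa [Nat.add_sub_cancel' h4]
    have h9 := Nat.ModEq.eq_of_lt_of_lt h8 (by omega) h2
    omega
  · rintro rfl
    exact ⟨⟨by omega, by omega⟩, h3⟩

private theorem nM_add (M : ℕ → Prop) (a b c : ℕ) (hab : a ≤ b) (hbc : b ≤ c) :
    nM M a c = nM M a b + nM M b c := by
  classical
  unfold nM
  rw [← Finset.Ico_union_Ico_eq_Ico hab hbc, Finset.filter_union, Finset.card_union_of_disjoint]
  apply Finset.disjoint_filter_filter
  exact Finset.Ico_disjoint_Ico_consecutive a b c

private theorem exact_count (m r a w : ℕ) (hr : r < m) :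
    nM (fun y => y % m = r) a (a + m * w) = w := by
  induction w with
  | zero =>
    unfold nM
    simp
  | succ w ih =>
    have h1 : a + m * (w + 1) = (a + m * w) + m := by ring
    rw [h1, nM_add _ a (a + m * w) _ (by omega) (by omega), ih, period m r _ hr]

theorem tRes : S_Res := by
  refine ⟨?_, fun m r a w hr => exact_count m r a w hr⟩
  intro m r a b hr
  have hm : 0 < m := by omega
  have h1 := Nat.div_add_mod (b - a) m
  have h2 := Nat.mod_lt (b - a) hm
  by_cases hab : a ≤ b
  · have h3 : a + m * ((b - a) / m) ≤ b := by omega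
    have h4 : (b - a) / m ≤ nM (fun y => y % m = r) a b := by
      rw [nM_add _ a (a + m * ((b - a) / m)) b (by omega) h3, exact_count m r a _ hr]
      omega
    have h5 := Nat.mul_le_mul_left m h4
    rw [mul_add, mul_one]
    omega
  · have h3 : b - a = 0 := by omega
    rw [h3]
    positivity

end Pool.Agent.D9b
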