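import Pool.Agent.Lib.MP_d9c039_lc.V2.Spec

set_option autoImplicit false

/-!
# MP_d9c039_lc, second machine: arithmetic of the second theorem
-/

namespace Pool.Agent.D9b

open Pool.Agent.D9 (tower)

theorem tRk1 (hTT : S_TT) : S_Rk1 := by
  obtain ⟨hmono, -, -, -, -, -, h4, h14, hpow, hpow2⟩ := hTT
  have hge : ∀ l, 4 ≤ l → 14 ≤ tt l := by
    intro l hl
    have := hmono.monotone hl
    omega
  have h5 : 141 ≤ tt 5 := by
    show 141 ≤ tt 4 + (2 ^ (tt 4 / 2) - 1)
    rw [h4]
    norm_num
  have hlin : ∀ L, 5 ≤ L → 2 * L + 100 ≤ tt L := by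
    intro L hL
    induction L, hL using Nat.le_induction with
    | base => omega
    | succ L hL ih =>
      have h1 := h14 L (hge L (by omega))
      have h2 := hpow L
      omega
  refine ⟨?_, ?_⟩
  · intro L hL
    have h1 := hlin L hL
    have h2 : Nat.log 2 (2 * (L + 2)) < L + 3 := by
      apply Nat.log_lt_of_lt_pow (by omega)
      have h3 : L + 2 < 2 ^ (L + 2) := Nat.lt_two_pow_self
      rw [pow_succ]
      omega
    unfold ee
    omega
  · intro L k n h1 h2
    have htow : ∀ j, tower j < ss (4 + 2 * j) := by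
      intro j
      induction j with
      | zero =>
        show 1 < 2 ^ tt 4
        rw [h4]
        norm_num
      | succ j ih =>
        show 2 ^ tower j < ss (4 + 2 * (j + 1))
        have e1 : 4 + 2 * (j + 1) = (4 + 2 * j) + 2 := by ring
        rw [e1]
        have e2 := hpow2 (4 + 2 * j) (hge _ (by omega))
        have e3 : tower j < 2 ^ (tt (4 + 2 * j) + 1) := by
          have e4 : ss (4 + 2 * j) ≤ 2 ^ (tt (4 + 2 * j) + 1) :=
            Nat.pow_le_pow_right (by norm_num) (by omega)
          exact ih.trans_le e4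
        exact Nat.pow_lt_pow_right (by norm_num) (e3.trans_le e2)
    have hL : L ≤ 2 * k + 4 := by
      by_contra hcon
      push Not at hcon
      have e1 : ss (4 + 2 * k) ≤ ss L :=
        Nat.pow_le_pow_right (by norm_num) (hmono.monotone (by omega))
      have e2 := htow k
      omega
    have hee : 2 ^ ee L ≤ 4 * (L + 2) := by
      unfold ee
      rw [pow_succ]
      have := Nat.pow_log_le_self 2 (x := 2 * (L + 2)) (by omega)
      omega
    have e1 : rr L = 512 * (2 ^ ee L) ^ 2 + 68 * (2 ^ ee L * (L + 2)) := by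
      unfold rr
      rw [pow_add, pow_mul', pow_add, pow_add]
      ring
    have e2 : (2 ^ ee L) ^ 2 ≤ (4 * (L + 2)) ^ 2 := Nat.pow_le_pow_left hee 2
    have e3 : 2 ^ ee L * (L + 2) ≤ 4 * (L + 2) * (L + 2) := Nat.mul_le_mul_right _ hee
    have e4 : rr L ≤ 8464 * (L + 2) ^ 2 := by
      rw [e1]
      nlinarith
    have e5 : (L + 2) ^ 2 ≤ (6 * (k + 1)) ^ 2 := Nat.pow_le_pow_left (by omega) 2
    calc rr L ≤ 8464 * (L + 2) ^ 2 := e4
      _ ≤ 8464 * (6 * (k + 1)) ^ 2 := Nat.mul_le_mul_left _ e5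
      _ = 304704 * (k + 1) ^ 2 := by ring

end Pool.Agent.D9b
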