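import Pool.Agent.Lib.MP_d9c039_lc.V2.Spec

set_option autoImplicit false

/-!
# MP_d9c039_lc, second machine: facts on the sizes
-/

namespace Pool.Agent.D9b

private theorem two_le_tt (l : ℕ) : 2 ≤ tt l := by
  induction l with
  | zero => exact le_rfl
  | succ l ih =>
    show 2 ≤ tt l + (2 ^ (tt l / 2) - 1)
    omega

private theorem pow_ge (l : ℕ) : 2 ≤ 2 ^ (tt l / 2) := by
  have h1 : 1 ≤ tt l / 2 := by
    have := two_le_tt l
    omega
  calc 2 = 2 ^ 1 := by norm_num
    _ ≤ 2 ^ (tt l / 2) := Nat.pow_le_pow_right (by norm_num) h1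

private theorem tt_succ (l : ℕ) : tt (l + 1) = tt l + (2 ^ (tt l / 2) - 1) := rfl

private theorem lt_succ (l : ℕ) : tt l < tt (l + 1) := by
  have := pow_ge l
  rw [tt_succ]
  omega

private theorem big (m : ℕ) (hm : 7 ≤ m) : 4 * m + 4 ≤ 2 ^ m := by
  induction m, hm using Nat.le_induction with
  | base => norm_num
  | succ m hm ih =>
    rw [pow_succ]
    omega

theorem tTT : S_TT := by
  have hmono : StrictMono tt := strictMono_nat_of_lt_succ lt_succ
  have h14 : ∀ l, 14 ≤ tt l → 2 * tt l + 2 ≤ 2 ^ (tt l / 2) := by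
    intro l hl
    have := big (tt l / 2) (by omega)
    omega
  have hpow : ∀ l, 2 ^ (tt l / 2) ≤ tt (l + 1) := by
    intro l
    have h1 := two_le_tt l
    have h2 := pow_ge l
    rw [tt_succ]
    omega
  have hss : ∀ l, ss (l + 1) = ss l * 2 ^ (2 ^ (tt l / 2) - 1) := by
    intro l
    unfold ss
    rw [tt_succ, pow_add]
  refine ⟨hmono, ?_, hss, ?_, ?_, ?_, ?_, h14, hpow, ?_⟩
  · intro l
    induction l with
    | zero => exact le_rfl
    | succ l ih =>
      have := lt_succ l
      omega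
  · intro l l' hl
    exact pow_dvd_pow 2 (hmono.monotone hl)
  · intro l
    rw [hss]
    have h1 := pow_ge l
    have h2 : 1 ≤ 2 ^ (tt l / 2) - 1 := by omega
    have h3 : 2 ^ 1 ≤ 2 ^ (2 ^ (tt l / 2) - 1) := Nat.pow_le_pow_right (by norm_num) h2
    have h4 := Nat.mul_le_mul_left (ss l) h3
    omega
  · intro l
    have h1 : l < 2 ^ l := Nat.lt_two_pow_self
    have h2 : l ≤ tt l := hmono.le_apply
    exact h1.trans_le (Nat.pow_le_pow_right (by norm_num) h2)
  · simp [tt]
  · intro l hl
    have h1 := h14 l hl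
    have h2 := hpow l
    have h3 := hpow (l + 1)
    have h4 : tt l + 1 ≤ tt (l + 1) / 2 := by omega
    exact (Nat.pow_le_pow_right (by norm_num) h4).trans h3

end Pool.Agent.D9b
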