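import Pool.Agent.Lib.MP_d9c039_lc.V2.Spec

set_option autoImplicit false

/-!
# MP_d9c039_lc, second machine, module P2: parameters of the first theorem
-/

namespace Pool.Agent.D9b

open Pool.Agent.D9 (LS cnt resp tabS nplays tower)

private theorem nM_mono {M M' : ℕ → Prop} {a b a' b' : ℕ} (ha : a ≤ a') (hb : b' ≤ b)
    (h : ∀ y, a' ≤ y → y < b' → M' y → M y) : nM M' a' b' ≤ nM M a b := by
  classical
  unfold nM
  apply Finset.card_le_card
  intro y hy
  rw [Finset.mem_filter, Finset.mem_Ico] at hy ⊢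
  exact ⟨⟨ha.trans hy.1.1, lt_of_lt_of_le hy.1.2 hb⟩, h y hy.1.1 hy.1.2 hy.2⟩

/-- the exponent of two is determined -/
private theorem val_eq {y e e' : ℕ} (h : y % 2 ^ (e + 1) = 2 ^ e)
    (h' : y % 2 ^ (e' + 1) = 2 ^ e') : e = e' := by
  have key : ∀ e e' : ℕ, y % 2 ^ (e + 1) = 2 ^ e → y % 2 ^ (e' + 1) = 2 ^ e' → ¬ e < e' := by
    intro e e' h h' hlt
    have h1 : 2 ^ (e + 1) ∣ 2 ^ (e' + 1) := pow_dvd_pow 2 (by omega)
    have h2 : 2 ^ (e + 1) ∣ 2 ^ e' := pow_dvd_pow 2 (by omega)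
    have h3 : y % 2 ^ (e' + 1) % 2 ^ (e + 1) = y % 2 ^ (e + 1) := Nat.mod_mod_of_dvd y h1
    rw [h', Nat.mod_eq_zero_of_dvd h2, h] at h3
    have := Nat.two_pow_pos e
    omega
  rcases lt_trichotomy e e' with h1 | h1 | h1
  · exact absurd h1 (key e e' h h')
  · exact h1
  · exact absurd h1 (key e' e h' h)

private theorem mod_four {y e : ℕ} (he : 2 ≤ e) (h : y % 2 ^ (e + 1) = 2 ^ e) : y % 4 = 0 := by
  have h1 : 2 ^ 2 ∣ 2 ^ (e + 1) := pow_dvd_pow 2 (by omega)
  have h2 : 2 ^ 2 ∣ 2 ^ e := pow_dvd_pow 2 (by omega)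
  have h3 : y % 2 ^ (e + 1) % 2 ^ 2 = y % 2 ^ 2 := Nat.mod_mod_of_dvd y h1
  rw [h, Nat.mod_eq_zero_of_dvd h2] at h3
  have h4 : (2 : ℕ) ^ 2 = 4 := by norm_num
  rw [h4] at h3
  omega

/-- The parent of a child `c` of an active parent. -/
private def MS (L l y : ℕ) : Prop :=
  (l = L ∧ y < ss L ∧ ss L ≤ 2 * y ∧ y % 4 = 2) ∨
    (ss L ≤ y ∧ y % 2 ^ (2 * (L - l) + 2 + 1) = 2 ^ (2 * (L - l) + 2))

private def MU (L l y : ℕ) : Prop :=
  ss L ≤ y ∧ y % 2 ^ (2 * (L - l) + 3 + 1) = 2 ^ (2 * (L - l) + 3)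

private def act (L l p : ℕ) : Prop :=
  4 * (L - l) + 12 ≤ tt l ∧ ((l = L ∧ p = 0) ∨ (l < L ∧ ss L ≤ p * ss (l + 1)))

/-- Self requests of the first child of the top level. -/
private theorem H1top (hRes : S_Res) (L t : ℕ) (M : ℕ → Prop) (hL : 12 ≤ tt L)
    (hM : ∀ y, y < ss L → ss L ≤ 2 * y → y % 4 = 2 → M y) (ht : t ≤ ss L) :
    ss L - t < 8 * (nM M t (ss L) + 1) := by
  rcases Nat.lt_or_ge (2 * t) (ss L) with h | h
  · obtain ⟨w, hw⟩ : ∃ w, ss L = 8 * w := by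
      refine ⟨2 ^ (tt L - 3), ?_⟩
      unfold ss
      have : (8 : ℕ) = 2 ^ 3 := by norm_num
      rw [this, ← pow_add]
      congr 1
      omega
    have h1 := hRes.2 4 2 (4 * w) w (by norm_num)
    have h2 : nM (fun y => y % 4 = 2) (4 * w) (4 * w + 4 * w) ≤ nM M t (ss L) := by
      apply nM_mono
      · omega
      · omega
      · intro y hy1 hy2 hy3
        exact hM y (by omega) (by omega) hy3
    rw [h1] at h2
    omega
  · have h1 := hRes.1 4 2 t (ss L) (by norm_num)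
    have h2 : nM (fun y => y % 4 = 2) t (ss L) ≤ nM M t (ss L) := by
      apply nM_mono le_rfl le_rfl
      intro y hy1 hy2 hy3
      exact hM y hy2 (by omega) hy3
    omega

private theorem child_ge {L l c : ℕ} (hs : ss (l + 1) = ss l * 2 ^ (2 ^ (tt l / 2) - 1))
    (h : ss L ≤ c / 2 ^ (2 ^ (tt l / 2) - 1) * ss (l + 1)) : ss L ≤ c * ss l := by
  refine h.trans ?_
  rw [hs]
  calc c / 2 ^ (2 ^ (tt l / 2) - 1) * (ss l * 2 ^ (2 ^ (tt l / 2) - 1))
      = c / 2 ^ (2 ^ (tt l / 2) - 1) * 2 ^ (2 ^ (tt l / 2) - 1) * ss l := by ring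
    _ ≤ c * ss l := Nat.mul_le_mul_right _ (Nat.div_mul_le_self _ _)

/-- The parameters of the board `L`. -/
private noncomputable def Pm (hTT : S_TT) (hRes : S_Res) (L : ℕ) : Par where
  d := L + 1
  s := ss
  a := fun l => 2 ^ (tt l / 2) - 1
  k := fun l => 2 ^ (2 * (L - l) + 2 + 1)
  g := fun l => 2 ^ (2 * (L - l) + 5)
  act := act L
  MS := MS L
  MU := MU L
  hs0 := fun l => Nat.two_pow_pos _
  hs := fun l _ => hTT.2.2.1 l
  hk := fun l => ⟨Nat.two_pow_pos _, Nat.pow_le_pow_right (by norm_num) (by omega)⟩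
  hSS := by
    rintro l hl l' hl' y (⟨h1, h2, h3, h4⟩ | ⟨h1, h2⟩) (⟨h1', h2', h3', h4'⟩ | ⟨h1', h2'⟩)
    · omega
    · omega
    · omega
    · have := val_eq h2 h2'
      omega
  hUU := by
    rintro l hl l' hl' y ⟨h1, h2⟩ ⟨h1', h2'⟩
    have := val_eq h2 h2'
    omega
  hSU := by
    rintro l hl l' hl' y (⟨h1, h2, h3, h4⟩ | ⟨h1, h2⟩) ⟨h1', h2'⟩
    · omega
    · have := val_eq h2 h2'
      omega
  H1 := by
    intro l hl c hact t ht1 ht2
    have hs := hTT.2.2.1 l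
    by_cases hc : ss L ≤ c * ss l
    · have h1 := hRes.1 (2 ^ (2 * (L - l) + 2 + 1)) (2 ^ (2 * (L - l) + 2)) t ((c + 1) * ss l)
        (Nat.pow_lt_pow_right (by norm_num) (by omega))
      have h2 : nM (fun y => y % 2 ^ (2 * (L - l) + 2 + 1) = 2 ^ (2 * (L - l) + 2)) t
          ((c + 1) * ss l) ≤ nM (MS L l) t ((c + 1) * ss l) := by
        apply nM_mono le_rfl le_rfl
        intro y hy1 hy2 hy3
        exact Or.inr ⟨hc.trans (ht1.trans hy1), hy3⟩
      exact lt_of_lt_of_le h1 (Nat.mul_le_mul_left _ (Nat.succ_le_succ h2))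
    · obtain ⟨h12, h | h⟩ := hact
      · obtain ⟨rfl, hp⟩ := h
        have hc0 : c = 0 := by
          by_contra hne
          apply hc
          calc ss l = 1 * ss l := (one_mul _).symm
            _ ≤ c * ss l := Nat.mul_le_mul_right _ (Nat.one_le_iff_ne_zero.2 hne)
        subst hc0
        have := H1top hRes l t (MS l l) (by omega) (fun y h1 h2 h3 => Or.inl ⟨rfl, h1, h2, h3⟩)
          (by simpa using ht2)
        simpa using this
      · exact absurd (child_ge hs h.2) hc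
  H2 := by
    intro l hl c hact hc
    have hs := hTT.2.2.1 l
    have hge : ss L ≤ c * ss l := by
      obtain ⟨h12, h | h⟩ := hact
      · obtain ⟨rfl, hp⟩ := h
        have hne : c ≠ 0 := by
          rintro rfl
          exact hc (Nat.zero_mod _)
        calc ss l = 1 * ss l := (one_mul _).symm
          _ ≤ c * ss l := Nat.mul_le_mul_right _ (Nat.one_le_iff_ne_zero.2 hne)
      · exact child_ge hs h.2
    have h12 : 4 * (L - l) + 12 ≤ tt l := hact.1
    -- the number of places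
    have hw : ss l = 2 ^ (2 * (L - l) + 3 + 1) * 2 ^ (tt l - (2 * (L - l) + 4)) := by
      unfold ss
      rw [← pow_add]
      congr 1
      omega
    have h1 := hRes.2 (2 ^ (2 * (L - l) + 3 + 1)) (2 ^ (2 * (L - l) + 3)) (c * ss l)
      (2 ^ (tt l - (2 * (L - l) + 4))) (Nat.pow_lt_pow_right (by norm_num) (by omega))
    rw [← hw] at h1
    have h2 : nM (fun y => y % 2 ^ (2 * (L - l) + 3 + 1) = 2 ^ (2 * (L - l) + 3)) (c * ss l)
        (c * ss l + ss l) ≤ nM (MU L l) (c * ss l) ((c + 1) * ss l) := by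
      apply nM_mono le_rfl
      · rw [Nat.add_mul, one_mul]
      · intro y hy1 hy2 hy3
        exact ⟨hge.trans hy1, hy3⟩
    rw [h1] at h2
    have h3 : 2 ^ (2 * (L - l) + 5) * 2 ^ (tt l - (2 * (L - l) + 4)) = 2 * ss l := by
      unfold ss
      rw [← pow_add, ← pow_succ']
      congr 1
      omega
    have h4 : 2 ^ (tt l / 2) - 1 + 1 = 2 ^ (tt l / 2) :=
      Nat.sub_add_cancel Nat.one_le_two_pow
    have h5 : 2 ^ (2 * (L - l) + 5) * 2 ^ (tt l / 2) < ss l := by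
      unfold ss
      rw [← pow_add]
      exact Nat.pow_lt_pow_right (by norm_num) (by omega)
    have h6 : 2 ^ (2 * (L - l) + 5) * 2 ^ (tt l - (2 * (L - l) + 4)) ≤
        2 ^ (2 * (L - l) + 5) * nM (MU L l) (c * ss l) ((c + 1) * ss l) :=
      Nat.mul_le_mul_left _ h2
    rw [h3] at h6
    rw [h4]
    omega

private theorem sum_le (L k : ℕ) (hk : k ≤ L) :
    ∑ l ∈ Finset.Ico (L - k) (L + 1), (2 ^ (2 * (L - l) + 2 + 1) + 8 * 2 ^ (2 * (L - l) + 5)) ≤
      2 ^ (2 * k + 10) := by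
  induction k with
  | zero =>
    rw [Nat.sub_zero, Finset.sum_Ico_succ_top le_rfl]
    simp
  | succ k ih =>
    have h1 := ih (by omega)
    rw [Finset.sum_eq_sum_Ico_succ_bot (by omega)]
    have h2 : L - (k + 1) + 1 = L - k := by omega
    have h3 : L - (L - (k + 1)) = k + 1 := by omega
    rw [h2, h3]
    have e1 : 2 ^ (2 * (k + 1) + 2 + 1) = 32 * 2 ^ (2 * k) := by
      rw [show (2 * (k + 1) + 2 + 1) = 2 * k + 5 by ring, pow_add]; ring
    have e2 : 2 ^ (2 * (k + 1) + 5) = 128 * 2 ^ (2 * k) := by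
      rw [show (2 * (k + 1) + 5) = 2 * k + 7 by ring, pow_add]; ring
    have e3 : 2 ^ (2 * (k + 1) + 10) = 4096 * 2 ^ (2 * k) := by
      rw [show (2 * (k + 1) + 10) = 2 * k + 12 by ring, pow_add]; ring
    have e4 : 2 ^ (2 * k + 10) = 1024 * 2 ^ (2 * k) := by
      rw [pow_add]; ring
    rw [e4] at h1
    rw [e1, e2, e3]
    omega

theorem tP2 (h1 : S_TT) (h2 : S_Res) : S_P2 := by
  intro L
  refine ⟨Pm h1 h2 L, rfl, ?_, ?_⟩
  · intro l hl y hy hM
    have hy' : y < ss (L + 1) := hy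
    unfold mList
    rw [List.mem_filter, List.mem_range, decide_eq_true_iff]
    refine ⟨hy', ?_⟩
    rcases hM with (⟨_, h3, h4, h5⟩ | ⟨h3, h4⟩) | ⟨h3, h4⟩
    · exact Or.inl ⟨h3, h4, h5⟩
    · exact Or.inr ⟨h3, mod_four (by omega) h4⟩
    · exact Or.inr ⟨h3, mod_four (by omega) h4⟩
  · intro e he
    unfold C2 at he
    rw [List.mem_flatMap] at he
    obtain ⟨k, hk, he⟩ := he
    rw [List.mem_range] at hk
    by_cases hc : 4 * k + 12 ≤ tt (L - k)
    swap
    · rw [if_neg hc] at he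
      simp at he
    rw [if_pos hc, List.mem_map] at he
    obtain ⟨n, hn, rfl⟩ := he
    rw [List.mem_filter, List.mem_range, decide_eq_true_iff] at hn
    obtain ⟨hn1, hn2, hn3⟩ := hn
    refine ⟨hn1, L - k, (Nat.sub_le _ _).trans (Nat.le_succ L), ?_, ?_⟩
    · intro l hl1 hl2
      have hl2' : l < L + 1 := hl2
      have h3 : tt (L - k) ≤ tt l := h1.1.monotone hl1
      refine ⟨by omega, ?_⟩
      rcases Nat.lt_or_ge l L with h4 | h4
      · right
        refine ⟨h4, ?_⟩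
        obtain ⟨q, hq⟩ := h1.2.2.2.1 (l + 1) L h4
        show ss L ≤ n / ss (l + 1) * ss (l + 1)
        have h5 : q ≤ n / ss (l + 1) := by
          refine (Nat.le_div_iff_mul_le (show 0 < ss (l + 1) from Nat.two_pow_pos _)).2 ?_
          rw [Nat.mul_comm, ← hq]
          exact hn2
        calc ss L = q * ss (l + 1) := by rw [hq, Nat.mul_comm]
          _ ≤ n / ss (l + 1) * ss (l + 1) := Nat.mul_le_mul_right _ h5
      · left
        have h5 : l = L := by omega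
        refine ⟨h5, ?_⟩
        show n / ss (l + 1) = 0
        rw [h5]
        exact Nat.div_eq_of_lt hn1
    · show n % ss (L - k) + ∑ l ∈ Finset.Ico (L - k) (L + 1),
        (2 ^ (2 * (L - l) + 2 + 1) + 8 * 2 ^ (2 * (L - l) + 5)) ≤ 2 ^ (2 * k + 10)
      rw [hn3, Nat.zero_add]
      exact sum_le L k (by omega)

end Pool.Agent.D9b
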