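import Pool.Agent.Lib.MP_d9c039_lc.V2.Spec

set_option autoImplicit false

/-!
# MP_d9c039_lc, second machine: the set of lengths is decidable
-/

namespace Pool.Agent.D9b

private theorem pow2_primrec : Primrec (fun n : ℕ => 2 ^ n) := by
  refine (Primrec.nat_rec₁ (f := fun _ r : ℕ => 2 * r) 1
    (Primrec.nat_mul.comp (Primrec.const 2) Primrec.snd)).of_eq ?_
  intro n
  induction n with
  | zero => rfl
  | succ n ih =>
    show 2 * _ = _
    rw [pow_succ, mul_comm]
    exact congrArg (fun x => x * 2) ih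

private theorem tt_primrec : Primrec tt := by
  refine (Primrec.nat_rec₁ (f := fun _ r : ℕ => r + (2 ^ (r / 2) - 1)) 2
    (Primrec.nat_add.comp Primrec.snd (Primrec.nat_sub.comp
      (pow2_primrec.comp (Primrec.nat_div.comp Primrec.snd (Primrec.const 2)))
      (Primrec.const 1)))).of_eq ?_
  intro n
  induction n with
  | zero => rfl
  | succ n ih =>
    show _ + (2 ^ (_ / 2) - 1) = _
    rw [tt]
    exact congrArg (fun r => r + (2 ^ (r / 2) - 1)) ih

private theorem ss_primrec : Primrec ss := pow2_primrec.comp tt_primrec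

theorem tS2C (h1 : S_TT) : S_S2C := by
  obtain ⟨-, -, -, -, -, hlt, -⟩ := h1
  have hR : PrimrecRel (fun (x : ℕ) (t : ℕ × ℕ) =>
      t.1 + 1 ≤ x ∧ ss x ≤ t.2 ∧ t.2 < ss (x + 1) ∧ t.2 % ss (x - (t.1 + 1)) = 0) := by
    have e1 : Primrec (fun p : ℕ × (ℕ × ℕ) => p.2.1 + 1) :=
      Primrec.succ.comp (Primrec.fst.comp Primrec.snd)
    have e2 : Primrec (fun p : ℕ × (ℕ × ℕ) => p.2.2) := Primrec.snd.comp Primrec.snd
    have e3 : Primrec (fun p : ℕ × (ℕ × ℕ) => p.1) := Primrec.fst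
    exact (Primrec.nat_le.comp e1 e3).and ((Primrec.nat_le.comp (ss_primrec.comp e3) e2).and
      ((Primrec.nat_lt.comp e2 (ss_primrec.comp (Primrec.succ.comp e3))).and
      (Primrec.eq.comp (Primrec.nat_mod.comp e2 (ss_primrec.comp (Primrec.nat_sub.comp e3 e1)))
        (Primrec.const 0))))
  have h2 : PrimrecPred (fun t : ℕ × ℕ => ∃ x < t.2 + 1,
      t.1 + 1 ≤ x ∧ ss x ≤ t.2 ∧ t.2 < ss (x + 1) ∧ t.2 % ss (x - (t.1 + 1)) = 0) := by
    have h3 := PrimrecRel.exists_mem_list hR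
    refine (h3.comp (f := fun t : ℕ × ℕ => List.range (t.2 + 1)) (g := fun t : ℕ × ℕ => t)
      (Primrec.list_range.comp (Primrec.succ.comp Primrec.snd)) Primrec.id).of_eq ?_
    intro t
    simp only [List.mem_range]
  refine (h2.of_eq ?_).computablePred
  rintro ⟨k, n⟩
  constructor
  · rintro ⟨x, -, hx⟩
    exact ⟨x, hx⟩
  · rintro ⟨x, hx⟩
    exact ⟨x, Nat.lt_succ_of_le ((hlt x).le.trans hx.2.1), hx⟩

end Pool.Agent.D9b
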