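import Pool.Agent.Lib.MP_d9c039_lc.V2.Defs

set_option autoImplicit false

/-!
# MP_d9c039_lc, second machine: basic lemmas
-/

namespace Pool.Agent.D9b

open Pool.Agent.D9 (LS cnt resp tabS nplays)

/-- the A-events of a history, newest first -/
def plH (h : List (Bool × ℕ)) : List ℕ := (h.filter (fun e => !e.1)).map Prod.snd

theorem pl_eq (G : GS) : G.pl = plH G.hist := rfl

@[simp] theorem plH_nil : plH [] = [] := rfl
@[simp] theorem plH_cons_A (x : ℕ) (h : List (Bool × ℕ)) : plH ((false, x) :: h) = x :: plH h := rfl
@[simp] theorem plH_cons_D (y : ℕ) (h : List (Bool × ℕ)) : plH ((true, y) :: h) = plH h := rfl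

@[simp] theorem pendL_nil (a b : ℕ) : pendL a b [] = [] := rfl

theorem pendL_D (a b z : ℕ) (h : List (Bool × ℕ)) :
    pendL a b ((true, z) :: h) = if z < b then [] else pendL a b h := rfl

theorem pendL_A (a b z : ℕ) (h : List (Bool × ℕ)) :
    pendL a b ((false, z) :: h) = if a ≤ z ∧ z < b then z :: pendL a b h else pendL a b h := rfl

theorem drn_D (n z : ℕ) (h : List (Bool × ℕ)) :
    drn n ((true, z) :: h) = if z < n then drn n h + 1 else drn n h := rfl

theorem drn_A (n z : ℕ) (h : List (Bool × ℕ)) :
    drn n ((false, z) :: h) = if z < n then 0 else drn n h := rfl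

/-- `pendL a b h` is a sublist of the A-events -/
theorem pendL_sublist (a b : ℕ) (h : List (Bool × ℕ)) : (pendL a b h).Sublist (plH h) := by
  induction h with
  | nil => exact List.Sublist.refl _
  | cons e h ih =>
    obtain ⟨m, z⟩ := e
    cases m
    · rw [pendL_A, plH_cons_A]
      split_ifs
      · exact ih.cons_cons z
      · exact ih.cons z
    · rw [pendL_D, plH_cons_D]
      split_ifs
      · exact List.nil_sublist _
      · exact ih

theorem pendL_range (a b : ℕ) (h : List (Bool × ℕ)) (x : ℕ) (hx : x ∈ pendL a b h) :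
    a ≤ x ∧ x < b := by
  induction h with
  | nil => simp at hx
  | cons e h ih =>
    obtain ⟨m, z⟩ := e
    cases m
    · rw [pendL_A] at hx
      split_ifs at hx with h1
      · rcases List.mem_cons.mp hx with h2 | h2
        · rw [h2]; exact h1
        · exact ih h2
      · exact ih hx
    · rw [pendL_D] at hx
      split_ifs at hx with h1
      · simp at hx
      · exact ih hx

theorem pendL_mem_pl (a b : ℕ) (h : List (Bool × ℕ)) (x : ℕ) (hx : x ∈ pendL a b h) :
    x ∈ plH h := (pendL_sublist a b h).subset hx

/-- raising the left end -/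
theorem pendL_filter (a a' b : ℕ) (h : List (Bool × ℕ)) (haa : a ≤ a') :
    pendL a' b h = (pendL a b h).filter (fun x => decide (a' ≤ x)) := by
  induction h with
  | nil => rfl
  | cons e h ih =>
    obtain ⟨m, z⟩ := e
    cases m
    · rw [pendL_A, pendL_A]
      by_cases h1 : a' ≤ z ∧ z < b
      · rw [if_pos h1, if_pos ⟨haa.trans h1.1, h1.2⟩, List.filter_cons_of_pos (by simpa using h1.1),
          ih]
      · rw [if_neg h1]
        by_cases h2 : a ≤ z ∧ z < b
        · rw [if_pos h2, List.filter_cons_of_neg (by
            simp only [decide_eq_true_eq]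
            intro h3
            exact h1 ⟨h3, h2.2⟩), ih]
        · rw [if_neg h2, ih]
    · rw [pendL_D, pendL_D]
      by_cases h1 : z < b
      · rw [if_pos h1, if_pos h1]; rfl
      · rw [if_neg h1, if_neg h1, ih]

/-- lowering the right end: the pending events `< b` for the cut `b'` are pending for `b` -/
theorem pendL_lower (a b b' : ℕ) (h : List (Bool × ℕ)) (hbb : b ≤ b') :
    ((pendL a b' h).filter (fun x => decide (x < b))).Sublist (pendL a b h) := by
  induction h with
  | nil => exact List.Sublist.refl _
  | cons e h ih =>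
    obtain ⟨m, z⟩ := e
    cases m
    · rw [pendL_A, pendL_A]
      by_cases h1 : a ≤ z ∧ z < b
      · rw [if_pos h1, if_pos ⟨h1.1, h1.2.trans_le hbb⟩,
          List.filter_cons_of_pos (by simpa using h1.2)]
        exact ih.cons_cons z
      · rw [if_neg h1]
        by_cases h2 : a ≤ z ∧ z < b'
        · rw [if_pos h2, List.filter_cons_of_neg (by
            simp only [decide_eq_true_eq]
            intro h3
            exact h1 ⟨h2.1, h3⟩)]
          exact ih
        · rw [if_neg h2]
          exact ih
    · rw [pendL_D, pendL_D]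
      by_cases h1 : z < b'
      · rw [if_pos h1]
        exact List.nil_sublist _
      · rw [if_neg h1, if_neg (fun h2 => h1 (h2.trans_le hbb))]
        exact ih

@[simp] theorem pendL_self (a : ℕ) (h : List (Bool × ℕ)) : pendL a a h = [] := by
  rw [List.eq_nil_iff_forall_not_mem]
  intro x hx
  have := pendL_range a a h x hx
  omega

/-- the events of `[a, b)` pending for the cut `b` split at `m` -/
theorem pendL_split_length (a m b : ℕ) (h : List (Bool × ℕ)) (h1 : a ≤ m) (h2 : m ≤ b) :
    (pendL a b h).length ≤ (pendL a m h).length + (pendL m b h).length := by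
  have h3 := (pendL_lower a m b h h2).length_le
  have h4 := pendL_filter a m b h h1
  have h5 : (pendL a b h).length = ((pendL a b h).filter (fun x => decide (x < m))).length +
      ((pendL a b h).filter (fun x => decide (m ≤ x))).length := by
    generalize pendL a b h = L
    induction L with
    | nil => rfl
    | cons z L ih =>
      by_cases h6 : z < m
      · rw [List.filter_cons_of_pos (by simpa using h6),
          List.filter_cons_of_neg (by simpa using h6)]
        simp only [List.length_cons]
        omega
      · rw [List.filter_cons_of_neg (by simpa using h6),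
          List.filter_cons_of_pos (by simpa using h6)]
        simp only [List.length_cons]
        omega
  rw [h4]
  omega

/-- a pending event `< n ≤ b` for the cut `b`: there is no mark `< n` after the last A-event
`< n` -/
theorem drn_of_pend (a b n x : ℕ) (h : List (Bool × ℕ)) (hx : x ∈ pendL a b h) (hn : x < n)
    (hb : n ≤ b) : drn n h = 0 := by
  induction h with
  | nil => simp at hx
  | cons e h ih =>
    obtain ⟨m, z⟩ := e
    cases m
    · rw [drn_A]
      split_ifs with h1
      · rfl
      · apply ih
        rw [pendL_A] at hx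
        split_ifs at hx with h2
        · rcases List.mem_cons.mp hx with h3 | h3
          · omega
          · exact h3
        · exact hx
    · rw [pendL_D] at hx
      split_ifs at hx with h1
      · simp at hx
      · rw [drn_D, if_neg (by omega)]
        exact ih hx

theorem countP_range_le (L : List ℕ) (hL : L.Nodup) (a b : ℕ) :
    L.countP (fun x => decide (a ≤ x ∧ x < b)) ≤ b - a := by
  rw [List.countP_eq_length_filter]
  have h1 : (L.filter (fun x => decide (a ≤ x ∧ x < b))).Subperm (List.range' a (b - a)) := by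
    apply List.subperm_of_subset (hL.filter _)
    intro x hx
    simp only [List.mem_filter, decide_eq_true_eq] at hx
    rw [List.mem_range'_1]
    omega
  have h2 := h1.length_le
  rwa [List.length_range'] at h2

theorem pendL_length_le (a b : ℕ) (h : List (Bool × ℕ)) (hn : (plH h).Nodup) :
    (pendL a b h).length ≤ b - a := by
  have h1 : (pendL a b h).Nodup := hn.sublist (pendL_sublist a b h)
  have h2 := countP_range_le _ h1 a b
  rw [List.countP_eq_length.mpr (by
    intro x hx
    have := pendL_range a b h x hx
    simpa using this)] at h2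
  exact h2

/-! ### blocks -/

theorem Par.div_succ (P : Par) (l : ℕ) (hl : l < P.d) (x : ℕ) :
    x / P.s (l + 1) = x / P.s l / 2 ^ (P.a l) := by
  rw [P.hs l hl, Nat.div_div_eq_div_mul]

theorem Par.div_up (P : Par) (x y l l' : ℕ) (hll : l ≤ l') (hl' : l' ≤ P.d)
    (h : x / P.s l = y / P.s l) : x / P.s l' = y / P.s l' := by
  induction l' with
  | zero =>
    have : l = 0 := by omega
    rwa [this] at h
  | succ l' ih =>
    rcases Nat.lt_or_ge l' l with h1 | h1
    · have h2 : l = l' + 1 := by omega
      rwa [h2] at h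
    · rw [P.div_succ l' (by omega), P.div_succ l' (by omega), ih h1 (by omega)]

theorem Par.mem_block (P : Par) (l x c : ℕ) :
    x / P.s l = c ↔ c * P.s l ≤ x ∧ x < (c + 1) * P.s l := by
  have h0 := P.hs0 l
  constructor
  · rintro rfl
    exact ⟨Nat.div_mul_le_self _ _, Nat.lt_succ_mul_div_succ_aux x (P.s l) h0⟩
  · rintro ⟨h1, h2⟩
    apply le_antisymm
    · exact Nat.lt_succ_iff.mp ((Nat.div_lt_iff_lt_mul h0).mpr h2)
    · exact (Nat.le_div_iff_mul_le h0).mpr h1
where
  Nat.lt_succ_mul_div_succ_aux (x m : ℕ) (h0 : 0 < m) : x < (x / m + 1) * m := by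
    have := Nat.div_add_mod x m
    have h2 := Nat.mod_lt x h0
    nlinarith

/-- a child of the parent `p` -/
theorem Par.mem_parent (P : Par) (l c p : ℕ) :
    c / 2 ^ (P.a l) = p ↔ p * 2 ^ (P.a l) ≤ c ∧ c < (p + 1) * 2 ^ (P.a l) := by
  have h0 : 0 < 2 ^ (P.a l) := pow_pos (by norm_num) _
  constructor
  · rintro rfl
    refine ⟨Nat.div_mul_le_self _ _, ?_⟩
    have := Nat.div_add_mod c (2 ^ (P.a l))
    have h2 := Nat.mod_lt c h0
    nlinarith
  · rintro ⟨h1, h2⟩
    apply le_antisymm
    · exact Nat.lt_succ_iff.mp ((Nat.div_lt_iff_lt_mul h0).mpr h2)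
    · exact (Nat.le_div_iff_mul_le h0).mpr h1

/-! ### the events -/

@[simp] theorem addA_hist (P : Par) (G : GS) (x : ℕ) :
    (G.addA P x).hist = (false, x) :: G.hist := rfl
@[simp] theorem addA_mks (P : Par) (G : GS) (x : ℕ) : (G.addA P x).mks = G.mks := rfl
@[simp] theorem addA_ms (P : Par) (G : GS) (x : ℕ) : (G.addA P x).ms = G.ms := rfl
@[simp] theorem addA_pl (P : Par) (G : GS) (x : ℕ) : (G.addA P x).pl = x :: G.pl := rfl
@[simp] theorem addD_hist (P : Par) (G : GS) (y lam : ℕ) (u : Bool) :
    (G.addD P y lam u).hist = (true, y) :: G.hist := rfl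
@[simp] theorem addD_mks (P : Par) (G : GS) (y lam : ℕ) (u : Bool) :
    (G.addD P y lam u).mks = (y, lam, u) :: G.mks := rfl
@[simp] theorem addD_ms (P : Par) (G : GS) (y lam : ℕ) (u : Bool) :
    (G.addD P y lam u).ms = y :: G.ms := rfl
@[simp] theorem addD_pl (P : Par) (G : GS) (y lam : ℕ) (u : Bool) :
    (G.addD P y lam u).pl = G.pl := rfl

theorem addA_st (P : Par) (G : GS) (x l p : ℕ) :
    (G.addA P x).st l p =
      if x / P.s (l + 1) = p then (G.st l p).add ((p + 1) * 2 ^ (P.a l)) (x / P.s l)
      else G.st l p := rfl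

theorem addD_st (P : Par) (G : GS) (y lam : ℕ) (u : Bool) (l p : ℕ) :
    (G.addD P y lam u).st l p =
      if p < y / P.s (l + 1) then G.st l p
      else if p = y / P.s (l + 1) ∧ l = lam ∧ u = true then (G.st l p).resp (y / P.s l)
      else (G.st l p).fire (max (y / P.s l) (p * 2 ^ (P.a l))) := rfl

theorem addA_nA (P : Par) (G : GS) (x a b : ℕ) :
    (G.addA P x).nA a b = G.nA a b + (if a ≤ x ∧ x < b then 1 else 0) := by
  unfold GS.nA
  rw [addA_pl, List.countP_cons]
  simp only [decide_eq_true_eq]

theorem addD_nA (P : Par) (G : GS) (y lam : ℕ) (u : Bool) (a b : ℕ) :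
    (G.addD P y lam u).nA a b = G.nA a b := rfl

theorem addA_nD (P : Par) (G : GS) (x l : ℕ) (v : Bool) (a b : ℕ) :
    (G.addA P x).nD l v a b = G.nD l v a b := rfl

theorem addD_nD (P : Par) (G : GS) (y lam : ℕ) (u : Bool) (l : ℕ) (v : Bool) (a b : ℕ) :
    (G.addD P y lam u).nD l v a b = G.nD l v a b +
      (if a ≤ y ∧ y < b ∧ lam = l ∧ u = v then 1 else 0) := by
  unfold GS.nD
  rw [addD_mks, List.countP_cons]
  simp only [decide_eq_true_eq]

theorem nA_le (G : GS) (h : G.pl.Nodup) (a b : ℕ) : G.nA a b ≤ b - a :=
  countP_range_le _ h a b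

end Pool.Agent.D9b
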