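import Pool.Agent.Lib.MP_d9c039_lc.Spec

set_option autoImplicit false

/-!
# MP_d9c039_lc, second machine: definitions

The board is `[0, s d)`, cut into aligned blocks of level `l` (length `s l`); block `q` of level `l`
is `{x | x / s l = q}`.  A parent of level `l` is a block `p` of level `l + 1`, its children are the
blocks `q` of level `l` with `q / 2 ^ (a l) = p`.  Events: A-events (numbers enumerated into `A`) and
marks (even numbers enumerated into `D`).  A mark has a level and a type (`false`: self request,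
`true`: request of type U).
-/

namespace Pool.Agent.D9b

open Pool.Agent.D9 (LS)

open Classical in
/-- the number of the places of `M` in `[a, b)` -/
noncomputable def nM (M : ℕ → Prop) (a b : ℕ) : ℕ := ((Finset.Ico a b).filter M).card

/-- The parameters of a board.  `act l p`: the parent `p` of level `l` is active.  `MS l`, `MU l`:
the places of the marks of level `l` of the types self and U. -/
structure Par where
  d : ℕ
  s : ℕ → ℕ
  a : ℕ → ℕ
  k : ℕ → ℕ
  g : ℕ → ℕ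
  act : ℕ → ℕ → Prop
  MS : ℕ → ℕ → Prop
  MU : ℕ → ℕ → Prop
  hs0 : ∀ l, 0 < s l
  hs : ∀ l < d, s (l + 1) = s l * 2 ^ (a l)
  hk : ∀ l, 0 < k l ∧ k l ≤ g l
  hSS : ∀ l < d, ∀ l' < d, ∀ y, MS l y → MS l' y → l = l'
  hUU : ∀ l < d, ∀ l' < d, ∀ y, MU l y → MU l' y → l = l'
  hSU : ∀ l < d, ∀ l' < d, ∀ y, MS l y → ¬ MU l' y
  H1 : ∀ l < d, ∀ c, act l (c / 2 ^ (a l)) → ∀ t, c * s l ≤ t → t ≤ (c + 1) * s l →
    (c + 1) * s l - t < k l * (nM (MS l) t ((c + 1) * s l) + 1)
  H2 : ∀ l < d, ∀ c, act l (c / 2 ^ (a l)) → c % 2 ^ (a l) ≠ 0 →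
    s l + g l * (a l + 1) < g l * nM (MU l) (c * s l) ((c + 1) * s l)

/-- Global state.  `st l p`: state of the parent `p` of level `l`.  `mks`: the marks with level and
type, newest first.  `hist`: all events, newest first, `(false, x)` an A-event, `(true, y)` a
mark. -/
structure GS where
  st : ℕ → ℕ → LS
  mks : List (ℕ × ℕ × Bool)
  hist : List (Bool × ℕ)

/-- initial state -/
def GS.init : GS := ⟨fun _ _ => LS.empty, [], []⟩

/-- the A-events, newest first -/
def GS.pl (G : GS) : List ℕ := (G.hist.filter (fun e => !e.1)).map Prod.snd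

/-- the places of the marks -/
def GS.ms (G : GS) : List ℕ := G.mks.map Prod.fst

/-- the pending A-events of `[a, b)`: those after the last mark `< b` -/
def pendL (a b : ℕ) : List (Bool × ℕ) → List ℕ
  | [] => []
  | (true, z) :: t => if z < b then [] else pendL a b t
  | (false, z) :: t => if a ≤ z ∧ z < b then z :: pendL a b t else pendL a b t

/-- the number of marks `< n` after the last A-event `< n` -/
def drn (n : ℕ) : List (Bool × ℕ) → ℕ
  | [] => 0
  | (true, z) :: t => if z < n then drn n t + 1 else drn n t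
  | (false, z) :: t => if z < n then 0 else drn n t

/-- new A-event `x` -/
def GS.addA (P : Par) (G : GS) (x : ℕ) : GS where
  st := fun l p =>
    if x / P.s (l + 1) = p then (G.st l p).add ((p + 1) * 2 ^ (P.a l)) (x / P.s l) else G.st l p
  mks := G.mks
  hist := (false, x) :: G.hist

/-- new mark `y` of level `lam` and type `u`: a parent to the left of `y` is not changed, in the
parent around `y` the alive A-events of the children `≥ y / s l` die, in a parent to the right of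
`y` all alive A-events die -/
def GS.addD (P : Par) (G : GS) (y lam : ℕ) (u : Bool) : GS where
  st := fun l p =>
    if p < y / P.s (l + 1) then G.st l p
    else if p = y / P.s (l + 1) ∧ l = lam ∧ u = true then (G.st l p).resp (y / P.s l)
    else (G.st l p).fire (max (y / P.s l) (p * 2 ^ (P.a l)))
  mks := (y, lam, u) :: G.mks
  hist := (true, y) :: G.hist

/-- self violation of the child `c` of level `l` -/
def GS.SV (P : Par) (G : GS) (l c : ℕ) : Prop :=
  P.act l (c / 2 ^ (P.a l)) ∧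
    P.k l ≤ (pendL (c * P.s l) ((c + 1) * P.s l) G.hist).length

/-- violation of type U of the parent `p` of level `l` at the boundary `j` -/
def GS.UV (P : Par) (G : GS) (l p j : ℕ) : Prop :=
  P.act l p ∧ (G.st l p).Viol (8 * P.g l) j

/-- no violation at level `l` -/
def GS.Cln (P : Par) (G : GS) (l : ℕ) : Prop :=
  (∀ c, ¬ G.SV P l c) ∧ ∀ p j, ¬ G.UV P l p j

/-- `y` is the nearest free place of `MS lam` above the least pending A-event of the child `c` -/
def GS.Near (P : Par) (G : GS) (lam c y : ℕ) : Prop :=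
  P.MS lam y ∧ y ∉ G.ms ∧ y / P.s lam = c ∧
    ∃ x1 ∈ pendL (c * P.s lam) ((c + 1) * P.s lam) G.hist,
      (∀ z ∈ pendL (c * P.s lam) ((c + 1) * P.s lam) G.hist, x1 ≤ z) ∧ x1 ≤ y ∧
      ∀ z, x1 ≤ z → z < y → P.MS lam z → z ∈ G.ms

/-- `y` is an answer to the violation of type U of the parent `p` of level `lam` at `j` -/
def GS.AnsU (P : Par) (G : GS) (lam p j y : ℕ) : Prop :=
  P.MU lam y ∧ y ∉ G.ms ∧ y / P.s (lam + 1) = p ∧
    ∃ e0 ∈ (G.st lam p).al, e0.1 < j ∧ j ≤ e0.2 ∧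
      (G.st lam p).Req (P.g lam) 1 (8 * P.g lam) e0.1 j (y / P.s lam)

/-- `G` is the state just after the A-event `x`; `r` is a legal response of `D` -/
def Valid (P : Par) (G : GS) (x : ℕ) : Option (ℕ × ℕ × Bool) → Prop
  | none => ∀ l < P.d, G.Cln P l
  | some (y, lam, false) =>
      lam < P.d ∧ (∀ l < lam, G.Cln P l) ∧ G.SV P lam (x / P.s lam) ∧ G.Near P lam (x / P.s lam) y
  | some (y, lam, true) =>
      lam < P.d ∧ (∀ l < lam, G.Cln P l) ∧ (∀ c, ¬ G.SV P lam c) ∧
      P.act lam (x / P.s (lam + 1)) ∧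
      ∃ j, x / P.s lam < j ∧ j ≤ (x / P.s (lam + 1) + 1) * 2 ^ (P.a lam) ∧
        (∀ j' < j, ¬ G.UV P lam (x / P.s (lam + 1)) j') ∧ G.AnsU P lam (x / P.s (lam + 1)) j y

/-- apply a response -/
def GS.app (P : Par) (G : GS) : Option (ℕ × ℕ × Bool) → GS
  | none => G
  | some r => G.addD P r.1 r.2.1 r.2.2

/-- the number of A-events in `[a, b)` -/
def GS.nA (G : GS) (a b : ℕ) : ℕ := G.pl.countP (fun x => decide (a ≤ x ∧ x < b))

/-- the number of marks in `[a, b)` of level `l` and type `u` -/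
def GS.nD (G : GS) (l : ℕ) (u : Bool) (a b : ℕ) : ℕ :=
  G.mks.countP (fun e => decide (a ≤ e.1 ∧ e.1 < b ∧ e.2.1 = l ∧ e.2.2 = u))

/-- The invariant of the global state (after complete rounds). -/
structure GInv (P : Par) (G : GS) : Prop where
  nodup : G.pl.Nodup
  lt : ∀ x ∈ G.pl, x < P.s P.d
  pot : ∀ l < P.d, ∀ p, P.act l p →
    (G.st l p).Inv (P.g l) 1 (p * 2 ^ (P.a l)) ((p + 1) * 2 ^ (P.a l))
  link : ∀ l < P.d, ∀ p, P.act l p → ∀ i j, p * 2 ^ (P.a l) ≤ i → i ≤ j →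
    j ≤ (p + 1) * 2 ^ (P.a l) →
    (G.st l p).al.countP (fun e => decide (i ≤ e.1 ∧ e.1 < j ∧ j ≤ e.2)) =
      (pendL (i * P.s l) (j * P.s l) G.hist).length
  cln : ∀ l < P.d, G.Cln P l
  kle : ∀ l < P.d, ∀ c, P.act l (c / 2 ^ (P.a l)) →
    (G.st l (c / 2 ^ (P.a l))).k c + (G.st l (c / 2 ^ (P.a l))).inChild c
      ≤ G.nA (c * P.s l) ((c + 1) * P.s l)
  fcount : ∀ l < P.d, ∀ c, P.act l (c / 2 ^ (P.a l)) →
    (G.st l (c / 2 ^ (P.a l))).f c = G.nD l true (c * P.s l) ((c + 1) * P.s l)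
  pack : ∀ l < P.d, ∀ c, P.act l (c / 2 ^ (P.a l)) → ∀ t, c * P.s l ≤ t → t ≤ (c + 1) * P.s l →
    (t = c * P.s l ∨ (P.MS l (t - 1) ∧ t - 1 ∉ G.ms)) →
    P.k l * G.nD l false t ((c + 1) * P.s l) + (pendL t ((c + 1) * P.s l) G.hist).length ≤
      G.nA t ((c + 1) * P.s l)
  mkp : ∀ e ∈ G.mks, e.1 < P.s P.d ∧ e.2.1 < P.d ∧ P.act e.2.1 (e.1 / P.s (e.2.1 + 1)) ∧
    (e.2.2 = true → P.MU e.2.1 e.1) ∧ (e.2.2 = false → P.MS e.2.1 e.1)
  mk_nodup : G.ms.Nodup
  mk_hist : G.ms = (G.hist.filter (fun e => e.1)).map Prod.snd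

/-- the reachable states (after complete rounds) -/
inductive Reach (P : Par) : GS → Prop
  | init : Reach P GS.init
  | step (G : GS) (x : ℕ) (r : Option (ℕ × ℕ × Bool)) : Reach P G → x < P.s P.d → x ∉ G.pl →
      Valid P (G.addA P x) x r → Reach P ((G.addA P x).app P r)

/-- `σ` is a good strategy for the board `[0, S)` with the places `M` and the list `C` of cuts with
bounds -/
def LGood (S : ℕ) (M : List ℕ) (C : List (ℕ × ℕ)) (σ : List ℕ → Option ℕ) : Prop :=
  ∀ p : List ℕ, p.Nodup → (∀ x ∈ p, x < S) →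
    (∀ y, σ p = some y → p ≠ [] →
      y ∈ M ∧ y ∉ Pool.Agent.D9.resp σ (p.take (p.length - 1))) ∧
    ∀ i ≤ p.length,
      (∀ e ∈ C, Pool.Agent.D9.cnt (Pool.Agent.D9.resp σ (p.take i)) e.1 =
          Pool.Agent.D9.cnt (Pool.Agent.D9.resp σ p) e.1 →
        Pool.Agent.D9.cnt p e.1 ≤ Pool.Agent.D9.cnt (p.take i) e.1 + e.2) ∧
      (∀ n ≤ S, Pool.Agent.D9.cnt (p.take i) n = Pool.Agent.D9.cnt p n →
        Pool.Agent.D9.cnt (Pool.Agent.D9.resp σ p) n ≤
          Pool.Agent.D9.cnt (Pool.Agent.D9.resp σ (p.take i)) n + 1)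

/-- the check of a table on one play -/
def LChk1 (S : ℕ) (M : List ℕ) (C : List (ℕ × ℕ)) (T : List (List ℕ × ℕ)) (p : List ℕ) : Prop :=
  (∀ y ∈ (Pool.Agent.D9.tabS T p).toList, p ≠ [] →
      y ∈ M ∧ y ∉ Pool.Agent.D9.resp (Pool.Agent.D9.tabS T) (p.take (p.length - 1))) ∧
  ∀ i < p.length + 1,
    (∀ e ∈ C, Pool.Agent.D9.cnt (Pool.Agent.D9.resp (Pool.Agent.D9.tabS T) (p.take i)) e.1 =
        Pool.Agent.D9.cnt (Pool.Agent.D9.resp (Pool.Agent.D9.tabS T) p) e.1 →
      Pool.Agent.D9.cnt p e.1 ≤ Pool.Agent.D9.cnt (p.take i) e.1 + e.2) ∧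
    (∀ n < S + 1, Pool.Agent.D9.cnt (p.take i) n = Pool.Agent.D9.cnt p n →
      Pool.Agent.D9.cnt (Pool.Agent.D9.resp (Pool.Agent.D9.tabS T) p) n ≤
        Pool.Agent.D9.cnt (Pool.Agent.D9.resp (Pool.Agent.D9.tabS T) (p.take i)) n + 1)

/-- the finite check of a table -/
def LChk (S : ℕ) (M : List ℕ) (C : List (ℕ × ℕ)) (T : List (List ℕ × ℕ)) : Prop :=
  ∀ p ∈ Pool.Agent.D9.nplays S S, LChk1 S M C T p

/-- the places of the marks of the board `[0, S')` with first child `[0, S)` -/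
def mList (S S' : ℕ) : List ℕ :=
  (List.range S').filter (fun y => decide ((y < S ∧ S ≤ 2 * y ∧ y % 4 = 2) ∨ (S ≤ y ∧ y % 4 = 0)))

/-- the input of the board `[0, S)` at stage `t`: the A-events `< S` which were enumerated after
stage `L` -/
def feed (a : ℕ → List ℕ) (S L t : ℕ) : List ℕ :=
  ((a t).drop (a L).length).filter (fun x => decide (x < S))

/-- all marks at stage `t`; board `L` is `[0, Sz (L + 1))` -/
def allM (Sz : ℕ → ℕ) (σ : ℕ → List ℕ → Option ℕ) (a : ℕ → List ℕ) (t : ℕ) : List ℕ :=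
  (List.range t).flatMap (fun L => Pool.Agent.D9.resp (σ L) (feed a (Sz (L + 1)) L t))

/-- exponents of the sizes -/
def tt : ℕ → ℕ
  | 0 => 2
  | l + 1 => tt l + (2 ^ (tt l / 2) - 1)

/-- the sizes of the boards -/
def ss (l : ℕ) : ℕ := 2 ^ tt l

/-- cuts with bounds for the theorem on iterated logarithms -/
def C2 (L : ℕ) : List (ℕ × ℕ) :=
  (List.range (L + 1)).flatMap (fun k =>
    if 4 * k + 12 ≤ tt (L - k) then
      ((List.range (ss (L + 1))).filter
        (fun n => decide (ss L ≤ n ∧ n % ss (L - k) = 0))).map (fun n => (n, 2 ^ (2 * k + 10)))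
    else [])

/-- the lengths for the theorem on iterated logarithms -/
def S2 (k : ℕ) : Set ℕ :=
  {n | ∃ L, k + 1 ≤ L ∧ ss L ≤ n ∧ n < ss (L + 1) ∧ n % ss (L - (k + 1)) = 0}

/-- the number `e` for the second theorem: `2 (L + 2) < 2 ^ ee L ≤ 4 (L + 2)` -/
def ee (L : ℕ) : ℕ := Nat.log 2 (2 * (L + 2)) + 1

/-- the bound for the second theorem -/
def rr (L : ℕ) : ℕ := 2 ^ (2 * ee L + 9) + (L + 2) * (2 ^ (ee L + 2) + 8 * 2 ^ (ee L + 3))

/-- cuts with bounds for the second theorem -/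
def C1 (L : ℕ) : List (ℕ × ℕ) :=
  if 2 * ee L + 8 ≤ tt L then
    ((List.range (ss (L + 1))).filter (fun n => decide (ss L ≤ n))).map (fun n => (n, rr L))
  else []

end Pool.Agent.D9b
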