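import Pool.Agent.Lib.MP_d9c039_lc.V2.Spec

set_option autoImplicit false

/-!
# MP_d9c039_lc, second machine: the gaps of the lengths are at most the iterated logarithm
-/

namespace Pool.Agent.D9b

private theorem gap_tt_succ (l : ℕ) : tt (l + 1) = tt l + (2 ^ (tt l / 2) - 1) := rfl

/-- One step of the logarithm. -/
private theorem gap_half (l : ℕ) (h : 14 ≤ tt l) : 2 ^ (tt l / 2 - 1) ≤ tt (l + 1) / 2 - 1 := by
  have e1 : 2 ^ (tt l / 2) = 2 * 2 ^ (tt l / 2 - 1) := by
    rw [← pow_succ']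
    congr 1
    omega
  have e2 := gap_tt_succ l
  rw [e1] at e2
  have e3 : 0 < 2 ^ (tt l / 2 - 1) := by positivity
  omega

private theorem gap_log (h1 : S_TT) (n L : ℕ) (hL : ss L ≤ n) :
    ∀ j, j + 4 ≤ L → tt (L - j) / 2 - 1 ≤ (Nat.log 2)^[j + 1] n := by
  obtain ⟨hmono, _, _, _, _, _, h4, _, _, _⟩ := h1
  intro j
  induction j with
  | zero =>
    intro _
    rw [Function.iterate_succ_apply', Function.iterate_zero_apply, Nat.sub_zero]
    have e1 : tt L ≤ Nat.log 2 n := Nat.le_log_of_pow_le (by norm_num) hL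
    omega
  | succ j ih =>
    intro hj
    have e1 := ih (by omega)
    rw [Function.iterate_succ_apply']
    refine le_trans ?_ (Nat.log_mono_right e1)
    have e2 : L - j = (L - (j + 1)) + 1 := by omega
    rw [e2]
    have e3 : 14 ≤ tt (L - (j + 1)) := by
      rw [← h4]
      exact hmono.monotone (by omega)
    exact Nat.le_log_of_pow_le (by norm_num) (gap_half _ e3)

private theorem gap_ss_le (h1 : S_TT) (n L k : ℕ) (hL : ss L ≤ n) (hk : k + 5 ≤ L) :
    ss (L - (k + 1)) ≤ (Nat.log 2)^[k] n := by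
  have h1' := h1
  obtain ⟨hmono, _, _, _, _, _, h4, h14, hpow, _⟩ := h1'
  cases k with
  | zero =>
    rw [Function.iterate_zero_apply]
    refine le_trans ?_ hL
    unfold ss
    exact Nat.pow_le_pow_right (by norm_num) (hmono.monotone (by omega))
  | succ k =>
    refine le_trans ?_ (gap_log h1 n L hL k (by omega))
    have e2 : L - k = (L - (k + 1)) + 1 := by omega
    have e3 : L - (k + 1) = (L - (k + 1 + 1)) + 1 := by omega
    have e4 : 14 ≤ tt (L - (k + 1 + 1)) := by
      rw [← h4]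
      exact hmono.monotone (by omega)
    have e5 : 2 * tt (L - (k + 1 + 1)) + 2 ≤ tt (L - (k + 1)) := by
      rw [e3]
      exact le_trans (h14 _ e4) (hpow _)
    rw [e2]
    refine le_trans ?_ (gap_half (L - (k + 1)) (by omega))
    unfold ss
    exact Nat.pow_le_pow_right (by norm_num) (by omega)

/-- **Gap**. -/
theorem tGap (h1 : S_TT) : S_Gap := by
  intro k
  refine ⟨ss (k + 5), fun n hn => ?_⟩
  have h1' := h1
  obtain ⟨hmono, _, _, hdvd, h2, hlt, _, _, _, _⟩ := h1'
  have hpos : ∀ l, 0 < ss l := fun l => Nat.lt_of_le_of_lt (Nat.zero_le l) (hlt l)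
  have hm : Monotone ss := fun a b hab =>
    Nat.pow_le_pow_right (by norm_num) (hmono.monotone hab)
  -- the board of `n`
  obtain ⟨L, hL1, hL2⟩ : ∃ L, ss L ≤ n ∧ n < ss (L + 1) := by
    have hex : ∃ l, n < ss l := ⟨n, hlt n⟩
    have h0 : ¬ n < ss 0 := by
      have e1 := hm (Nat.zero_le (k + 5))
      omega
    have hf := Nat.find_spec hex
    have hf0 : Nat.find hex ≠ 0 := by
      intro h
      rw [h] at hf
      exact h0 hf
    obtain ⟨L, hL⟩ := Nat.exists_eq_succ_of_ne_zero hf0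
    refine ⟨L, ?_, ?_⟩
    · have e1 := Nat.find_min hex (m := L) (by omega)
      omega
    · rw [hL] at hf
      exact hf
  have hkL : k + 5 ≤ L := by
    by_contra hcon
    have e1 := hm (show L + 1 ≤ k + 5 by omega)
    omega
  have hle := gap_ss_le h1 n L k hL1 hkL
  obtain ⟨d, hd⟩ : ∃ d, d = ss (L - (k + 1)) := ⟨_, rfl⟩
  have hd0 : 0 < d := by rw [hd]; exact hpos _
  obtain ⟨q, hq⟩ : ∃ q, q = (n + d - 1) / d := ⟨_, rfl⟩
  have e1 : d * q + (n + d - 1) % d = n + d - 1 := by
    rw [hq]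
    exact Nat.div_add_mod _ _
  have e2 : (n + d - 1) % d < d := Nat.mod_lt _ hd0
  have e3 : n ≤ d * q := by omega
  have e4 : d * q < n + d := by omega
  obtain ⟨e, he⟩ : d ∣ ss (L + 1) := by
    rw [hd]
    exact hdvd _ _ (by omega)
  have e5 : d * q ≤ ss (L + 1) := by
    have e6 : d * q < d * (e + 1) := by
      rw [mul_add, mul_one, ← he]
      omega
    have e7 : q < e + 1 := Nat.lt_of_mul_lt_mul_left e6
    rw [he]
    exact Nat.mul_le_mul_left d (by omega)
  refine ⟨d * q, ?_, e3, ?_⟩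
  · rcases Nat.lt_or_ge (d * q) (ss (L + 1)) with h | h
    · refine ⟨L, by omega, by omega, h, ?_⟩
      rw [← hd]
      exact Nat.mul_mod_right d q
    · have e6 : d * q = ss (L + 1) := le_antisymm e5 h
      have e7 := h2 (L + 1)
      have e8 := hpos (L + 1)
      refine ⟨L + 1, by omega, h, by omega, ?_⟩
      rw [e6]
      exact Nat.mod_eq_zero_of_dvd (hdvd _ _ (by omega))
  · rw [hd] at e4 ⊢
    omega

end Pool.Agent.D9b
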