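import Pool.Agent.Lib.MP_d9c039_lc.V2.Spec

set_option autoImplicit false

/-!
# MP_d9c039_lc, second machine: module MkCln
-/

namespace Pool.Agent.D9b

open Pool.Agent.D9 (LS cnt resp tabS nplays)

private lemma viol_fire (S : LS) (K i j : ℕ) (h : (S.fire i).Viol K j) :
    j ≤ i ∧ S.Viol K j := by
  obtain ⟨e0, he0, h1, h2, h3⟩ := h
  simp only [LS.fire, List.mem_map, List.mem_filter, decide_eq_true_eq] at he0
  obtain ⟨e, ⟨he, hei⟩, rfl⟩ := he0
  simp only at h1 h2 h3
  refine ⟨by omega, e, he, h1, by omega, h3.trans ?_⟩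
  unfold LS.pend'
  simp only [LS.fire]
  rw [List.countP_map, List.countP_filter]
  apply List.countP_mono_left
  intro e' _ he'
  simp only [Function.comp, Bool.and_eq_true, decide_eq_true_eq] at he' ⊢
  omega

theorem tMkCln : S_MkCln := by
  intro P H x y lam u hH hv l hl
  have hd : lam < P.d := by cases u <;> exact hv.1
  have hcl : ∀ l' < lam, H.Cln P l' := by cases u <;> exact hv.2.1
  have hup : ∀ l', lam < l' → l' ≤ P.d → y / P.s l' = x / P.s l' := by
    intro l' h1 h2
    cases u
    · exact P.div_up y x lam l' h1.le h2 hv.2.2.2.2.2.1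
    · obtain ⟨j0, _, _, _, hA⟩ := hv.2.2.2.2
      exact P.div_up y x (lam + 1) l' h1 h2 hA.2.2.1
  have hself : u = false → y / P.s lam = x / P.s lam := by
    rintro rfl
    exact hv.2.2.2.2.2.1
  have hnoS : u = true → ∀ c, ¬ H.SV P lam c := by
    rintro rfl
    exact hv.2.2.1
  have hj0 : u = true → ∃ j0, y / P.s lam < j0 ∧
      ∀ j' < j0, ¬ H.UV P lam (x / P.s (lam + 1)) j' := by
    rintro rfl
    obtain ⟨j0, _, _, h3, hA⟩ := hv.2.2.2.2
    obtain ⟨_, _, _, e0, _, _, _, hReq⟩ := hA
    exact ⟨j0, hReq.2.1, h3⟩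
  constructor
  · rintro c ⟨hact, hk⟩
    rw [addD_hist, pendL_D] at hk
    split_ifs at hk with h1
    · have := (P.hk l).1
      simp at hk
      omega
    · have hS : H.SV P l c := ⟨hact, hk⟩
      have hc := hH.newS l hl c hS
      have hx := ((P.mem_block l x c).mp hc.symm).2
      have hy : y / P.s l ≠ x / P.s l := by
        intro h2
        rw [← hc] at h2
        exact h1 ((P.mem_block l y c).mp h2).2
      rcases Nat.lt_trichotomy l lam with h2 | h2 | h2
      · exact (hcl l h2).1 c hS
      · subst h2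
        cases u
        · exact hy (hself rfl)
        · exact hnoS rfl c hS
      · exact hy (hup l h2 hl.le)
  · rintro p j ⟨hact, hviol⟩
    have hmain : H.UV P l p j ∧ (p < y / P.s (l + 1) ∨ j ≤ max (y / P.s l) (p * 2 ^ (P.a l))) := by
      rw [addD_st] at hviol
      split_ifs at hviol with h1 h2
      · exact ⟨⟨hact, hviol⟩, Or.inl h1⟩
      · have h3 : ((H.st l p).fire (y / P.s l)).Viol (8 * P.g l) j := hviol
        obtain ⟨h4, h5⟩ := viol_fire _ _ _ _ h3
        exact ⟨⟨hact, h5⟩, Or.inr (h4.trans (le_max_left _ _))⟩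
      · obtain ⟨h4, h5⟩ := viol_fire _ _ _ _ hviol
        exact ⟨⟨hact, h5⟩, Or.inr h4⟩
    obtain ⟨hU, hor⟩ := hmain
    obtain ⟨hp, hxj, _⟩ := hH.newU l hl p j hU
    rcases Nat.lt_or_ge l lam with hlt | hge
    · exact (hcl l hlt).2 p j hU
    · have h6 : y / P.s (l + 1) = x / P.s (l + 1) := hup (l + 1) (by omega) (by omega)
      have h7 : p = y / P.s (l + 1) := by rw [h6]; exact hp
      have h8 : p * 2 ^ (P.a l) ≤ y / P.s l := by
        apply ((P.mem_parent l (y / P.s l) p).mp _).1
        rw [← P.div_succ l hl]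
        exact h7.symm
      have h9 : j ≤ y / P.s l := by
        rcases hor with h | h
        · omega
        · rwa [max_eq_left h8] at h
      rcases Nat.lt_or_ge lam l with hlt | hle
      · have h10 := hup l hlt hl.le
        omega
      · have h11 : l = lam := by omega
        subst h11
        cases u
        · have := hself rfl
          omega
        · obtain ⟨j0, h12, h13⟩ := hj0 rfl
          rw [hp] at hU
          exact h13 j (by omega) hU

end Pool.Agent.D9b
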