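import Pool.Agent.Lib.MP_d9c039_lc.V2.Base

set_option autoImplicit false

/-!
# MP_d9c039_lc, second machine: the modules

Every module `X` is a proposition `S_X`; prove it in its own file `V2/X.lean` as
`theorem tX (h1 : ..) .. : S_X` (other modules may be used only as hypotheses, in the order of the
docstring), namespace `Pool.Agent.D9b`, all other declarations private.  The file `V2/Base.lean`
contains the basic lemmas (`pendL_filter`, `pendL_lower`, `pendL_split_length`, `drn_of_pend`,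
`Par.div_succ`, `Par.div_up`, `Par.mem_block`, `Par.mem_parent`, `addA_st`, `addD_st`, `addA_nA`,
`addD_nD`, ..).  Similar proofs for the first machine are in `Lib/MP_d9c039_lc/*.lean`.
-/

namespace Pool.Agent.D9b

open Pool.Agent.D9 (LS cnt resp tabS nplays tower)

/-- The invariant of the state `G` just after the A-event `x` (before the answer). -/
structure HInv (P : Par) (G : GS) (x : ℕ) : Prop where
  nodup : G.pl.Nodup
  lt : ∀ x ∈ G.pl, x < P.s P.d
  pot : ∀ l < P.d, ∀ p, P.act l p →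
    (G.st l p).Inv (P.g l) 1 (p * 2 ^ (P.a l)) ((p + 1) * 2 ^ (P.a l))
  link : ∀ l < P.d, ∀ p, P.act l p → ∀ i j, p * 2 ^ (P.a l) ≤ i → i ≤ j →
    j ≤ (p + 1) * 2 ^ (P.a l) →
    (G.st l p).al.countP (fun e => decide (i ≤ e.1 ∧ e.1 < j ∧ j ≤ e.2)) =
      (pendL (i * P.s l) (j * P.s l) G.hist).length
  kle : ∀ l < P.d, ∀ c, P.act l (c / 2 ^ (P.a l)) →
    (G.st l (c / 2 ^ (P.a l))).k c + (G.st l (c / 2 ^ (P.a l))).inChild c
      ≤ G.nA (c * P.s l) ((c + 1) * P.s l)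
  fcount : ∀ l < P.d, ∀ c, P.act l (c / 2 ^ (P.a l)) →
    (G.st l (c / 2 ^ (P.a l))).f c = G.nD l true (c * P.s l) ((c + 1) * P.s l)
  pack : ∀ l < P.d, ∀ c, P.act l (c / 2 ^ (P.a l)) → ∀ t, c * P.s l ≤ t → t ≤ (c + 1) * P.s l →
    (t = c * P.s l ∨ (P.MS l (t - 1) ∧ t - 1 ∉ G.ms)) →
    P.k l * G.nD l false t ((c + 1) * P.s l) + (pendL t ((c + 1) * P.s l) G.hist).length ≤
      G.nA t ((c + 1) * P.s l)
  mkp : ∀ e ∈ G.mks, e.1 < P.s P.d ∧ e.2.1 < P.d ∧ P.act e.2.1 (e.1 / P.s (e.2.1 + 1)) ∧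
    (e.2.2 = true → P.MU e.2.1 e.1) ∧ (e.2.2 = false → P.MS e.2.1 e.1)
  mk_nodup : G.ms.Nodup
  mk_hist : G.ms = (G.hist.filter (fun e => e.1)).map Prod.snd
  cntc : ∀ l < P.d, ∀ c, P.act l (c / 2 ^ (P.a l)) →
    (pendL (c * P.s l) ((c + 1) * P.s l) G.hist).length ≤ P.k l
  newS : ∀ l < P.d, ∀ c, G.SV P l c → c = x / P.s l
  newU : ∀ l < P.d, ∀ p j, G.UV P l p j →
    p = x / P.s (l + 1) ∧ x / P.s l < j ∧ j ≤ (p + 1) * 2 ^ (P.a l)
  xlt : x < P.s P.d

/-- **AddLink** (100 lines). If the parent `p` of level `l` contains `x` (`x / s (l+1) = p`), the new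
entry is `(x / s l, hi)`, `hi = (p + 1) 2 ^ a`: for `j ≤ hi` it is counted iff `i ≤ x / s l < j`, and
`x` is added to `pendL (i s) (j s)` iff `i s ≤ x < j s`, which is the same (`Par.mem_block`). If `p` does
not contain `x`, then `x` is not in `[i s, j s) ⊆ [p s (l+1), (p+1) s (l+1))`. -/
def S_AddLink : Prop := ∀ (P : Par) (G : GS) (x : ℕ), GInv P G → x < P.s P.d → x ∉ G.pl →
  ∀ l < P.d, ∀ p, P.act l p → ∀ i j, p * 2 ^ (P.a l) ≤ i → i ≤ j → j ≤ (p + 1) * 2 ^ (P.a l) →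
    ((G.addA P x).st l p).al.countP (fun e => decide (i ≤ e.1 ∧ e.1 < j ∧ j ≤ e.2)) =
      (pendL (i * P.s l) (j * P.s l) (G.addA P x).hist).length

/-- **AddRest** (150 lines, uses `D9.PotAdd`, `S_AddLink`). All of `HInv` for `G.addA P x`.
`pot`: `PotAdd` (`lo ≤ x / s l < hi` by `Par.mem_parent`). `kle`: `inChild` and `nA` grow by one for the
child `x / s l` (`k` is unchanged). `fcount`, `mkp`, `mk_nodup`: unchanged. `pack`: both sides grow by one
if `x ∈ [t, (c+1) s)`. `cntc`: the length was `< k` (`cln`) and grows by at most one. `newS`: if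
`c ≠ x / s l` then `x ∉ [c s, (c+1) s)`, the list is unchanged, no violation by `cln`. `newU`: if
`p ≠ x / s (l+1)` the state is unchanged; if `p = x / s (l+1)` and `j ≤ x / s l` then the new entry
`(x / s l, hi)` is not pending at `j`, so `Viol` at `j` was there before; `j ≤ hi`: `Viol` gives an entry
`e0` with `j ≤ e0.2`, and `e0.2 ≤ hi` by `pot` (`Inv`, first part). -/
def S_AddRest : Prop := ∀ (P : Par) (G : GS) (x : ℕ), GInv P G → x < P.s P.d → x ∉ G.pl →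
  HInv P (G.addA P x) x

/-- **MkPot** (120 lines, uses `D9.PotFire`, `D9.PotResp`). Let `p` be an active parent of level
`l < d`. `inChild c ≤ g l` for all `c`: for children of `p` it is the number of the entries with
`c ≤ e.1 < c + 1 ≤ e.2` (`pot`, first part), so by `link` the length of `pendL (c s) ((c+1) s)`, and
`cntc`, `hk`; for other `c` it is `0`. Cases of `addD_st`: unchanged; `resp (y / s l)` with `l = lam`,
`p = y / s (l+1)`, `u = true`: `Valid` gives `p = x / s (l+1)` (`AnsU`) and `Req`: `PotResp` with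
`h = 1`, `lo ≤ e0.1` (`pot`), `j ≤ hi`; `fire (max (y / s l) lo)`: `PotFire`, `lo ≤ max .. < hi` because
`y / s l < hi` (as `y / s (l+1) ≤ p`). -/
def S_MkPot : Prop := ∀ (P : Par) (H : GS) (x y lam : ℕ) (u : Bool), HInv P H x →
  Valid P H x (some (y, lam, u)) → ∀ l < P.d, ∀ p, P.act l p →
    ((H.addD P y lam u).st l p).Inv (P.g l) 1 (p * 2 ^ (P.a l)) ((p + 1) * 2 ^ (P.a l))

/-- **MkLink** (150 lines). `(S.resp i).al = (S.fire i).al`. Case `p < y / s (l+1)`: the state is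
unchanged and `y ≥ (p+1) s (l+1) ≥ j s`, so `pendL` is unchanged. Otherwise put
`i' = max (y / s l) lo`, `lo = p 2 ^ a` (for `p = y / s (l+1)` this is `y / s l`): the new entries are
`(e.1, min e.2 i')` for the old entries with `e.1 < i'`. If `j ≤ i'` and `j ≤ y / s l`: counted iff it was
counted, and `y ≥ j s`, `pendL` unchanged. If `y / s l < j`: if `j > i'` nothing is counted
(`min e.2 i' < j`) and `pendL = []` since `y < j s`; if `j ≤ i'` then `j = i' = lo = i` and both sides are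
`0` (`pendL_self`; the count has `i ≤ e.1 < j = i`). -/
def S_MkLink : Prop := ∀ (P : Par) (H : GS) (x y lam : ℕ) (u : Bool), HInv P H x →
  ∀ l < P.d, ∀ p, P.act l p → ∀ i j, p * 2 ^ (P.a l) ≤ i → i ≤ j → j ≤ (p + 1) * 2 ^ (P.a l) →
    ((H.addD P y lam u).st l p).al.countP (fun e => decide (i ≤ e.1 ∧ e.1 < j ∧ j ≤ e.2)) =
      (pendL (i * P.s l) (j * P.s l) (H.addD P y lam u).hist).length

/-- **MkKle** (120 lines). `kle`: `fire i'` moves the entries of the children `c ≥ i'` from `inChild` to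
`k` (`inChild` becomes `0`), for `c < i'` both are unchanged; so `k c + inChild c` does not change
(`resp` has the same `k` and `al`); `nA` does not change. `fcount`: `f` changes only in `resp`, at
`c = y / s l`, `l = lam`, `u = true`, parent `y / s (l+1) = c / 2 ^ a`; the same for `nD l true`
(`addD_nD`, `Par.mem_block`). -/
def S_MkKle : Prop := ∀ (P : Par) (H : GS) (x y lam : ℕ) (u : Bool), HInv P H x →
  ∀ l < P.d, ∀ c, P.act l (c / 2 ^ (P.a l)) →
    (((H.addD P y lam u).st l (c / 2 ^ (P.a l))).k c +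
      ((H.addD P y lam u).st l (c / 2 ^ (P.a l))).inChild c
        ≤ (H.addD P y lam u).nA (c * P.s l) ((c + 1) * P.s l)) ∧
    ((H.addD P y lam u).st l (c / 2 ^ (P.a l))).f c =
      (H.addD P y lam u).nD l true (c * P.s l) ((c + 1) * P.s l)

/-- **MkCln** (180 lines). No violation after the mark. Note first: if `u = false` then
`y / s lam = x / s lam`, if `u = true` then `y / s (lam+1) = x / s (lam+1)`; so `y / s l = x / s l` for
`lam < l ≤ d`, and also for `l = lam` if `u = false` (`Par.div_up`).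
`SV` at level `l`, child `c`: if `y < (c+1) s` then `pendL = []` and `0 < k`. Otherwise `pendL` is as
before the mark, so there was `SV P H l c`, hence `c = x / s l` (`newS`) and `x < (c+1) s ≤ y`, so
`y / s l ≠ x / s l`, so `l < lam` (then `Cln` by `Valid`, contradiction) or `l = lam`, `u = true` (then no
`SV` by `Valid`, contradiction).
`UV` at level `l`, parent `p`, boundary `j`. (1) `p < y / s (l+1)`: state as before, so
`p = x / s (l+1)` (`newU`), so `x / s (l+1) ≠ y / s (l+1)`, so `l < lam`: `Cln` by `Valid`. (2)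
`p > y / s (l+1)`: `max (y / s l) lo = lo`, all entries have `e.1 ≥ lo` (`pot`), so `al = []`, no `Viol`. (3)
`p = y / s (l+1)`: the new entries are `(e.1, min e.2 (y / s l))`, `e.1 < y / s l`; so a violation has
`j ≤ y / s l`, and then the pending entries at `j` are the old ones (with possibly smaller `e.2 ≥ j`), so
there was a violation at `j` before the mark (`pend'` counts the same entries). So
`p = x / s (l+1)`, `x / s l < j ≤ y / s l` (`newU`), so `y / s l ≠ x / s l`, so `l < lam` (`Cln`) or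
`l = lam`, `u = true`: the boundary `j0` of `Valid` has `y / s l < j0` (`Req`), so `j < j0` and there was no
violation at `j`. -/
def S_MkCln : Prop := ∀ (P : Par) (H : GS) (x y lam : ℕ) (u : Bool), HInv P H x →
  Valid P H x (some (y, lam, u)) → ∀ l < P.d, (H.addD P y lam u).Cln P l

/-- **MkPack** (150 lines). Let `b = (c+1) s l`. The condition on `t` for the new state implies the one
for `H` (fewer places are free). `nA` is unchanged. If the mark is not (level `l`, self, `t ≤ y < b`),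
then `nD l false t b` is unchanged and `pendL t b` is unchanged or `[]`. If it is: `lam = l`,
`u = false`, `y / s l = c = x / s l`, and `H.Near P l c y`; `pendL` becomes `[]`, `nD` grows by one; we need
`k l ≤ (pendL t b H.hist).length`. By `SV` (`Valid`) `k l ≤ (pendL (c s) b).length`, and all its elements
are `≥ x1`; so it is enough that `t ≤ x1` (then `pendL t b = pendL (c s) b` by `pendL_filter`). If
`t = c s` clear. Otherwise `t - 1` is a place of `MS l`, not in `y :: H.ms`; if `t > x1` then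
`x1 ≤ t - 1 < y` (`t ≤ y`), so `t - 1 ∈ H.ms` by `Near`, contradiction. -/
def S_MkPack : Prop := ∀ (P : Par) (H : GS) (x y lam : ℕ) (u : Bool), HInv P H x →
  Valid P H x (some (y, lam, u)) →
  ∀ l < P.d, ∀ c, P.act l (c / 2 ^ (P.a l)) → ∀ t, c * P.s l ≤ t → t ≤ (c + 1) * P.s l →
    (t = c * P.s l ∨ (P.MS l (t - 1) ∧ t - 1 ∉ (H.addD P y lam u).ms)) →
    P.k l * (H.addD P y lam u).nD l false t ((c + 1) * P.s l) +
      (pendL t ((c + 1) * P.s l) (H.addD P y lam u).hist).length ≤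
      (H.addD P y lam u).nA t ((c + 1) * P.s l)

/-- **MkMk** (80 lines). `y ∉ H.ms`, the level is `lam < d`, the place is in `MS lam` or `MU lam`, the
parent `y / s (lam+1) = x / s (lam+1)` is active (`SV` or `Valid`), `y < s d` since
`y / s d = x / s d = 0` (`Par.div_up`). -/
def S_MkMk : Prop := ∀ (P : Par) (H : GS) (x y lam : ℕ) (u : Bool), HInv P H x →
  Valid P H x (some (y, lam, u)) →
  (∀ e ∈ (H.addD P y lam u).mks, e.1 < P.s P.d ∧ e.2.1 < P.d ∧
    P.act e.2.1 (e.1 / P.s (e.2.1 + 1)) ∧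
    (e.2.2 = true → P.MU e.2.1 e.1) ∧ (e.2.2 = false → P.MS e.2.1 e.1)) ∧
  (H.addD P y lam u).ms.Nodup ∧
  (H.addD P y lam u).ms = ((H.addD P y lam u).hist.filter (fun e => e.1)).map Prod.snd

/-- **Free1** (150 lines). A self violation can be answered. Let `b = (c+1) s`, `L = pendL (c s) b`, it has
at least `k l ≥ 1` elements; `x1` its least element. Suppose that no `y` with `x1 ≤ y < b`, `MS l y` is
free (otherwise take the least such `y`: `Near`). Let `t - 1` be the largest free place of `MS l` in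
`[c s, x1)`, or `t = c s` if there is none. Then `t ≤ x1` and all places of `MS l` in `[t, b)` are marks;
each such mark has level `l` and type self (`mkp`, `hSS`, `hSU`, `MS l`), so
`nM (MS l) t b ≤ nD l false t b` (injectivity: `mk_nodup`). `pendL t b = L` (all elements are
`≥ x1 ≥ t`). By `pack`: `k l (nM + 1) ≤ nA t b ≤ b - t` (`nA_le`), against `H1`. -/
def S_Free1 : Prop := ∀ (P : Par) (H : GS) (x : ℕ), HInv P H x → ∀ l < P.d, ∀ c, H.SV P l c →
  ∃ y, H.Near P l c y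

/-- **Free2** (120 lines, uses `D9.PotBound`). There is a free place for a mark of type U in the child
`i` of the active parent `p`, if `i` is not the first child. `PotBound` (`h = 1`,
`hi = lo + 2 ^ a`, `inChild ≤ g l` by `link`, `cntc`, `hk` as in `MkPot`) gives
`g f ≤ k i + g (a + 1)`, `k i ≤ nA (i s) ((i+1) s) ≤ s` (`kle`, `nA_le`), so
`f i < nM (MU l) (i s) ((i+1) s)` by `H2` (`i % 2 ^ a ≠ 0`). The marks in `MU l` in this child are of level
`l` and type U (`mkp`, `hUU`, `hSU`), so their number is at most `nD l true = f i` (`fcount`). So there is a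
free one. -/
def S_Free2 : Prop := ∀ (P : Par) (H : GS) (x : ℕ), HInv P H x → ∀ l < P.d, ∀ p, P.act l p →
  ∀ i, p * 2 ^ (P.a l) < i → i < (p + 1) * 2 ^ (P.a l) →
  ∃ y, P.MU l y ∧ y ∉ H.ms ∧ y / P.s l = i

/-- **Choose** (120 lines, uses `S_Free1`, `S_Free2`). If all levels `< d` are clean take `none`.
Otherwise let `lam` be the least level which is not. If `SV P H lam c` for some `c`: `c = x / s lam`
(`newS`) and `Free1` gives `y`. Otherwise there is `UV P H lam p j`, `p = x / s (lam+1)` by `newU`; take the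
least `j` with `UV P H lam p j`; `x / s lam < j ≤ hi` (`newU`). `Viol` gives `e0`, `K ≤ pend' e0.1 j`; so
`(e0.1, j)` contains a child; let `m` be one in this interval with minimal `u (g lam)` and `i` the
least one with `u i ≤ u m + g`: `Req`. `lo ≤ e0.1 < i < j ≤ hi` (`pot`), `Free2` gives `y` with
`y / s lam = i`, so `y / s (lam+1) = p` (`Par.div_succ`, `Par.mem_parent`). -/
def S_Choose : Prop := ∀ (P : Par) (H : GS) (x : ℕ), HInv P H x → ∃ r, Valid P H x r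

/-- **ARun** (150 lines). `link` with `i = lo` gives for `j ≤ hi`:
`(pendL (lo s) (j s) hist).length = pend j`, and `pend j ≤ inChild e0.1 + pend' e0.1 j ≤ k + 8 g` for
the entry `e0` pending at `j` with minimal `e0.1` (if there is none the length is `0`): `inChild e0.1`
is the length of the list `pendL` of this child, `< k` by `cln` (no `SV`), and `pend' < 8 g` since there is
no `UV` at `j`. Let `n < s d` and `m ≤ l < d`, `j = n / s l`, `lo s = (n / s (l+1)) s (l+1)`. By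
`pendL_split_length` and `pendL_lower`:
`(pendL (lo s l) n).length ≤ (pendL (lo s l) (j s l)).length + (pendL (j s l) n).length`. Start with
`n / s d = 0` and go down to `m`: `(pendL 0 n).length ≤ (pendL ((n / s m) s m) n).length + ∑`, and the
last list has at most `n - (n / s m) s m = n % s m` elements (`pendL_length_le`). -/
def S_ARun : Prop := ∀ (P : Par) (G : GS), GInv P G → ∀ n < P.s P.d, ∀ m ≤ P.d,
  (∀ l, m ≤ l → l < P.d → P.act l (n / P.s (l + 1))) →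
  (pendL 0 n G.hist).length ≤ n % P.s m + ∑ l ∈ Finset.Ico m P.d, (P.k l + 8 * P.g l)

/-- the reachable states satisfy the invariant -/
def S_RI : Prop := ∀ (P : Par) (G : GS), Reach P G → GInv P G

/-- **DRun** (120 lines, uses `S_RI`, `S_AddRest`). By induction on `Reach`. An A-event `x < n` makes
`drn` equal to `0`, an A-event `x ≥ n` does not change it, a mark `y ≥ n` neither. Let `y < n` be the
answer to `x` (state `H = G.addA P x`). If `x < n` then `drn n H.hist = 0`. If `x ≥ n`: we find a pending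
A-event `x1 < n` for a cut `b > x ≥ n`, then `drn n H.hist = 0` by `drn_of_pend`. Type self: `x1` of
`Near`, `x1 ≤ y < n`, `b = (x / s lam + 1) s lam > x`. Type U: with `e0`, `j` of `Valid`/`AnsU`,
`i = e0.1`: by `link` of `HInv` the lists `pendL (i s) (j s)` and `pendL ((i+1) s) (j s)` have the
lengths `#{e | i ≤ e.1 < j ≤ e.2}` and `#{e | i + 1 ≤ e.1 < j ≤ e.2}`; `e0` is counted only in the first,
so the first list has an element `x1 < (i+1) s` (`pendL_filter`), and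
`(i+1) s ≤ (y / s) s ≤ y < n`; `b = j s > x` since `x / s lam < j`. -/
def S_DRun : Prop := ∀ (P : Par) (G : GS), Reach P G → ∀ n, drn n G.hist ≤ 1

/-- **Board** (280 lines, uses `S_RI`, `S_Ch`, `S_ARun`, `S_DRun`). By choice there is
`nx : GS → ℕ → Option (ℕ × ℕ × Bool)` with `Valid P (G.addA P x) x (nx G x)` whenever `GInv P G`,
`x < s d`, `x ∉ G.pl`; run it along a play `p` (oldest first): `run [] = init`,
`run (p ++ [x]) = ((run p).addA P x).app P (nx (run p) x)` (recursion on the reversed list); `σ p` = first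
component of the last response. Then `(run p).pl = p.reverse` and `(run p).ms = (resp σ p).reverse`. A
mark `σ p` is new (`y ∉ G.ms` in `Valid`), `y < s d` (`mkp`) and in `MS l` or `MU l`, so in `M`.
If the number of marks `< n` does not change between `p.take i` and `p`, the A-events `< n` in between are
all in `pendL 0 n` of the final history; if the number of A-events `< n` does not change, the marks `< n`
in between are counted by `drn n`. (Compare `Lib/MP_d9c039_lc/Board.lean`.) -/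
def S_Board : Prop := ∀ (P : Par) (M : List ℕ) (C : List (ℕ × ℕ)),
  (∀ l < P.d, ∀ y < P.s P.d, P.MS l y ∨ P.MU l y → y ∈ M) →
  (∀ e ∈ C, e.1 < P.s P.d ∧ ∃ m ≤ P.d, (∀ l, m ≤ l → l < P.d → P.act l (e.1 / P.s (l + 1))) ∧
    e.1 % P.s m + ∑ l ∈ Finset.Ico m P.d, (P.k l + 8 * P.g l) ≤ e.2) →
  ∃ σ, LGood (P.s P.d) M C σ

/-- there is always a legal answer -/
def S_Ch : Prop := ∀ (P : Par) (G : GS) (x : ℕ), GInv P G → x < P.s P.d → x ∉ G.pl →
  ∃ r, Valid P (G.addA P x) x r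

/-! ## Tables, guessing, union of the boards -/

/-- **Plays** (160 lines). As `Lib/MP_d9c039_lc/Plays.lean` (`playsB`), with `LGood`, `LChk` in place of
`Good`, `Chk`. -/
def S_Plays : Prop := ∀ (S : ℕ) (M : List ℕ) (C : List (ℕ × ℕ)),
  (∀ σ, LGood S M C σ → ∃ T, LChk S M C T) ∧ (∀ T, LChk S M C T → LGood S M C (tabS T))

/-- **PrimChk** (200 lines). As `Lib/MP_d9c039_lc/PrimChk.lean` (`primChkB`). -/
def S_PrimChk : Prop := PrimrecPred
  (fun t : (ℕ × List ℕ × List (ℕ × ℕ)) × List (List ℕ × ℕ) =>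
    LChk t.1.1 t.1.2.1 t.1.2.2 t.2)

/-- **Search** (60 lines, uses `S_PrimChk`). Search for a table with `Nat.rfind` (compare
`Lib/MP_d9c039_lc/Search.lean`). -/
def S_Search : Prop := ∀ (S : ℕ → ℕ) (M : ℕ → List ℕ) (C : ℕ → List (ℕ × ℕ)), Computable S →
  Computable M → Computable C → (∀ L, ∃ T, LChk (S L) (M L) (C L) T) →
  ∃ T : ℕ → List (List ℕ × ℕ), Computable T ∧ ∀ L, LChk (S L) (M L) (C L) (T L)

/-- **Guess** (250 lines). `Lib/MP_d9c039_lc/Guess.lean` (`guessB`) with one change: the first search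
looks for a stage `s0 ≥ n` (so `f1` gets the additional condition `t.1.length ≤ s`), because the bound
`hb` is assumed only for stages `≥ n`. -/
def S_Guess : Prop := ∀ (a d : ℕ → List ℕ) (A D : Set ℕ) (b : ℕ → ℕ),
  Computable a → Computable d → (∀ s, (a s).Nodup) → (∀ s, (d s).Nodup) →
  (∀ s x, x ∈ a s → x ∈ a (s + 1)) → (∀ s x, x ∈ d s → x ∈ d (s + 1)) →
  (∀ x, x ∈ A ↔ ∃ s, x ∈ a s) → (∀ x, x ∈ D ↔ ∃ s, x ∈ d s) →
  (∀ n s s', n ≤ s → s ≤ s' → cnt (d s) n = cnt (d s') n → cnt (a s') n ≤ cnt (a s) n + b n) →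
  ∃ φ : List Bool × ℕ →. List Bool, Partrec φ ∧ ∀ n : ℕ, ∀ τ : List Bool,
    τ.length = n → (∀ i < n, (τ.getD i false = true ↔ i ∈ D)) →
    ∃ j ≤ b n, ∃ σ ∈ φ (τ, j), σ.length = n ∧ ∀ i < n, (σ.getD i false = true ↔ i ∈ A)

/-- The family of the boards: board `L` is `[0, Sz (L + 1))` with strategy `σ L`, `a` is an enumeration
of `A`. -/
structure Fam (Sz : ℕ → ℕ) (C : ℕ → List (ℕ × ℕ)) (σ : ℕ → List ℕ → Option ℕ) (a : ℕ → List ℕ) :
    Prop where
  sz0 : ∀ L, L < Sz L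
  sz2 : ∀ L, 2 * Sz L ≤ Sz (L + 1)
  good : ∀ L, LGood (Sz (L + 1)) (mList (Sz L) (Sz (L + 1))) (C L) (σ L)
  nd : ∀ s, (a s).Nodup
  step : ∀ s, a (s + 1) = a s ∨ ∃ x, a (s + 1) = a s ++ [x]
  a0 : a 0 = []
  alt : ∀ s x, x ∈ a s → x < s

/-- **UM1** (200 lines). For `s ≤ s'` the play `feed a S L s` is `(feed a S L s').take i` for some
`i ≤ length` (`a s` is an initial segment of `a s'`), `feed a S L s = []` for `s ≤ L`, it is
duplicate-free with entries `< S`. Marks of a play: `resp (σ L) p` is duplicate-free (`LGood`, first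
part, and `resp σ (p.take i)` is an initial segment of `resp σ p`) and contained in
`mList (Sz L) (Sz (L+1))`. For `L < L'` the lists `mList (Sz L) (Sz (L+1))`,
`mList (Sz L') (Sz (L'+1))` are disjoint: `y < Sz (L+1) ≤ Sz L'`, so `y % 4 = 2` and
`Sz L' ≤ 2 y < 2 Sz (L+1)`, so `L' = L + 1` (otherwise `2 Sz (L+1) ≤ Sz (L+2) ≤ Sz L'`), so
`Sz L' ≤ 2 y` gives `y ≥ Sz L` (`2 Sz L ≤ Sz (L+1)`) and `y % 4 = 0`. All elements of `mList` are even. -/
def S_UM1 : Prop := ∀ (Sz : ℕ → ℕ) (C : ℕ → List (ℕ × ℕ)) (σ : ℕ → List ℕ → Option ℕ)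
  (a : ℕ → List ℕ), Fam Sz C σ a →
  (∀ s, (allM Sz σ a s).Nodup) ∧
  (∀ s x, x ∈ allM Sz σ a s → x ∈ allM Sz σ a (s + 1)) ∧
  (∀ s, ∀ x ∈ allM Sz σ a s, Even x)

/-- **UM2** (200 lines). `cnt (allM s) n` is the sum over `L < s` of `cnt (resp (σ L) (feed L s)) n`; the
summands are monotone in `s` (the play is a `take` of the later one) and vanish for `L ≥ s`. So if
`cnt (allM s) n = cnt (allM s') n` then all summands agree. Let `n = e.1`, `Sz L ≤ n < Sz (L+1)`, so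
`L < n ≤ s`. With `p = feed L s'`, `p.take i = feed L s`: `LGood` gives
`cnt (feed L s') n ≤ cnt (feed L s) n + e.2`. Finally
`cnt (a s') n - cnt (a s) n = cnt (feed L s') n - cnt (feed L s) n`: `a s' = a s ++ new`,
`feed L s' = feed L s ++ new.filter (· < Sz (L+1))` because `L ≤ s`. -/
def S_UM2 : Prop := ∀ (Sz : ℕ → ℕ) (C : ℕ → List (ℕ × ℕ)) (σ : ℕ → List ℕ → Option ℕ)
  (a : ℕ → List ℕ), Fam Sz C σ a →
  ∀ L, ∀ e ∈ C L, Sz L ≤ e.1 → e.1 < Sz (L + 1) → ∀ s s', e.1 ≤ s → s ≤ s' →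
    cnt (allM Sz σ a s) e.1 = cnt (allM Sz σ a s') e.1 → cnt (a s') e.1 ≤ cnt (a s) e.1 + e.2

/-- **UM3** (200 lines). `cnt (allM s) n` is the sum over `L < s` of `cnt (resp (σ L) (feed L s)) n`
(`0` for `L ≥ s`). Assume `cnt (a s) n = cnt (a s') n`: no A-event `< n` is enumerated in between, so
`cnt (feed L s) n = cnt (feed L s') n` for all `L` (for `s < L` both are `0`: the events `< n` of
`feed L s'` were enumerated after stage `L > s`). If `Sz (L+1) ≤ n` then the plays `feed L s`,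
`feed L s'` agree (all entries are `< n`) and so do the marks. If `n ≤ Sz L / 2`, i.e. `2 n ≤ Sz L`, there
is no mark `< n` (marks are in `mList`). The remaining `L` satisfy `Sz L < 2 n`, `n < Sz (L+1)`; there
are at most two of them (`L < L'` both such gives `Sz L' < 2 n < 2 Sz (L+1) ≤ Sz (L+2)`), and for each
the number of the marks `< n` grows by at most one (`LGood`, `n ≤ Sz (L+1)`). -/
def S_UM3 : Prop := ∀ (Sz : ℕ → ℕ) (C : ℕ → List (ℕ × ℕ)) (σ : ℕ → List ℕ → Option ℕ)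
  (a : ℕ → List ℕ), Fam Sz C σ a →
  ∀ n s s', s ≤ s' → cnt (a s) n = cnt (a s') n →
    cnt (allM Sz σ a s') n ≤ cnt (allM Sz σ a s) n + 2

/-- **UC** (120 lines). Computability of the marks (compare `Lib/MP_d9c039_lc/UnionC.lean`), and of
the lists `mList`. -/
def S_UC : Prop := ∀ (Sz : ℕ → ℕ), Computable Sz →
  (∀ (T : ℕ → List (List ℕ × ℕ)) (a : ℕ → List ℕ), Computable T → Computable a →
    Computable (fun t => allM Sz (fun L => tabS (T L)) a t)) ∧
  Computable (fun L => mList (Sz L) (Sz (L + 1)))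

/-- **Fam** (assembly). -/
def S_Fam : Prop := ∀ (Sz : ℕ → ℕ) (C : ℕ → List (ℕ × ℕ)), Computable Sz → Computable C →
  (∀ L, L < Sz L) → (∀ L, 2 * Sz L ≤ Sz (L + 1)) →
  (∀ L, ∃ σ, LGood (Sz (L + 1)) (mList (Sz L) (Sz (L + 1))) (C L) σ) →
  ∀ A : Set ℕ, REPred (fun n : ℕ => n ∈ A) →
  ∃ D : Set ℕ, REPred (fun n : ℕ => n ∈ D) ∧ (∀ n ∈ D, Even n) ∧
    (∃ b : ℕ → ℕ, (∀ n, b n ≤ n) ∧
      (∀ L, ∀ e ∈ C L, Sz L ≤ e.1 → e.1 < Sz (L + 1) → b e.1 ≤ e.2) ∧
      ∃ φ : List Bool × ℕ →. List Bool, Partrec φ ∧ ∀ n : ℕ, ∀ τ : List Bool,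
        τ.length = n → (∀ i < n, (τ.getD i false = true ↔ i ∈ D)) →
        ∃ j ≤ b n, ∃ σ ∈ φ (τ, j), σ.length = n ∧ ∀ i < n, (σ.getD i false = true ↔ i ∈ A)) ∧
    (∃ ψ : List Bool × ℕ →. List Bool, Partrec ψ ∧ ∀ n : ℕ, ∀ τ : List Bool,
      τ.length = n → (∀ i < n, (τ.getD i false = true ↔ i ∈ A)) →
      ∃ j ≤ 2, ∃ σ ∈ ψ (τ, j), σ.length = n ∧ ∀ i < n, (σ.getD i false = true ↔ i ∈ D))

/-! ## Parameters -/

/-- **TT** (120 lines). Facts on `tt`, `ss`. `tt` is strictly increasing (`2 ^ (tt l / 2) ≥ 2`),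
`l + 2 ≤ tt l`, `ss (l+1) = ss l * 2 ^ (2 ^ (tt l / 2) - 1)`, so `ss l ∣ ss l'` for `l ≤ l'` and
`2 ss l ≤ ss (l+1)`; `tt 4 = 14`; for `tt l ≥ 14`: `2 ^ (tt l / 2) ≥ 2 tt l + 2`, so
`tt (l+1) ≥ 2 ^ (tt l / 2) ≥ 2 tt l + 2` and `tt (l+2) ≥ 2 ^ (tt l + 1)`. -/
def S_TT : Prop := StrictMono tt ∧ (∀ l, l + 2 ≤ tt l) ∧
  (∀ l, ss (l + 1) = ss l * 2 ^ (2 ^ (tt l / 2) - 1)) ∧ (∀ l l', l ≤ l' → ss l ∣ ss l') ∧
  (∀ l, 2 * ss l ≤ ss (l + 1)) ∧ (∀ l, l < ss l) ∧ tt 4 = 14 ∧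
  (∀ l, 14 ≤ tt l → 2 * tt l + 2 ≤ 2 ^ (tt l / 2)) ∧ (∀ l, 2 ^ (tt l / 2) ≤ tt (l + 1)) ∧
  (∀ l, 14 ≤ tt l → 2 ^ (tt l + 1) ≤ tt (l + 2))

/-- **Res** (80 lines). Residue classes in intervals: `m` consecutive numbers contain exactly one
element of the class `r` (`Nat.count_modEq_card`, or induction on the length). -/
def S_Res : Prop :=
  (∀ m r a b : ℕ, r < m → b - a < m * (nM (fun y => y % m = r) a b + 1)) ∧
  (∀ m r a w : ℕ, r < m → nM (fun y => y % m = r) a (a + m * w) = w)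

/-- **P2** (250 lines, uses `S_TT`, `S_Res`). The parameters of the board `L` for the first theorem:
`d = L + 1`, `s = ss`, `a l = 2 ^ (tt l / 2) - 1`, with `i = L - l`: `k l = 2 ^ (2 i + 3)`,
`g l = 2 ^ (2 i + 5)`,
`act l p := 4 i + 12 ≤ tt l ∧ ((l = L ∧ p = 0) ∨ (l < L ∧ ss L ≤ p * ss (l + 1)))`,
`MS l y := (l = L ∧ y < ss L ∧ ss L ≤ 2 y ∧ y % 4 = 2) ∨ (ss L ≤ y ∧ y % 2 ^ (2 i + 3) = 2 ^ (2 i + 2))`,
`MU l y := ss L ≤ y ∧ y % 2 ^ (2 i + 4) = 2 ^ (2 i + 3)`. Disjointness for `l, l' ≤ L`: the residue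
condition says that the exponent of `2` in `y` is `2 i + 2`, resp. `2 i + 3`. All places are in
`mList (ss L) (ss (L+1))` (the exponent is at least `2`, so `y % 4 = 0`).
`H1`, `c` a child of an active parent of level `l`, `b = (c+1) s`: if `c s ≥ ss L` (always if `l < L`;
if `l = L` it means `c ≥ 1`) this is `Res` (1) with `m = 2 ^ (2 i + 3) = k l`. If `l = L`, `c = 0`
(`k = 8`): for `t ≥ ss L / 2` `Res` (1) with `m = 4`, for `t < ss L / 2` the number is at least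
`ss L / 8` (`Res` (2) on `[ss L / 2, ss L)`), `8 (ss L / 8 + 1) > ss L`.
`H2`: `c` is not the first child, so `c s ≥ ss L` (also for `l = L`), `Res` (2): the number is
`ss l / 2 ^ (2 i + 4)`, so the right side is `2 ss l`, and
`g (a + 1) = 2 ^ (2 i + 5 + tt l / 2) < 2 ^ tt l` as `4 i + 12 ≤ tt l`.
The cuts: `e ∈ C2 L` is `(n, 2 ^ (2 k + 10))` with `k ≤ L`, `4 k + 12 ≤ tt (L - k)`,
`ss L ≤ n < ss (L+1)`, `n % ss (L - k) = 0`; take `m = L - k`: for `m ≤ l < L` the parent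
`n / ss (l+1)` satisfies `ss L ≤ (n / ss (l+1)) ss (l+1)` because `ss (l+1) ∣ ss L ≤ n`; for `l = L`
`n / ss (L+1) = 0`; `4 (L - l) + 12 ≤ 4 k + 12 ≤ tt (L - k) ≤ tt l`. The sum is
`∑_(i ≤ k) (2 ^ (2 i + 3) + 2 ^ (2 i + 8)) = 264 ∑ 4 ^ i ≤ 352 * 4 ^ k ≤ 2 ^ (2 k + 10)`. -/
def S_P2 : Prop := ∀ L : ℕ, ∃ P : Par, P.s P.d = ss (L + 1) ∧
  (∀ l < P.d, ∀ y < P.s P.d, P.MS l y ∨ P.MU l y → y ∈ mList (ss L) (ss (L + 1))) ∧
  (∀ e ∈ C2 L, e.1 < P.s P.d ∧ ∃ m ≤ P.d,
    (∀ l, m ≤ l → l < P.d → P.act l (e.1 / P.s (l + 1))) ∧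
    e.1 % P.s m + ∑ l ∈ Finset.Ico m P.d, (P.k l + 8 * P.g l) ≤ e.2)

/-- **P1** (300 lines, uses `S_TT`, `S_Res`). The parameters of the board `L` for the second theorem.
Let `e = ee L`. If `tt L < 2 e + 8` then `C1 L = []`; take `d = 1`, `s 0 = ss L`, `s 1 = ss (L+1)`,
`act` false, `MS`, `MU` false. Otherwise let `lo` be the least number with `2 e + 8 ≤ tt lo`
(`1 ≤ lo ≤ L`, as `tt 0 = 2`); `d = L - lo + 2`, `s 0 = 2 ^ t'`, `t' = min (2 e + 9) (tt lo)`,
`s (j+1) = ss (lo + j)`, `a 0 = tt lo - t'`, `a (j+1) = 2 ^ (tt (lo + j) / 2) - 1`,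
`k = 2 ^ (e + 2)`, `g = 2 ^ (e + 3)` (all levels),
`act j p := (j + 1 = d ∧ p = 0) ∨ (j + 1 < d ∧ ss L ≤ p * s (j + 1))`,
`MS j y := (j + 1 = d ∧ y < ss L ∧ ss L ≤ 2 y ∧ y % 4 = 2) ∨ (ss L ≤ y ∧ y % 2 ^ (e + 2) = 8 j)`,
`MU j y := ss L ≤ y ∧ y % 2 ^ (e + 2) = 8 j + 4`. (`s (d - 1) = ss L`, `s d = ss (L+1)`; and
`8 j + 4 < 2 ^ (e + 2)` since `j ≤ L + 1`, `2 (L + 2) < 2 ^ e`.) `H1` as in `P2`
(`k ≥ 8`; for child `0` of the top level). `H2`: the number is `s j / 2 ^ (e + 2)`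
(`2 ^ (e+2) ∣ s j`), the right side is `2 s j`; `g (a + 1) < s j`: for `j ≥ 1`
`2 ^ (e + 3 + tt / 2) < 2 ^ tt` with `tt = tt (lo + j - 1) ≥ 2 e + 8`. For `j = 0`: if `t' = tt lo` then
`a = 0` and `2 ^ (e+3) < 2 ^ (2 e + 8)`; otherwise `t' = 2 e + 9` and
`tt lo = tt (lo - 1) + 2 ^ (tt (lo-1) / 2) - 1 ≤ 2 e + 6 + 2 ^ (e + 3)` (as `tt (lo - 1) ≤ 2 e + 7`), so
`2 ^ (e+3) (a + 1) ≤ 2 ^ (e + 3) (2 ^ (e+3) + 2 e + 7) < 2 ^ (2 e + 9)`.
The cuts: `e.2 = rr L`, `m = 0`: `n % s 0 < 2 ^ (2 e + 9)`, the sum is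
`d (2 ^ (e+2) + 8 * 2 ^ (e+3))`, `d ≤ L + 2` (`lo ≥ 1`). -/
def S_P1 : Prop := ∀ L : ℕ, ∃ P : Par, P.s P.d = ss (L + 1) ∧
  (∀ l < P.d, ∀ y < P.s P.d, P.MS l y ∨ P.MU l y → y ∈ mList (ss L) (ss (L + 1))) ∧
  (∀ e ∈ C1 L, e.1 < P.s P.d ∧ ∃ m ≤ P.d,
    (∀ l, m ≤ l → l < P.d → P.act l (e.1 / P.s (l + 1))) ∧
    e.1 % P.s m + ∑ l ∈ Finset.Ico m P.d, (P.k l + 8 * P.g l) ≤ e.2)

/-- **CompT** (150 lines). `tt` by `Primrec.nat_rec` (powers of two too), the lists by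
`Primrec.listFilter`, `Primrec.list_flatMap`, `Primrec.list_map`, `Primrec.ite`. For `Nat.log 2` use that
it is computable (search, or `Nat.log 2 m = #{i < m | 2 ^ (i+1) ≤ m}`). -/
def S_CompT : Prop := Computable ss ∧ Computable C2 ∧ Computable C1

/-- **S2C** (120 lines, uses `S_TT`). The set is decidable: `n ∈ S2 k` iff there is `L ≤ n` with the
properties (`L < ss L ≤ n`), and everything is primitive recursive. -/
def S_S2C : Prop := ComputablePred (fun t : ℕ × ℕ => t.2 ∈ S2 t.1)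

/-- **Gap** (200 lines, uses `S_TT`). Let `n ≥ ss L`, `n < ss (L+1)`, `L ≥ k + 1`, and let `m` be the
least multiple of `ss (L - (k+1))` with `m ≥ n`. Then `m ≤ n + ss (L - (k+1))` and `m ≤ ss (L+1)` (a
multiple). If `m < ss (L+1)` it is in `S2 k`. If `m = ss (L+1)` it is in `S2 k` with `L + 1` in place of
`L` (`ss (L + 1 - (k+1)) ∣ ss (L+1) < ss (L+2)`). It remains to see
`ss (L - (k+1)) ≤ (Nat.log 2)^[k] n` for large `n`. `k = 0`: `ss (L-1) ≤ ss L ≤ n`. For `k ≥ 1`: claim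
`(Nat.log 2)^[j+1] n ≥ tt (L - j) / 2 - 1` for all `j ≤ L` with `tt (L - j) ≥ 14`: `j = 0`:
`Nat.log 2 n ≥ tt L`. Step: with `h = tt (L - j - 1) / 2`, `tt (L - j) ≥ 2 ^ h` and
`2 ^ (h - 1) ≤ tt (L-j) / 2 - 1` (because `tt (L - j) = tt (L-j-1) + 2 ^ h - 1 ≥ 2 ^ h + 13`), so
`Nat.log 2` of it is at least `h - 1`. With `j = k - 1`:
`(Nat.log 2)^[k] n ≥ tt (L - k + 1) / 2 - 1 ≥ 2 ^ (tt (L - k) / 2 - 1) ≥ 2 ^ tt (L - k - 1)`, since
`tt (L - k) ≥ 2 tt (L - k - 1) + 2`. All this for `L - k - 1 ≥ 4`. -/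
def S_Gap : Prop := ∀ k : ℕ, ∃ N : ℕ, ∀ n ≥ N, ∃ m ∈ S2 k, n ≤ m ∧ m ≤ n + (Nat.log 2)^[k] n

/-- **Fin2** (assembly): the first theorem. -/
def S_Fin2 : Prop :=
  ∃ (c : ℕ → ℕ) (S : ℕ → Set ℕ), ComputablePred (fun t : ℕ × ℕ => t.2 ∈ S t.1) ∧
    (∀ k : ℕ, ∃ N : ℕ, ∀ n ≥ N, ∃ m ∈ S k, n ≤ m ∧ m ≤ n + (Nat.log 2)^[k] n) ∧
    ∀ A : Set ℕ, REPred (fun n : ℕ => n ∈ A) →
    ∃ D : Set ℕ, REPred (fun n : ℕ => n ∈ D) ∧ (∀ n ∈ D, Even n) ∧
      (∃ φ : List Bool × ℕ →. List Bool, Partrec φ ∧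
        ∀ k : ℕ, ∀ n ∈ S k, ∀ τ : List Bool,
          τ.length = n → (∀ i < n, (τ.getD i false = true ↔ i ∈ D)) →
          ∃ j ≤ c k, ∃ σ ∈ φ (τ, j), σ.length = n ∧ ∀ i < n, (σ.getD i false = true ↔ i ∈ A)) ∧
      (∃ ψ : List Bool × ℕ →. List Bool, Partrec ψ ∧ ∀ n : ℕ, ∀ τ : List Bool,
        τ.length = n → (∀ i < n, (τ.getD i false = true ↔ i ∈ A)) →
        ∃ j ≤ 2, ∃ σ ∈ ψ (τ, j), σ.length = n ∧ ∀ i < n, (σ.getD i false = true ↔ i ∈ D))

/-- **Fin1** (assembly): the second theorem. -/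
def S_Fin1 : Prop :=
  ∃ c : ℕ, ∀ A : Set ℕ, REPred (fun n : ℕ => n ∈ A) →
    ∃ D : Set ℕ, REPred (fun n : ℕ => n ∈ D) ∧ (∀ n ∈ D, Even n) ∧
      (∃ φ : List Bool × ℕ →. List Bool, Partrec φ ∧
        ∀ k n : ℕ, n ≤ tower k → ∀ τ : List Bool,
          τ.length = n → (∀ i < n, (τ.getD i false = true ↔ i ∈ D)) →
          ∃ j ≤ c * (k + 1) ^ 2, ∃ σ ∈ φ (τ, j), σ.length = n ∧
            ∀ i < n, (σ.getD i false = true ↔ i ∈ A)) ∧
      (∃ ψ : List Bool × ℕ →. List Bool, Partrec ψ ∧ ∀ n : ℕ, ∀ τ : List Bool,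
        τ.length = n → (∀ i < n, (τ.getD i false = true ↔ i ∈ A)) →
        ∃ j ≤ 2, ∃ σ ∈ ψ (τ, j), σ.length = n ∧ ∀ i < n, (σ.getD i false = true ↔ i ∈ D))

/-- **Rk1** (120 lines, uses `S_TT`): the arithmetic of the second theorem. `L` is active for
`L ≥ 5`: `tt 5 = 141` and `tt (l+1) ≥ 2 tt l + 2` for `l ≥ 4` give `tt L ≥ 2 L + 100`, and
`ee L ≤ L + 3`. If `ss L ≤ n ≤ tower k` then `L ≤ 2 k + 4`
(`ss (4 + 2 j) > tower j`: `j = 0` clear, `tt (l + 2) ≥ 2 ^ (tt l + 1)` so `ss (l+2) ≥ 2 ^ ss l`).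
`2 ^ ee L ≤ 4 (L + 2)`, so `rr L ≤ 8192 (L+2) ^ 2 + 272 (L+2) ^ 2 ≤ 8464 (2 k + 6) ^ 2`. -/
def S_Rk1 : Prop := (∀ L, 5 ≤ L → 2 * ee L + 8 ≤ tt L) ∧
  ∀ L k n : ℕ, ss L ≤ n → n ≤ tower k → rr L ≤ 304704 * (k + 1) ^ 2

end Pool.Agent.D9b
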